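import Mathlib.Combinatorics.SimpleGraph.Sum
import Mathlib.Order.CompletePartialOrder

namespace Pool.Agent.MP_2278ed_co

/-- `k`-expressions: create a vertex with label `i`; disjoint union; join all vertices of label `i`
to all vertices of label `j` (`i ≠ j`); rename label `i` to `j`. -/
inductive Expr (k : ℕ) : Type
  | vertex (i : Fin k) : Expr k
  | union (a b : Expr k) : Expr k
  | join (i j : Fin k) (h : i ≠ j) (a : Expr k) : Expr k
  | relabel (i j : Fin k) (a : Expr k) : Expr k

/-- The vertex set of the labelled graph built by an expression. -/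
def Expr.V {k : ℕ} : Expr k → Type
  | .vertex _ => Unit
  | .union a b => a.V ⊕ b.V
  | .join _ _ _ a => a.V
  | .relabel _ _ a => a.V

/-- The labels of the labelled graph built by an expression. -/
def Expr.lab {k : ℕ} : (e : Expr k) → e.V → Fin k
  | .vertex i => fun _ => i
  | .union a b => Sum.elim a.lab b.lab
  | .join _ _ _ a => a.lab
  | .relabel i j a => fun v => if a.lab v = i then j else a.lab v

/-- The graph built by an expression. -/
def Expr.graph {k : ℕ} : (e : Expr k) → SimpleGraph e.V
  | .vertex _ => ⊥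
  | .union a b => a.graph ⊕g b.graph
  | .join i j _ a => a.graph ⊔ SimpleGraph.fromRel (fun u v => a.lab u = i ∧ a.lab v = j)
  | .relabel _ _ a => a.graph

/-- Clique-width at most `k`: the graph has no vertex or is built by a `k`-expression. -/
def CwLe {V : Type} (G : SimpleGraph V) (k : ℕ) : Prop :=
  IsEmpty V ∨ ∃ e : Expr k, Nonempty (G ≃g e.graph)

/-- Finite simple graphs. -/
abbrev FG : Type := Σ n : ℕ, SimpleGraph (Fin n)

/-- A class of graphs closed under induced subgraphs (and hence under isomorphism). -/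
def Hereditary (X : Set FG) : Prop :=
  ∀ G H : FG, H ∈ X → Nonempty (G.2 ↪g H.2) → G ∈ X

/-- Clique-width is bounded by a constant on the class. -/
def BoundedCw (X : Set FG) : Prop := ∃ k : ℕ, ∀ G ∈ X, CwLe G.2 k

/-- A minimal hereditary class of unbounded clique-width. -/
def MinimalUnbounded (X : Set FG) : Prop :=
  Hereditary X ∧ ¬ BoundedCw X ∧ ∀ Y : Set FG, Hereditary Y → Y ⊂ X → BoundedCw Y

/-- Finite simple graphs with each vertex coloured white or black. -/
abbrev CG : Type := Σ n : ℕ, SimpleGraph (Fin n) × (Fin n → Bool)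

/-- The underlying uncoloured graph. -/
def CG.toFG (a : CG) : FG := ⟨a.1, a.2.1⟩

/-- `a` is a coloured induced subgraph of `b`. -/
def CLe (a b : CG) : Prop := ∃ f : a.2.1 ↪g b.2.1, ∀ v, b.2.2 (f v) = a.2.2 v

/-- An infinite coloured antichain all of whose members belong to `X`. -/
def InfAntichainIn (A : Set CG) (X : Set FG) : Prop :=
  A.Infinite ∧ (∀ a ∈ A, ∀ b ∈ A, a ≠ b → ¬ CLe a b) ∧ ∀ a ∈ A, a.toFG ∈ X

/-- `A` is a canonical infinite coloured antichain in `X`. -/
def Canonical (A : Set CG) (X : Set FG) : Prop :=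
  InfAntichainIn A X ∧
    ∀ Y : Set FG, Hereditary Y → Y ⊆ X → {a | a ∈ A ∧ a.toFG ∈ Y}.Finite →
      ¬ ∃ B : Set CG, InfAntichainIn B Y

end Pool.Agent.MP_2278ed_co
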