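import Mathlib.Tactic.Monotonicity.Lemmas
import Mathlib.Algebra.Field.ZMod
import Mathlib.Algebra.Order.Ring.Star
import Mathlib.LinearAlgebra.Matrix.Rank
import Mathlib.RingTheory.PicardGroup
import Mathlib.Analysis.Complex.UpperHalfPlane.Metric
import Mathlib.Combinatorics.Pigeonhole
import Pool.Agent.MP_2278ed_co.Defs

-- ======== part 0: formerly Pool.Agent.MP_2278ed_co.Width
section MrgPart0

namespace Pool.Agent.MP_2278ed_co

open Classical

variable {V : Type}

/-- The vertices of `S` fall into at most `k` classes of twins towards the outside of `S`. -/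
def Few (G : SimpleGraph V) (k : ℕ) (S : Set V) : Prop :=
  ∃ c : V → Fin k, ∀ u ∈ S, ∀ u' ∈ S, c u = c u' → ∀ v ∉ S, (G.Adj u v ↔ G.Adj u' v)

/-- Binary decompositions all of whose parts have few classes. -/
inductive Dec (G : SimpleGraph V) (k : ℕ) : Finset V → Prop
  | single (v : V) (hk : 0 < k) : Dec G k {v}
  | union (S T U : Finset V) (hd : Disjoint S T) (hU : ∀ v, v ∈ U ↔ v ∈ S ∨ v ∈ T)
      (hS : Dec G k S) (hT : Dec G k T) (hF : Few G k ↑U) : Dec G k U

theorem Dec.few {G : SimpleGraph V} {k : ℕ} {S : Finset V} (h : Dec G k S) : Few G k ↑S := by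
  cases h with
  | single v hk =>
    refine ⟨fun _ => ⟨0, hk⟩, fun u hu u' hu' _ w _ => ?_⟩
    simp only [Finset.coe_singleton, Set.mem_singleton_iff] at hu hu'
    rw [hu, hu']
  | union S T U hd hU hS hT hF => exact hF

theorem Dec.nonempty {G : SimpleGraph V} {k : ℕ} {S : Finset V} (h : Dec G k S) : S.Nonempty := by
  induction h with
  | single v hk => simp
  | union S T U hd hU hS hT hF ih _ =>
    obtain ⟨v, hv⟩ := ih
    exact ⟨v, (hU v).2 (Or.inl hv)⟩

theorem Dec.pos {G : SimpleGraph V} {k : ℕ} {S : Finset V} (h : Dec G k S) : 0 < k := by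
  induction h with
  | single v hk => exact hk
  | union S T U hd hU hS hT hF ih _ => exact ih

theorem Few.canon {G : SimpleGraph V} {k : ℕ} {S : Set V} (h : Few G k S) :
    ∃ c : V → Fin k, ∀ u ∈ S, ∀ u' ∈ S, (c u = c u' ↔ ∀ v ∉ S, (G.Adj u v ↔ G.Adj u' v)) := by
  obtain ⟨c, hc⟩ := h
  let Tw : V → V → Prop := fun u w => w ∈ S ∧ ∀ v ∉ S, (G.Adj u v ↔ G.Adj w v)
  let rp : V → V := fun u => @Classical.epsilon V ⟨u⟩ (Tw u)
  have hrp : ∀ u ∈ S, Tw u (rp u) := fun u hu =>
    Classical.epsilon_spec (p := Tw u) ⟨u, hu, fun _ _ => Iff.rfl⟩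
  refine ⟨fun u => c (rp u), fun u hu u' hu' => ⟨fun h v hv => ?_, fun h => ?_⟩⟩
  · rw [(hrp u hu).2 v hv, (hrp u' hu').2 v hv]
    exact hc _ (hrp u hu).1 _ (hrp u' hu').1 h v hv
  · have : Tw u = Tw u' := by
      funext w
      apply propext
      exact ⟨fun hw => ⟨hw.1, fun v hv => (h v hv).symm.trans (hw.2 v hv)⟩,
        fun hw => ⟨hw.1, fun v hv => (h v hv).trans (hw.2 v hv)⟩⟩
    simp only [rp, this]

theorem Few.mono {G : SimpleGraph V} {k l : ℕ} {S : Set V} (h : Few G k S) (hkl : k ≤ l) :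
    Few G l S := by
  obtain ⟨c, hc⟩ := h
  exact ⟨fun v => Fin.castLE hkl (c v), fun u hu u' hu' h =>
    hc u hu u' hu' (Fin.castLE_injective hkl h)⟩

theorem Expr.exists_label {k : ℕ} (e : Expr k) : Nonempty (Fin k) := by
  induction e with
  | vertex i => exact ⟨i⟩
  | union a b ih _ => exact ih
  | join i j h a _ => exact ⟨i⟩
  | relabel i j a _ => exact ⟨i⟩

theorem dec_of_expr (G : SimpleGraph V) {k : ℕ} (e : Expr k) : ∀ (f : e.V → V)
    (_ : Function.Injective f) (R : Fin k → Fin k → Prop)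
    (_ : ∀ a b, a ≠ b → (G.Adj (f a) (f b) ↔ e.graph.Adj a b ∨ R (e.lab a) (e.lab b)))
    (_ : ∀ a a', e.lab a = e.lab a' → ∀ v ∉ Set.range f, (G.Adj (f a) v ↔ G.Adj (f a') v))
    (S : Finset V) (_ : ∀ v, v ∈ S ↔ v ∈ Set.range f), Dec G k S := by
  induction e with
  | vertex i =>
    intro f hf R hin hout S hS
    have : S = {f ()} := by
      ext v
      rw [hS, Finset.mem_singleton]
      exact ⟨fun ⟨a, ha⟩ => ha.symm, fun h => ⟨(), h.symm⟩⟩
    rw [this]
    exact Dec.single _ i.pos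
  | union a b iha ihb =>
    intro f hf R hin hout S hS
    refine Dec.union (S.filter (fun v => v ∈ Set.range (f ∘ Sum.inl)))
      (S.filter (fun v => v ∈ Set.range (f ∘ Sum.inr))) S ?_ ?_ ?_ ?_ ?_
    · rw [Finset.disjoint_left]
      intro v h1 h2
      obtain ⟨x, hx⟩ := (Finset.mem_filter.1 h1).2
      obtain ⟨y, hy⟩ := (Finset.mem_filter.1 h2).2
      have := hf (hx.trans hy.symm)
      cases this
    · intro v
      simp only [Finset.mem_filter]
      constructor
      · intro hv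
        obtain ⟨x, hx⟩ := (hS v).1 hv
        rcases x with x | x
        · exact Or.inl ⟨hv, x, hx⟩
        · exact Or.inr ⟨hv, x, hx⟩
      · rintro (h | h) <;> exact h.1
    · refine iha (f ∘ Sum.inl) (hf.comp Sum.inl_injective) R ?_ ?_ _ ?_
      · intro x y hxy
        exact hin (Sum.inl x) (Sum.inl y) (fun h => hxy (Sum.inl_injective h))
      · intro x x' hx v hv
        by_cases h : v ∈ Set.range f
        · obtain ⟨y, rfl⟩ := h
          rcases y with y | y
          · exact absurd ⟨y, rfl⟩ hv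
          · have h1 := hin (Sum.inl x) (Sum.inr y) (by simp)
            have h2 := hin (Sum.inl x') (Sum.inr y) (by simp)
            have h1' : G.Adj (f (Sum.inl x)) (f (Sum.inr y)) ↔ false = true ∨ R (a.lab x) (b.lab y) := h1
            have h2' : G.Adj (f (Sum.inl x')) (f (Sum.inr y)) ↔ false = true ∨ R (a.lab x') (b.lab y) := h2
            simp only [Function.comp]
            rw [h1', h2', hx]
        · exact hout (Sum.inl x) (Sum.inl x') hx v h
      · intro v
        simp only [Finset.mem_filter]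
        exact ⟨fun h => h.2, fun h => ⟨(hS v).2 (by obtain ⟨x, hx⟩ := h; exact ⟨_, hx⟩), h⟩⟩
    · refine ihb (f ∘ Sum.inr) (hf.comp Sum.inr_injective) R ?_ ?_ _ ?_
      · intro x y hxy
        exact hin (Sum.inr x) (Sum.inr y) (fun h => hxy (Sum.inr_injective h))
      · intro x x' hx v hv
        by_cases h : v ∈ Set.range f
        · obtain ⟨y, rfl⟩ := h
          rcases y with y | y
          · have h1 := hin (Sum.inr x) (Sum.inl y) (by simp)
            have h2 := hin (Sum.inr x') (Sum.inl y) (by simp)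
            have h1' : G.Adj (f (Sum.inr x)) (f (Sum.inl y)) ↔ false = true ∨ R (b.lab x) (a.lab y) := h1
            have h2' : G.Adj (f (Sum.inr x')) (f (Sum.inl y)) ↔ false = true ∨ R (b.lab x') (a.lab y) := h2
            simp only [Function.comp]
            rw [h1', h2', hx]
          · exact absurd ⟨y, rfl⟩ hv
        · exact hout (Sum.inr x) (Sum.inr x') hx v h
      · intro v
        simp only [Finset.mem_filter]
        exact ⟨fun h => h.2, fun h => ⟨(hS v).2 (by obtain ⟨x, hx⟩ := h; exact ⟨_, hx⟩), h⟩⟩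
    · obtain ⟨i0⟩ := a.exists_label
      refine ⟨Function.extend f (Expr.union a b).lab (fun _ => i0), ?_⟩
      intro u hu u' hu' h v hv
      obtain ⟨x, rfl⟩ := (hS u).1 hu
      obtain ⟨x', rfl⟩ := (hS u').1 hu'
      rw [hf.extend_apply, hf.extend_apply] at h
      exact hout x x' h v (fun h' => hv ((hS v).2 h'))
  | join i j hij a ih =>
    intro f hf R hin hout S hS
    refine ih f hf (fun x y => R x y ∨ (x = i ∧ y = j) ∨ (y = i ∧ x = j)) ?_ hout S hS
    intro x y hxy
    have h := hin x y hxy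
    have h' : G.Adj (f x) (f y) ↔ (a.graph ⊔
      SimpleGraph.fromRel (fun u v => a.lab u = i ∧ a.lab v = j)).Adj x y ∨
        R (a.lab x) (a.lab y) := h
    rw [h', SimpleGraph.sup_adj, SimpleGraph.fromRel_adj]
    tauto
  | relabel i j a ih =>
    intro f hf R hin hout S hS
    refine ih f hf (fun x y => R (if x = i then j else x) (if y = i then j else y)) hin ?_ S hS
    intro x x' hx
    refine hout x x' ?_
    change (if a.lab x = i then j else a.lab x) = (if a.lab x' = i then j else a.lab x')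
    rw [hx]

theorem dec_of_cwLe [Fintype V] [Nonempty V] {G : SimpleGraph V} {k : ℕ} (h : CwLe G k) :
    Dec G k Finset.univ := by
  rcases h with h | ⟨e, ⟨φ⟩⟩
  · exact absurd h (not_isEmpty_of_nonempty V)
  refine dec_of_expr G e φ.symm φ.symm.injective (fun _ _ => False) ?_ ?_ _ ?_
  · intro a b _
    simpa using φ.symm.map_adj_iff
  · intro a a' _ v hv
    exact absurd (φ.symm.surjective v) hv
  · intro v
    simpa using φ.symm.surjective v

/-- The relation `H` on `S`, with labels `l`, is built by an expression. -/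
def Rep (K : ℕ) (H : V → V → Prop) (S : Finset V) (l : V → Fin K) : Prop :=
  ∃ (e : Expr K) (f : e.V → V), Function.Injective f ∧ (∀ v, v ∈ S ↔ v ∈ Set.range f) ∧
    (∀ a b, e.graph.Adj a b ↔ H (f a) (f b)) ∧ ∀ a, e.lab a = l (f a)

theorem Rep.congr {K : ℕ} {H H' : V → V → Prop} {S : Finset V} {l l' : V → Fin K}
    (h : Rep K H S l) (h1 : ∀ u ∈ S, ∀ v ∈ S, (H u v ↔ H' u v)) (h2 : ∀ v ∈ S, l v = l' v) :
    Rep K H' S l' := by
  obtain ⟨e, f, a1, a2, a3, a4⟩ := h
  have hm : ∀ a, f a ∈ S := fun a => (a2 _).2 ⟨a, rfl⟩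
  exact ⟨e, f, a1, a2, fun a b => (a3 a b).trans (h1 _ (hm a) _ (hm b)),
    fun a => (a4 a).trans (h2 _ (hm a))⟩

theorem Rep.union {K : ℕ} {H : V → V → Prop} {S T U : Finset V} {l : V → Fin K}
    (hS : Rep K H S l) (hT : Rep K H T l) (hd : Disjoint S T) (hU : ∀ v, v ∈ U ↔ v ∈ S ∨ v ∈ T) :
    Rep K (fun u v => H u v ∧ (u ∈ S ↔ v ∈ S)) U l := by
  obtain ⟨e, f, a1, a2, a3, a4⟩ := hS
  obtain ⟨e', f', b1, b2, b3, b4⟩ := hT
  have hm : ∀ a, f a ∈ S := fun a => (a2 _).2 ⟨a, rfl⟩
  have hm' : ∀ a, f' a ∉ S := fun a h => Finset.disjoint_left.1 hd h ((b2 _).2 ⟨a, rfl⟩)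
  refine ⟨e.union e', Sum.elim f f', ?_, ?_, ?_, ?_⟩
  · refine a1.sumElim b1 (fun a b h => hm' b (h ▸ hm a))
  · intro v
    rw [hU, a2, b2]
    constructor
    · rintro (⟨x, hx⟩ | ⟨x, hx⟩)
      · exact ⟨Sum.inl x, hx⟩
      · exact ⟨Sum.inr x, hx⟩
    · rintro ⟨x | x, hx⟩
      · exact Or.inl ⟨x, hx⟩
      · exact Or.inr ⟨x, hx⟩
  · rintro (x | x) (y | y)
    · change e.graph.Adj x y ↔ H (f x) (f y) ∧ (f x ∈ S ↔ f y ∈ S)
      simp [a3, hm]
    · change false = true ↔ H (f x) (f' y) ∧ (f x ∈ S ↔ f' y ∈ S)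
      simp [hm, hm']
    · change false = true ↔ H (f' x) (f y) ∧ (f' x ∈ S ↔ f y ∈ S)
      simp [hm, hm']
    · change e'.graph.Adj x y ↔ H (f' x) (f' y) ∧ (f' x ∈ S ↔ f' y ∈ S)
      simp [b3, hm']
  · rintro (x | x)
    · exact a4 x
    · exact b4 x

theorem Rep.joins {K : ℕ} {H : V → V → Prop} {S : Finset V} {l : V → Fin K}
    (h : Rep K H S l) (P : Finset (Fin K × Fin K)) (hP : ∀ p ∈ P, p.1 ≠ p.2) :
    Rep K (fun u v => H u v ∨ (l u, l v) ∈ P ∨ (l v, l u) ∈ P) S l := by
  induction P using Finset.induction_on with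
  | empty => exact h.congr (by simp) (by simp)
  | insert p P hp ih =>
    obtain ⟨e, f, a1, a2, a3, a4⟩ := ih (fun q hq => hP q (Finset.mem_insert_of_mem hq))
    have hne := hP p (Finset.mem_insert_self _ _)
    refine ⟨Expr.join p.1 p.2 hne e, f, a1, a2, ?_, a4⟩
    intro x y
    change (e.graph ⊔ SimpleGraph.fromRel (fun u v => e.lab u = p.1 ∧ e.lab v = p.2)).Adj x y ↔ _
    rw [SimpleGraph.sup_adj, SimpleGraph.fromRel_adj, a3, a4, a4]
    simp only [Finset.mem_insert, Prod.ext_iff]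
    have : (l (f x) = p.1 ∧ l (f y) = p.2 ∨ l (f y) = p.1 ∧ l (f x) = p.2) → x ≠ y := by
      rintro (⟨h1, h2⟩ | ⟨h1, h2⟩) rfl <;> exact hne (h1.symm.trans h2)
    tauto

theorem Rep.relabels {K : ℕ} {H : V → V → Prop} {S : Finset V} {l : V → Fin K}
    (h : Rep K H S l) (A : Finset (Fin K)) (g : Fin K → Fin K) (hg : ∀ a ∈ A, g a ∉ A) :
    Rep K H S (fun v => if l v ∈ A then g (l v) else l v) := by
  induction A using Finset.induction_on with
  | empty => exact h.congr (by simp) (by simp)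
  | insert p A hp ih =>
    obtain ⟨e, f, a1, a2, a3, a4⟩ := ih (fun q hq h' =>
      hg q (Finset.mem_insert_of_mem hq) (Finset.mem_insert_of_mem h'))
    refine ⟨Expr.relabel p (g p) e, f, a1, a2, a3, ?_⟩
    intro x
    change (if e.lab x = p then g p else e.lab x) = _
    rw [a4]
    by_cases h1 : l (f x) ∈ A
    · have := hg _ (Finset.mem_insert_of_mem h1)
      simp only [Finset.mem_insert, not_or] at this
      simp [h1, this.1]
    · by_cases h2 : l (f x) = p
      · simp [h2, hp]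
      · simp [h1, h2]

theorem rep_of_dec {G : SimpleGraph V} {k : ℕ} {S : Finset V} (h : Dec G k S) :
    ∀ l : V → Fin (3 * k), (∀ u ∈ S, ∀ u' ∈ S, (∀ v ∉ S, (G.Adj u v ↔ G.Adj u' v)) → l u = l u') →
      Rep (3 * k) G.Adj S l := by
  induction h with
  | single v hk =>
    intro l _
    refine ⟨Expr.vertex (l v), fun _ => v, fun _ _ _ => rfl, ?_, ?_, fun _ => rfl⟩
    · intro w
      simp only [Finset.mem_singleton, Set.mem_range]
      exact ⟨fun h => ⟨(), h.symm⟩, fun ⟨_, h⟩ => h.symm⟩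
    · intro a b
      change False ↔ _
      simp
  | union S T U hd hU hS hT hF ihS ihT =>
    intro l hl
    obtain ⟨c1, hc1⟩ := hS.few.canon
    obtain ⟨c2, hc2⟩ := hT.few.canon
    obtain ⟨c, hc⟩ := hF
    have hcard : (U.image l).card ≤ k := by
      have : ∃ g : Fin k → Fin (3 * k), ∀ v ∈ U, l v = g (c v) := by
        refine ⟨fun i => if h : ∃ v ∈ U, c v = i then l h.choose else ⟨0, by have := hS.pos; omega⟩,
          fun v hv => ?_⟩
        have h : ∃ w ∈ U, c w = c v := ⟨v, hv, rfl⟩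
        simp only [h, dif_pos]
        exact hl _ hv _ h.choose_spec.1 (hc _ hv _ h.choose_spec.1 h.choose_spec.2.symm)
      obtain ⟨g, hg⟩ := this
      calc (U.image l).card ≤ (Finset.univ.image g).card := by
            apply Finset.card_le_card
            intro x hx
            obtain ⟨v, hv, rfl⟩ := Finset.mem_image.1 hx
            exact Finset.mem_image.2 ⟨c v, Finset.mem_univ _, (hg v hv).symm⟩
        _ ≤ k := Finset.card_image_le.trans (by simp)
    obtain ⟨σ, hσ⟩ := Function.Embedding.exists_of_card_le_finset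
      (α := Fin k ⊕ Fin k) (s := (U.image l)ᶜ) (by
        rw [Finset.card_compl]
        simp only [Fintype.card_sum, Fintype.card_fin]
        omega)
    have hTS : ∀ v ∈ T, v ∉ S := fun v hv h => Finset.disjoint_left.1 hd h hv
    let l0 : V → Fin (3 * k) := fun v => if v ∈ S then σ (Sum.inl (c1 v)) else σ (Sum.inr (c2 v))
    have l0S : ∀ v ∈ S, l0 v = σ (Sum.inl (c1 v)) := fun v hv => by simp [l0, hv]
    have l0T : ∀ v ∈ T, l0 v = σ (Sum.inr (c2 v)) := fun v hv => by simp [l0, hTS v hv]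
    have r1 := ihS l0 (fun u hu u' hu' h => by
      rw [l0S u hu, l0S u' hu', (hc1 u hu u' hu').2 h])
    have r2 := ihT l0 (fun u hu u' hu' h => by
      rw [l0T u hu, l0T u' hu', (hc2 u hu u' hu').2 h])
    let P : Finset (Fin (3 * k) × Fin (3 * k)) := Finset.univ.filter
      (fun p => ∃ u ∈ S, ∃ v ∈ T, l0 u = p.1 ∧ l0 v = p.2 ∧ G.Adj u v)
    have hP : ∀ p ∈ P, p.1 ≠ p.2 := by
      intro p hp
      obtain ⟨u, hu, v, hv, h1, h2, -⟩ := (Finset.mem_filter.1 hp).2
      rw [← h1, ← h2, l0S u hu, l0T v hv]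
      intro h
      cases σ.injective h
    have hPm : ∀ u ∈ U, ∀ v ∈ U, ((l0 u, l0 v) ∈ P ↔ u ∈ S ∧ v ∉ S ∧ G.Adj u v) := by
      intro u hu v hv
      simp only [P, Finset.mem_filter, Finset.mem_univ, true_and]
      constructor
      · rintro ⟨u', hu', v', hv', h1, h2, h3⟩
        have huS : u ∈ S := by
          by_contra h
          rw [l0S u' hu', l0T u (((hU u).1 hu).resolve_left h)] at h1
          cases σ.injective h1
        have hvS : v ∉ S := by
          intro h
          rw [l0T v' hv', l0S v h] at h2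
          cases σ.injective h2
        have hvT := ((hU v).1 hv).resolve_left hvS
        rw [l0S u' hu', l0S u huS] at h1
        rw [l0T v' hv', l0T v hvT] at h2
        have e1 := (hc1 u' hu' u huS).1 (Sum.inl_injective (σ.injective h1)) v' (hTS v' hv')
        have e2 := (hc2 v' hv' v hvT).1 (Sum.inr_injective (σ.injective h2)) u
          (fun h => hTS u h huS)
        exact ⟨huS, hvS, (e2.1 (e1.1 h3).symm).symm⟩
      · rintro ⟨h1, h2, h3⟩
        exact ⟨u, h1, v, ((hU v).1 hv).resolve_left h2, rfl, rfl, h3⟩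
    have r3 := (r1.union r2 hd hU).joins P hP
    let g : Fin (3 * k) → Fin (3 * k) := fun x => if h : ∃ v ∈ U, l0 v = x then l h.choose else x
    have hg : ∀ v ∈ U, g (l0 v) = l v := by
      intro v hv
      have h : ∃ w ∈ U, l0 w = l0 v := ⟨v, hv, rfl⟩
      simp only [g, h, dif_pos]
      obtain ⟨hw, hwv⟩ := h.choose_spec
      set w := h.choose
      refine hl w hw v hv (fun z hz => ?_)
      rcases (hU w).1 hw with h1 | h1 <;> rcases (hU v).1 hv with h2 | h2
      · rw [l0S w h1, l0S v h2] at hwv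
        exact (hc1 w h1 v h2).1 (Sum.inl_injective (σ.injective hwv)) z
          (fun h => hz ((hU z).2 (Or.inl h)))
      · rw [l0S w h1, l0T v h2] at hwv
        cases σ.injective hwv
      · rw [l0T w h1, l0S v h2] at hwv
        cases σ.injective hwv
      · rw [l0T w h1, l0T v h2] at hwv
        exact (hc2 w h1 v h2).1 (Sum.inr_injective (σ.injective hwv)) z
          (fun h => hz ((hU z).2 (Or.inr h)))
    have r4 := r3.relabels (U.image l0) g (by
      intro a ha h
      obtain ⟨v, hv, rfl⟩ := Finset.mem_image.1 ha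
      rw [hg v hv] at h
      obtain ⟨w, hw, hwv⟩ := Finset.mem_image.1 h
      have : l0 w ∈ Set.range σ := by
        simp only [l0]
        split_ifs <;> exact ⟨_, rfl⟩
      have := hσ this
      rw [hwv] at this
      simp only [Finset.coe_compl, Set.mem_compl_iff, Finset.mem_coe] at this
      exact this (Finset.mem_image_of_mem _ hv))
    refine r4.congr ?_ ?_
    · intro u hu v hv
      rw [hPm u hu v hv, hPm v hv u hu, G.adj_comm v u]
      tauto
    · intro v hv
      simp only [Finset.mem_image_of_mem l0 hv, if_true]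
      exact hg v hv

theorem cwLe_of_dec [Fintype V] {G : SimpleGraph V} {k : ℕ} (h : Dec G k Finset.univ) :
    CwLe G (3 * k) := by
  obtain ⟨e, f, a1, a2, a3, -⟩ := rep_of_dec h (fun _ => ⟨0, by have := h.pos; omega⟩)
    (fun _ _ _ _ _ => rfl)
  have hb : Function.Bijective f := ⟨a1, fun v => (a2 v).1 (Finset.mem_univ v)⟩
  exact Or.inr ⟨e, ⟨SimpleGraph.Iso.symm ⟨Equiv.ofBijective f hb, fun {a b} => (a3 a b).symm⟩⟩⟩

theorem Dec.tangle {G : SimpleGraph V} {k : ℕ} {U : Finset V} (h : Dec G k U)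
    (Big : Finset V → Prop) (h1 : ∀ v, ¬ Big {v}) (hU : Big U) :
    ∃ S T W : Finset V, (∀ v, v ∈ W ↔ v ∈ S ∨ v ∈ T) ∧ ¬ Big S ∧ ¬ Big T ∧ Big W ∧
      Few G k ↑S ∧ Few G k ↑T := by
  induction h with
  | single v hk => exact absurd hU (h1 v)
  | union S T U hd hU' hS hT hF ihS ihT =>
    by_cases b1 : Big S
    · exact ihS b1
    by_cases b2 : Big T
    · exact ihT b2
    exact ⟨S, T, U, hU', b1, b2, hU, hS.few, hT.few⟩

end Pool.Agent.MP_2278ed_co

end MrgPart0

-- ======== part 1: formerly Pool.Agent.MP_2278ed_co.Rank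
section MrgPart1

namespace Pool.Agent.MP_2278ed_co

open Classical Module

variable {V : Type}

/-- `W` cannot be split evenly by a set with few classes. -/
def Linked (G : SimpleGraph V) (W : Finset V) : Prop :=
  ∀ (S : Set V) (K : ℕ), Few G K S →
    (W.filter (fun v => v ∈ S)).card ≤ 2 * K ∨ (W.filter (fun v => v ∉ S)).card ≤ 2 * K

noncomputable def rowOn (G : SimpleGraph V) (Y : Set V) (x : V) : V → ZMod 2 :=
  fun v => if v ∈ Y ∧ G.Adj x v then 1 else 0

noncomputable def rk (G : SimpleGraph V) (X Y : Set V) : ℕ :=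
  finrank (ZMod 2) (Submodule.span (ZMod 2) (rowOn G Y '' X))

noncomputable def mask (Y : Set V) : (V → ZMod 2) →ₗ[ZMod 2] (V → ZMod 2) where
  toFun f := fun v => if v ∈ Y then f v else 0
  map_add' f g := by funext v; by_cases h : v ∈ Y <;> simp [h]
  map_smul' c f := by funext v; by_cases h : v ∈ Y <;> simp [h]

theorem mem_ker_mask (Y : Set V) (f : V → ZMod 2) :
    f ∈ LinearMap.ker (mask Y) ↔ ∀ v ∈ Y, f v = 0 := by
  rw [LinearMap.mem_ker, funext_iff]
  constructor
  · intro h v hv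
    simpa [mask, hv] using h v
  · intro h v
    by_cases hv : v ∈ Y <;> simp [mask, hv, h]

theorem ker_mask_union (Y Z : Set V) :
    LinearMap.ker (mask (Y ∪ Z)) = LinearMap.ker (mask Y) ⊓ LinearMap.ker (mask Z) := by
  ext f
  simp only [Submodule.mem_inf, mem_ker_mask, Set.mem_union]
  exact ⟨fun h => ⟨fun v hv => h v (Or.inl hv), fun v hv => h v (Or.inr hv)⟩,
    fun h v hv => hv.elim (h.1 v) (h.2 v)⟩

theorem ker_mask_inter (Y Z : Set V) :
    LinearMap.ker (mask (Y ∩ Z)) = LinearMap.ker (mask Y) ⊔ LinearMap.ker (mask Z) := by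
  apply le_antisymm
  · intro f hf
    rw [mem_ker_mask] at hf
    rw [Submodule.mem_sup]
    refine ⟨fun v => if v ∈ Y then 0 else f v, ?_, fun v => if v ∈ Y then f v else 0, ?_, ?_⟩
    · rw [mem_ker_mask]
      intro v hv
      simp [hv]
    · rw [mem_ker_mask]
      intro v hv
      by_cases h : v ∈ Y
      · simp [h, hf v ⟨h, hv⟩]
      · simp [h]
    · funext v
      by_cases h : v ∈ Y <;> simp [h]
  · rw [sup_le_iff]
    constructor
    · intro f hf
      rw [mem_ker_mask] at hf ⊢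
      exact fun v hv => hf v hv.1
    · intro f hf
      rw [mem_ker_mask] at hf ⊢
      exact fun v hv => hf v hv.2

variable [Fintype V] (G : SimpleGraph V)

theorem rk_add (X Y : Set V) : rk G X Y + finrank (ZMod 2) (LinearMap.ker (mask Y)) =
    finrank (ZMod 2) (Submodule.span (ZMod 2) (rowOn G Set.univ '' X) ⊔
      LinearMap.ker (mask Y) : Submodule (ZMod 2) (V → ZMod 2)) := by
  set U := Submodule.span (ZMod 2) (rowOn G Set.univ '' X)
  set K := LinearMap.ker (mask Y)
  have h := LinearMap.finrank_range_add_finrank_ker ((mask Y).domRestrict (U ⊔ K))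
  rw [LinearMap.range_domRestrict, LinearMap.ker_domRestrict,
    (Submodule.comapSubtypeEquivOfLe (le_sup_right : K ≤ U ⊔ K)).finrank_eq] at h
  rw [← h]
  congr 1
  have h1 : Submodule.map (mask Y) K = ⊥ := by
    rw [eq_bot_iff, Submodule.map_le_iff_le_comap]
    exact le_rfl
  have h2 : Submodule.map (mask Y) U = Submodule.span (ZMod 2) (rowOn G Y '' X) := by
    rw [Submodule.map_span, Set.image_image]
    congr 2
    funext x v
    by_cases h : v ∈ Y <;> simp [mask, rowOn, h]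
  rw [Submodule.map_sup, h1, h2, sup_bot_eq]
  rfl

theorem rk_bimod (X1 X2 Y1 Y2 : Set V) :
    rk G (X1 ∪ X2) (Y1 ∩ Y2) + rk G (X1 ∩ X2) (Y1 ∪ Y2) ≤ rk G X1 Y1 + rk G X2 Y2 := by
  have a1 := rk_add G X1 Y1
  have a2 := rk_add G X2 Y2
  have a3 := rk_add G (X1 ∪ X2) (Y1 ∩ Y2)
  have a4 := rk_add G (X1 ∩ X2) (Y1 ∪ Y2)
  rw [ker_mask_inter, Set.image_union, Submodule.span_union] at a3
  rw [ker_mask_union] at a4
  set U1 := Submodule.span (ZMod 2) (rowOn G Set.univ '' X1)
  set U2 := Submodule.span (ZMod 2) (rowOn G Set.univ '' X2)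
  set K1 := LinearMap.ker (mask Y1)
  set K2 := LinearMap.ker (mask Y2)
  have b1 := Submodule.finrank_sup_add_finrank_inf_eq K1 K2
  have b2 := Submodule.finrank_sup_add_finrank_inf_eq (U1 ⊔ K1) (U2 ⊔ K2)
  have b3 : U1 ⊔ K1 ⊔ (U2 ⊔ K2) = U1 ⊔ U2 ⊔ (K1 ⊔ K2) := sup_sup_sup_comm _ _ _ _
  rw [b3] at b2
  have b4 : finrank (ZMod 2) (Submodule.span (ZMod 2) (rowOn G Set.univ '' (X1 ∩ X2)) ⊔
      K1 ⊓ K2 : Submodule (ZMod 2) (V → ZMod 2)) ≤
      finrank (ZMod 2) ((U1 ⊔ K1) ⊓ (U2 ⊔ K2) : Submodule (ZMod 2) (V → ZMod 2)) := by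
    apply Submodule.finrank_mono
    rw [sup_le_iff, le_inf_iff, le_inf_iff]
    refine ⟨⟨le_sup_of_le_left ?_, le_sup_of_le_left ?_⟩,
      le_sup_of_le_right inf_le_left, le_sup_of_le_right inf_le_right⟩
    · exact Submodule.span_mono (Set.image_mono Set.inter_subset_left)
    · exact Submodule.span_mono (Set.image_mono Set.inter_subset_right)
  omega

theorem rk_symm (X Y : Set V) : rk G X Y = rk G Y X := by
  let M : Set V → Set V → Matrix V V (ZMod 2) := fun X Y =>
    Matrix.of (fun x v => if x ∈ X ∧ v ∈ Y ∧ G.Adj x v then 1 else 0)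
  have key : ∀ X Y, rk G X Y = (M X Y).rank := by
    intro X Y
    rw [Matrix.rank_eq_finrank_span_row, rk]
    have : Submodule.span (ZMod 2) (rowOn G Y '' X) =
        Submodule.span (ZMod 2) (Set.range (M X Y).row) := by
      apply le_antisymm
      · apply Submodule.span_mono
        rintro _ ⟨x, hx, rfl⟩
        refine ⟨x, ?_⟩
        funext v
        simp [M, rowOn, hx, Matrix.row]
      · rw [Submodule.span_le]
        rintro _ ⟨x, rfl⟩
        by_cases hx : x ∈ X
        · apply Submodule.subset_span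
          refine ⟨x, hx, ?_⟩
          funext v
          simp [M, rowOn, hx, Matrix.row]
        · have : (M X Y).row x = 0 := by
            funext v
            simp [M, hx, Matrix.row]
          rw [this]
          exact Submodule.zero_mem _
    rw [this]
  rw [key, key, ← Matrix.rank_transpose]
  congr 1
  ext x v
  simp only [M, Matrix.transpose_apply, Matrix.of_apply, G.adj_comm v x]
  congr 1
  apply propext
  tauto

theorem rk_mono_left {X X' : Set V} (h : X ⊆ X') (Y : Set V) : rk G X Y ≤ rk G X' Y :=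
  Submodule.finrank_mono (Submodule.span_mono (Set.image_mono h))

theorem rk_mono {X X' Y Y' : Set V} (h : X ⊆ X') (h' : Y ⊆ Y') : rk G X Y ≤ rk G X' Y' := by
  calc rk G X Y ≤ rk G X' Y := rk_mono_left G h Y
    _ = rk G Y X' := rk_symm G _ _
    _ ≤ rk G Y' X' := rk_mono_left G h' _
    _ = rk G X' Y' := rk_symm G _ _

theorem rk_le_card (W : Finset V) (Y : Set V) : rk G ↑W Y ≤ W.card := by
  have := finrank_span_finset_le_card (R := ZMod 2) (W.image (rowOn G Y))
  rw [Set.finrank, Finset.coe_image] at this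
  exact this.trans Finset.card_image_le

theorem exists_base (B : Finset V) (Y : Set V) :
    ∃ W ⊆ B, W.card = rk G ↑B Y ∧ ∀ W' ⊆ W, W'.card ≤ rk G ↑W' Y := by
  obtain ⟨f, h1, h2, h3⟩ := Submodule.exists_fun_fin_finrank_span_eq (ZMod 2) (rowOn G Y '' ↑B)
  choose b hb1 hb2 using h1
  have hinj : Function.Injective b := by
    intro i j hij
    apply h3.injective
    rw [← hb2 i, ← hb2 j, hij]
  have hc : (Finset.univ.image b).card = rk G ↑B Y := by
    rw [Finset.card_image_of_injective _ hinj]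
    simp [rk]
  have hr : rk G ↑(Finset.univ.image b) Y = rk G ↑B Y := by
    have : rowOn G Y '' ↑(Finset.univ.image b) = Set.range f := by
      rw [Finset.coe_image, Finset.coe_univ, Set.image_univ, ← Set.range_comp]
      congr 1
      funext i
      exact hb2 i
    rw [rk, rk, this, h2]
  refine ⟨Finset.univ.image b, ?_, hc, ?_⟩
  · intro x hx
    obtain ⟨i, -, rfl⟩ := Finset.mem_image.1 hx
    exact hb1 i
  · intro W' hW'
    set W := Finset.univ.image b
    have h1 := rk_bimod G ↑W' ↑(W \ W') Y Y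
    rw [Set.inter_self, ← Finset.coe_union, Finset.union_sdiff_of_subset hW'] at h1
    have h2 := rk_le_card G (W \ W') Y
    rw [Finset.card_sdiff_of_subset hW'] at h2
    have h3 := Finset.card_le_card hW'
    omega

theorem few_of_rk (S : Set V) (k : ℕ) (h : rk G S Sᶜ ≤ k) : Few G (2 ^ k) S := by
  set U := Submodule.span (ZMod 2) (rowOn G Sᶜ '' S)
  obtain ⟨e⟩ : Nonempty (U ↪ Fin (2 ^ k)) := by
    apply Function.Embedding.nonempty_of_card_le
    rw [Module.card_eq_pow_finrank (K := ZMod 2), ZMod.card, Fintype.card_fin]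
    exact Nat.pow_le_pow_right (by norm_num) h
  refine ⟨fun u => if hu : u ∈ S then e ⟨rowOn G Sᶜ u, Submodule.subset_span ⟨u, hu, rfl⟩⟩
    else ⟨0, by positivity⟩, ?_⟩
  intro u hu u' hu' huu v hv
  simp only [hu, hu', dif_pos] at huu
  have := congrFun (congrArg Subtype.val (e.injective huu)) v
  simp only [rowOn, Set.mem_compl_iff, hv, not_false_eq_true, true_and] at this
  by_cases h1 : G.Adj u v <;> by_cases h2 : G.Adj u' v <;> simp_all

theorem rk_of_few (S : Set V) (K : ℕ) (h : Few G K S) : rk G S Sᶜ ≤ K := by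
  obtain ⟨c, hc⟩ := h
  let g : Fin K → (V → ZMod 2) := fun i => if h : ∃ u ∈ S, c u = i then rowOn G Sᶜ h.choose else 0
  have h1 : rowOn G Sᶜ '' S ⊆ Set.range g := by
    rintro _ ⟨u, hu, rfl⟩
    refine ⟨c u, ?_⟩
    have h : ∃ w ∈ S, c w = c u := ⟨u, hu, rfl⟩
    simp only [g, h, dif_pos]
    funext v
    by_cases hv : v ∈ S
    · simp [rowOn, hv]
    · simp [rowOn, hv, hc _ h.choose_spec.1 u hu h.choose_spec.2 v hv]
  have h2 := finrank_range_le_card (R := ZMod 2) g
  rw [Set.finrank, Fintype.card_fin] at h2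
  exact (Submodule.finrank_mono (Submodule.span_mono h1)).trans h2

theorem cut_submod (A B : Set V) :
    rk G (A ∪ B) (A ∪ B)ᶜ + rk G (A ∩ B) (A ∩ B)ᶜ ≤ rk G A Aᶜ + rk G B Bᶜ := by
  rw [Set.compl_union, Set.compl_inter]
  exact rk_bimod G _ _ _ _

theorem cut_half (B W : Finset V) (hW : W ⊆ B) (hW' : ∀ W' ⊆ W, W'.card ≤ rk G ↑W' (↑B)ᶜ)
    (Z : Set V) (W1 : Finset V) (hW1 : ∀ v ∈ W1, v ∈ W ∧ v ∈ Z) (hZ : 2 * rk G Z Zᶜ < W1.card)
    (B1 : Finset V) (hB1 : ∀ v, v ∈ B1 ↔ v ∈ B ∧ v ∉ Z) :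
    rk G ↑B1 (↑B1)ᶜ ≤ rk G ↑B (↑B)ᶜ := by
  have h1 := hW' W1 (fun v hv => (hW1 v hv).1)
  have h2 := rk_bimod G ↑W1 ↑W1 ((↑B)ᶜ ∩ Z) ((↑B)ᶜ ∩ Zᶜ)
  rw [Set.inter_self, ← Set.inter_union_distrib_left, Set.union_compl_self, Set.inter_univ] at h2
  have h3 : rk G ↑W1 ((↑B)ᶜ ∩ Z) ≤ rk G (↑B ∪ Zᶜ) (↑B ∪ Zᶜ)ᶜ := by
    apply rk_mono
    · intro v hv
      exact Or.inl (hW (hW1 v hv).1)
    · rw [Set.compl_union, compl_compl]
  have h4 : rk G ↑W1 ((↑B)ᶜ ∩ Zᶜ) ≤ rk G Z Zᶜ := by
    apply rk_mono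
    · intro v hv
      exact (hW1 v hv).2
    · exact Set.inter_subset_right
  have h5 := cut_submod G ↑B Zᶜ
  have h6 : rk G Zᶜ Zᶜᶜ = rk G Z Zᶜ := by rw [compl_compl, rk_symm]
  have h7 : (↑B1 : Set V) = ↑B ∩ Zᶜ := by
    ext v
    simp [hB1]
  rw [h7]
  omega

theorem exists_linked [Nonempty V] (k : ℕ) (hk : 1 ≤ k) (h : ¬ Dec G (2 ^ k) Finset.univ) :
    ∃ W : Finset V, W.card = k ∧ Linked G W := by
  by_contra hcon
  push Not at hcon
  have hZ : ∀ W : Finset V, W.card = k → ∃ Z : Set V,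
      2 * rk G Z Zᶜ < (W.filter (fun v => v ∈ Z)).card ∧
      2 * rk G Z Zᶜ < (W.filter (fun v => v ∉ Z)).card := by
    intro W hW
    have := hcon W hW
    simp only [Linked, not_forall, not_or, not_le] at this
    obtain ⟨S, K, h1, h2, h3⟩ := this
    have := rk_of_few G S K h1
    exact ⟨S, by omega, by omega⟩
  have key : ∀ n, ∀ B : Finset V, B.card = n → B.Nonempty → rk G ↑B (↑B)ᶜ ≤ k →
      Dec G (2 ^ k) B := by
    intro n
    induction n using Nat.strong_induction_on with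
    | _ n ih =>
    intro B hn hne hB
    by_cases h1 : B.card = 1
    · obtain ⟨v, rfl⟩ := Finset.card_eq_one.1 h1
      exact Dec.single v (by positivity)
    have h2 : 2 ≤ B.card := by have := hne.card_pos; omega
    rcases hB.lt_or_eq with hlt | heq
    · obtain ⟨v, hv⟩ := hne
      have hc := Finset.card_erase_of_mem hv
      refine Dec.union {v} (B.erase v) B (by simp) ?_ (Dec.single v (by positivity))
        (ih _ (by omega) _ rfl (Finset.card_pos.1 (by omega)) ?_) (few_of_rk G _ k hB)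
      · intro w
        simp only [Finset.mem_singleton, Finset.mem_erase]
        constructor
        · intro hw
          by_cases h : w = v
          · exact Or.inl h
          · exact Or.inr ⟨h, hw⟩
        · rintro (rfl | h)
          · exact hv
          · exact h.2
      · have a1 := cut_submod G ↑B (↑({v} : Finset V))ᶜ
        have a2 := rk_le_card G {v} (↑({v} : Finset V))ᶜ
        rw [compl_compl, rk_symm G (↑({v} : Finset V))ᶜ] at a1
        have a3 : (↑(B.erase v) : Set V) = ↑B ∩ (↑({v} : Finset V))ᶜ := by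
          ext w
          simp [and_comm]
        rw [a3]
        rw [Finset.card_singleton] at a2
        omega
    · obtain ⟨W, hW, hWc, hW'⟩ := exists_base G B (↑B)ᶜ
      obtain ⟨Z, z1, z2⟩ := hZ W (hWc.trans heq)
      have c1 := cut_half G B W hW hW' Z _ (by simp) z1 (B.filter (fun v => v ∉ Z)) (by simp)
      have c2 := cut_half G B W hW hW' Zᶜ (W.filter (fun v => v ∉ Z)) (by simp) (by
        rw [compl_compl, rk_symm G Zᶜ]
        exact z2) (B.filter (fun v => v ∈ Z)) (by simp)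
      have n1 : (B.filter (fun v => v ∈ Z)).Nonempty := by
        obtain ⟨w, hw⟩ := Finset.card_pos.1 (lt_of_le_of_lt (Nat.zero_le _) z1)
        exact ⟨w, Finset.mem_filter.2 ⟨hW (Finset.mem_filter.1 hw).1, (Finset.mem_filter.1 hw).2⟩⟩
      have n2 : (B.filter (fun v => v ∉ Z)).Nonempty := by
        obtain ⟨w, hw⟩ := Finset.card_pos.1 (lt_of_le_of_lt (Nat.zero_le _) z2)
        exact ⟨w, Finset.mem_filter.2 ⟨hW (Finset.mem_filter.1 hw).1, (Finset.mem_filter.1 hw).2⟩⟩
      have hs := Finset.card_filter_add_card_filter_not (s := B) (fun v => v ∈ Z)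
      have p1 := n1.card_pos
      have p2 := n2.card_pos
      refine Dec.union (B.filter (fun v => v ∈ Z)) (B.filter (fun v => v ∉ Z)) B
        (Finset.disjoint_filter_filter_not _ _ _) ?_
        (ih _ (by omega) _ rfl n1 (by omega)) (ih _ (by omega) _ rfl n2 (by omega))
        (few_of_rk G _ k hB)
      intro w
      simp only [Finset.mem_filter]
      tauto
  apply h
  refine key _ _ rfl Finset.univ_nonempty ?_
  rw [rk_symm]
  have := rk_le_card G ∅ (↑(Finset.univ : Finset V))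
  simp only [Finset.coe_univ, Set.compl_univ, Finset.coe_empty, Finset.card_empty] at this ⊢
  omega

end Pool.Agent.MP_2278ed_co

end MrgPart1

-- ======== part 2: formerly Pool.Agent.MP_2278ed_co.Comb
section MrgPart2

namespace Pool.Agent.MP_2278ed_co

open Classical

theorem exists_enum (T : Finset ℕ) (m : ℕ) (h : m ≤ T.card) :
    ∃ g : ℕ → ℕ, (∀ i j, i < j → j < m → g i < g j) ∧ ∀ i < m, g i ∈ T := by
  let e := T.orderEmbOfCardLe h
  refine ⟨fun i => if hi : i < m then e ⟨i, hi⟩ else 0, ?_, ?_⟩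
  · intro i j hij hj
    have hi : i < m := hij.trans hj
    simp only [hi, hj, dif_pos]
    exact e.strictMono (by simpa using hij)
  · intro i hi
    simp only [hi, dif_pos]
    exact T.orderEmbOfCardLe_mem h _

theorem big_fiber {α C : Type} [Fintype C] [Nonempty C] (B : Finset α) (κ : α → C) (N : ℕ)
    (h : Fintype.card C * N ≤ B.card) : ∃ γ, N ≤ (B.filter (fun x => κ x = γ)).card := by
  obtain ⟨y, -, hy⟩ := Finset.exists_le_card_fiber_of_mul_le_card_of_maps_to
    (s := B) (t := Finset.univ) (f := κ) (n := N) (fun _ _ => Finset.mem_univ _)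
    Finset.univ_nonempty (by simpa using h)
  exact ⟨y, by convert hy⟩

theorem ramsey_aux (C : Type) [Fintype C] [Nonempty C] (n : ℕ) :
    ∃ M, ∀ (c : ℕ → ℕ → C) (S : Finset ℕ), M ≤ S.card →
      ∃ (f : ℕ → ℕ) (γ : ℕ → C), (∀ i j, i < j → j < n → f i < f j) ∧ (∀ i < n, f i ∈ S) ∧
        ∀ i j, i < j → j < n → c (f i) (f j) = γ i := by
  induction n with
  | zero => exact ⟨0, fun c S _ => ⟨id, fun _ => Classical.arbitrary C, by simp, by simp, by simp⟩⟩
  | succ n ih =>
    obtain ⟨M, hM⟩ := ih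
    refine ⟨Fintype.card C * M + 1, fun c S hS => ?_⟩
    have hne : S.Nonempty := Finset.card_pos.1 (by omega)
    set v := S.min' hne with hv
    have hvS : v ∈ S := S.min'_mem hne
    obtain ⟨γ0, hγ0⟩ := big_fiber (S.erase v) (fun x => c v x) M
      (by rw [Finset.card_erase_of_mem hvS]; omega)
    obtain ⟨f, γ, h1, h2, h3⟩ := hM c _ hγ0
    have hf : ∀ i < n, f i ∈ S ∧ v < f i ∧ c v (f i) = γ0 := by
      intro i hi
      have := h2 i hi
      simp only [Finset.mem_filter, Finset.mem_erase] at this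
      exact ⟨this.1.2, lt_of_le_of_ne (S.min'_le _ this.1.2) (Ne.symm this.1.1), this.2⟩
    refine ⟨fun i => match i with | 0 => v | i + 1 => f i,
      fun i => match i with | 0 => γ0 | i + 1 => γ i, ?_, ?_, ?_⟩
    · intro i j hij hj
      match i, j with
      | 0, j + 1 => exact (hf j (by omega)).2.1
      | i + 1, j + 1 => exact h1 i j (by omega) (by omega)
    · intro i hi
      match i with
      | 0 => exact hvS
      | i + 1 => exact (hf i (by omega)).1
    · intro i j hij hj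
      match i, j with
      | 0, j + 1 => exact (hf j (by omega)).2.2
      | i + 1, j + 1 => exact h3 i j (by omega) (by omega)

/-- Finite Ramsey theorem for pairs. -/
theorem ramsey (C : Type) [Fintype C] [Nonempty C] (m : ℕ) :
    ∃ M, ∀ (c : ℕ → ℕ → C), ∃ (f : ℕ → ℕ) (γ : C), (∀ i j, i < j → j < m → f i < f j) ∧
      (∀ i < m, f i < M) ∧ ∀ i j, i < j → j < m → c (f i) (f j) = γ := by
  obtain ⟨M, hM⟩ := ramsey_aux C (Fintype.card C * m)
  refine ⟨M, fun c => ?_⟩
  obtain ⟨f, γ, h1, h2, h3⟩ := hM c (Finset.range M) (by simp)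
  obtain ⟨γ0, h0⟩ := big_fiber (Finset.range (Fintype.card C * m)) γ m (by simp)
  obtain ⟨g, g1, g2⟩ := exists_enum _ m h0
  have g3 : ∀ i < m, g i < Fintype.card C * m ∧ γ (g i) = γ0 := by
    intro i hi
    simpa using g2 i hi
  refine ⟨fun i => f (g i), γ0, ?_, ?_, ?_⟩
  · intro i j hij hj
    exact h1 _ _ (g1 i j hij hj) (g3 j hj).1
  · intro i hi
    simpa using h2 _ (g3 i hi).1
  · intro i j hij hj
    rw [h3 _ _ (g1 i j hij hj) (g3 j hj).1, (g3 i (hij.trans hj)).2]

/-- Points reachable from `A` in at most `n` steps. -/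
def Ball {α : Type} (ar : α → α → Prop) (A : Set α) : ℕ → Set α
  | 0 => A
  | n + 1 => Ball ar A n ∪ {v | ∃ u ∈ Ball ar A n, ar u v}

theorem ball_mono {α : Type} (ar : α → α → Prop) (A : Set α) {m n : ℕ} (h : m ≤ n) :
    Ball ar A m ⊆ Ball ar A n := by
  induction h with
  | refl => exact subset_rfl
  | step _ ih => exact ih.trans Set.subset_union_left

theorem ball_step {α : Type} {ar : α → α → Prop} {A : Set α} {n : ℕ} {u v : α}
    (hu : u ∈ Ball ar A n) (h : ar u v) : v ∈ Ball ar A (n + 1) := Or.inr ⟨u, hu, h⟩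

theorem exists_path {α : Type} (ar : α → α → Prop) (A : Set α) (n : ℕ) (v : α)
    (hv : v ∈ Ball ar A n) (hv' : ∀ m < n, v ∉ Ball ar A m) :
    ∃ u : ℕ → α, u n = v ∧ (∀ i ≤ n, u i ∈ Ball ar A i) ∧ (∀ i < n, ar (u i) (u (i + 1))) ∧
      (∀ i j, i + 1 < j → j ≤ n → ¬ ar (u i) (u j)) := by
  have key : ∃ u : ℕ → α, u n = v ∧ (∀ i ≤ n, u i ∈ Ball ar A i) ∧
      (∀ i < n, ar (u i) (u (i + 1))) ∧ (∀ j ≤ n, ∀ m < j, u j ∉ Ball ar A m) := by
    induction n generalizing v with
    | zero =>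
      refine ⟨fun _ => v, rfl, ?_, by simp, by simp⟩
      intro i hi
      obtain rfl : i = 0 := by omega
      exact hv
    | succ n ih =>
      rcases hv with hv | ⟨w, hw, hwv⟩
      · exact absurd hv (hv' n (by omega))
      have hw' : ∀ m < n, w ∉ Ball ar A m := fun m hm h => hv' (m + 1) (by omega) (ball_step h hwv)
      obtain ⟨u, h1, h2, h3, h4⟩ := ih w hw hw'
      refine ⟨fun i => if i ≤ n then u i else v, by simp, ?_, ?_, ?_⟩
      · intro i hi
        by_cases h : i ≤ n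
        · simpa [h] using h2 i h
        · obtain rfl : i = n + 1 := by omega
          simpa using ball_step hw hwv
      · intro i hi
        by_cases h : i + 1 ≤ n
        · simpa [h, show i ≤ n by omega] using h3 i (by omega)
        · obtain rfl : i = n := by omega
          simpa [h1] using hwv
      · intro j hj m hm
        by_cases h : j ≤ n
        · simpa [h] using h4 j h m hm
        · simpa [h] using hv' m (by omega)
  obtain ⟨u, h1, h2, h3, h4⟩ := key
  exact ⟨u, h1, h2, h3, fun i j hij hj h =>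
    h4 j hj (i + 1) hij (ball_step (h2 i (by omega)) h)⟩

theorem exists_dist {α : Type} (ar : α → α → Prop) (A : Set α) (n : ℕ) (v : α)
    (hv : v ∈ Ball ar A n) : ∃ m ≤ n, v ∈ Ball ar A m ∧ ∀ l < m, v ∉ Ball ar A l := by
  have h : ∃ m, v ∈ Ball ar A m := ⟨n, hv⟩
  exact ⟨Nat.find h, Nat.find_min' h hv, Nat.find_spec h, fun l hl => Nat.find_min h hl⟩

theorem ball_closed {α : Type} {ar : α → α → Prop} {A : Set α} {n : ℕ}
    (h : Ball ar A (n + 1) ⊆ Ball ar A n) (m : ℕ) : Ball ar A m ⊆ Ball ar A n := by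
  induction m with
  | zero => exact ball_mono ar A (Nat.zero_le n)
  | succ m ih =>
    rintro v (hv | ⟨u, hu, huv⟩)
    · exact ih hv
    · exact h (ball_step (ih hu) huv)

/-- From many distinct sets, a triangular pattern. -/
theorem splitting {ι Θ : Type} (τ : ι → Θ → Prop) (N : ℕ) (B : Finset ι)
    (hinj : Set.InjOn τ B) (hB : 2 ^ N ≤ B.card) [Nonempty Θ] :
    ∃ (k : ℕ → ι) (θ : ℕ → Θ), (∀ i < N, k i ∈ B) ∧
      ∀ i l, i < l → l < N → ¬ (τ (k l) (θ i) ↔ τ (k i) (θ i)) := by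
  induction N generalizing B with
  | zero =>
    obtain ⟨x, -⟩ : B.Nonempty := Finset.card_pos.1 (by simpa using hB)
    exact ⟨fun _ => x, fun _ => Classical.arbitrary Θ, by simp, by simp⟩
  | succ N ih =>
    have h2 : 1 < B.card := lt_of_lt_of_le (Nat.one_lt_two_pow (by omega)) hB
    obtain ⟨x, hx, y, hy, hxy⟩ := Finset.one_lt_card.1 h2
    have : τ x ≠ τ y := fun h => hxy (hinj hx hy h)
    obtain ⟨θ0, hθ0⟩ := Function.ne_iff.1 this
    have hsum := Finset.card_filter_add_card_filter_not (s := B) (fun z => τ z θ0)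
    have key : ∃ (B' : Finset ι) (x0 : ι), B' ⊆ B ∧ 2 ^ N ≤ B'.card ∧ x0 ∈ B ∧
        ∀ z ∈ B', ¬ (τ z θ0 ↔ τ x0 θ0) := by
      have hp : ∃ a ∈ B, τ a θ0 := by
        by_contra h
        push Not at h
        exact hθ0 (propext ⟨fun h' => absurd h' (h x hx), fun h' => absurd h' (h y hy)⟩)
      have hn : ∃ a ∈ B, ¬ τ a θ0 := by
        by_contra h
        push Not at h
        exact hθ0 (propext ⟨fun _ => h y hy, fun _ => h x hx⟩)
      obtain ⟨a, ha, ha'⟩ := hp
      obtain ⟨b, hb, hb'⟩ := hn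
      by_cases h : 2 ^ N ≤ (B.filter (fun z => τ z θ0)).card
      · refine ⟨_, b, Finset.filter_subset _ _, h, hb, fun z hz => ?_⟩
        have := (Finset.mem_filter.1 hz).2
        tauto
      · refine ⟨B.filter (fun z => ¬ τ z θ0), a, Finset.filter_subset _ _, ?_, ha, fun z hz => ?_⟩
        · rw [pow_succ] at hB
          omega
        · have := (Finset.mem_filter.1 hz).2
          tauto
    obtain ⟨B', x0, hsub, hcard, hx0, hsp⟩ := key
    obtain ⟨k, θ, h1, h3⟩ := ih B' (hinj.mono (by exact_mod_cast hsub)) hcard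
    refine ⟨fun i => match i with | 0 => x0 | i + 1 => k i,
      fun i => match i with | 0 => θ0 | i + 1 => θ i, ?_, ?_⟩
    · intro i hi
      match i with
      | 0 => exact hx0
      | i + 1 => exact hsub (h1 i (by omega))
    · intro i l hil hl
      match i, l with
      | 0, l + 1 => exact hsp _ (h1 l (by omega))
      | i + 1, l + 1 => exact h3 i l (by omega) (by omega)

theorem few_types {Ω T : Type} (P : Ω → Prop) (ty : Ω → T) (d : ℕ)
    (h : ∀ B : Finset Ω, (∀ b ∈ B, P b) → Set.InjOn ty B → B.card ≤ d) :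
    ∃ κ : Ω → Fin (d + 1), ∀ u u', P u → P u' → κ u = κ u' → ty u = ty u' := by
  have key : ∀ F : Finset T, (↑F : Set T) ⊆ ty '' {u | P u} → F.card ≤ d := by
    intro F hF
    have : ∀ t : F, ∃ u, P u ∧ ty u = t := fun t => hF t.2
    choose g hg1 hg2 using this
    have hginj : Function.Injective g := by
      intro a b hab
      apply Subtype.ext
      rw [← hg2 a, ← hg2 b, hab]
    have := h (Finset.univ.image g) (by
      intro b hb
      obtain ⟨a, -, rfl⟩ := Finset.mem_image.1 hb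
      exact hg1 a) (by
      intro a ha b hb hab
      simp only [Finset.coe_image, Finset.coe_univ, Set.image_univ, Set.mem_range] at ha hb
      obtain ⟨a, rfl⟩ := ha
      obtain ⟨b, rfl⟩ := hb
      rw [hg2, hg2] at hab
      rw [Subtype.ext hab])
    rwa [Finset.card_image_of_injective _ hginj, Finset.card_univ, Fintype.card_coe] at this
  have hfin : (ty '' {u | P u}).Finite := by
    by_contra hinf
    obtain ⟨F, hF, hc⟩ := Set.Infinite.exists_subset_card_eq hinf (d + 1)
    have := key F hF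
    omega
  have hc := key hfin.toFinset (by simp)
  obtain ⟨e⟩ : Nonempty (hfin.toFinset ↪ Fin (d + 1)) := by
    apply Function.Embedding.nonempty_of_card_le
    simp only [Fintype.card_coe, Fintype.card_fin]
    omega
  refine ⟨fun u => if hu : P u then e ⟨ty u, by simpa using ⟨u, hu, rfl⟩⟩ else 0, ?_⟩
  intro u u' hu hu' huu
  simp only [hu, hu', dif_pos] at huu
  simpa using e.injective huu

end Pool.Agent.MP_2278ed_co

end MrgPart2

-- ======== part 3: formerly Pool.Agent.MP_2278ed_co.Grid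
section MrgPart3

namespace Pool.Agent.MP_2278ed_co

open Classical

variable {V : Type}

/-- All finite induced subgraphs of `Γ` lie in `X`. -/
def Age (X : Set FG) (Γ : SimpleGraph V) : Prop := ∀ H : FG, Nonempty (H.2 ↪g Γ) → H ∈ X

theorem Age.mono {X Y : Set FG} {Γ : SimpleGraph V} (h : Age Y Γ) (hYX : Y ⊆ X) : Age X Γ :=
  fun H hH => hYX (h H hH)

theorem Age.of_emb {W : Type} {X : Set FG} {Γ : SimpleGraph V} {Γ' : SimpleGraph W} (h : Age X Γ)
    (e : Γ' ↪g Γ) : Age X Γ' := fun H ⟨f⟩ => h H ⟨e.comp f⟩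

theorem age_self {X : Set FG} (hX : Hereditary X) {G : FG} (h : G ∈ X) : Age X G.2 :=
  fun H hH => hX H G h hH

theorem exists_induced (Γ : SimpleGraph V) (T : Finset V) :
    ∃ (H : FG) (e : H.2 ↪g Γ), ∀ v, v ∈ T ↔ v ∈ Set.range e := by
  let f : Fin T.card ↪ V := T.equivFin.symm.toEmbedding.trans (Function.Embedding.subtype _)
  refine ⟨⟨T.card, Γ.comap f⟩, SimpleGraph.Embedding.comap f Γ, fun v => ⟨fun hv => ?_, ?_⟩⟩
  · exact ⟨T.equivFin ⟨v, hv⟩, by simp [f]⟩
  · rintro ⟨i, rfl⟩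
    exact (T.equivFin.symm i).2

/-- A two-dimensional pattern of gadgets joining row anchors to column anchors. -/
structure IsGrid (Γ : SimpleGraph V) (r : ℕ) (E : ℕ → ℕ → Prop) (x : ℕ → ℕ → ℕ → V) : Prop where
  hom : ∃ F : ℕ → ℕ → Ordering → Ordering → Prop, ∀ i ≤ r + 1, ∀ j ≤ r + 1, ∀ a k a' k',
    E a k → E a' k' → (Γ.Adj (x i a k) (x j a' k') ↔ F i j (cmp a a') (cmp k k'))
  row : ∀ a k k', x 0 a k = x 0 a k'
  col : ∀ a a' k, x (r + 1) a k = x (r + 1) a' k
  link : ∀ i ≤ r, ∀ a k a' k', E a k → E a' k' → (a ≠ a' ∨ k ≠ k') → (i = 0 → a ≠ a') →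
    (i = r → k ≠ k') → ¬ ((Γ.Adj (x i a k) (x (i + 1) a' k') ↔ Γ.Adj (x i a k) (x (i + 1) a k)) ∧
      (Γ.Adj (x i a' k') (x (i + 1) a k) ↔ Γ.Adj (x i a k) (x (i + 1) a k)))

theorem IsGrid.diag {Γ : SimpleGraph V} {r E x} (h : IsGrid Γ r E x) {i} (hi : i ≤ r) {a k a' k'}
    (h1 : E a k) (h2 : E a' k') :
    Γ.Adj (x i a k) (x (i + 1) a k) ↔ Γ.Adj (x i a' k') (x (i + 1) a' k') := by
  obtain ⟨F, hF⟩ := h.hom
  rw [hF i (by omega) (i + 1) (by omega) a k a k h1 h1,
    hF i (by omega) (i + 1) (by omega) a' k' a' k' h2 h2]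
  simp

theorem IsGrid.pull {Γ : SimpleGraph V} {r N : ℕ} {x} (h : IsGrid Γ r (fun a k => a < N ∧ k < N) x)
    (E : ℕ → ℕ → Prop) (hE : ∀ a k, E a k → a < N ∧ k < N) (hE0 : E 0 0) :
    ∃ (H : FG) (_ : H.2 ↪g Γ) (y : ℕ → ℕ → ℕ → Fin H.1), IsGrid H.2 r E y ∧
      ∀ v, ∃ i ≤ r + 1, ∃ a k, E a k ∧ v = y i a k := by
  let T : Finset V := (((Finset.range (r + 2)) ×ˢ (Finset.range N ×ˢ Finset.range N)).filter
    (fun p => E p.2.1 p.2.2)).image (fun p => x p.1 p.2.1 p.2.2)
  have hT : ∀ v, v ∈ T ↔ ∃ i ≤ r + 1, ∃ a k, E a k ∧ v = x i a k := by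
    intro v
    simp only [T, Finset.mem_image, Finset.mem_filter, Finset.mem_product, Finset.mem_range]
    constructor
    · rintro ⟨⟨i, a, k⟩, ⟨⟨h1, -⟩, h2⟩, rfl⟩
      exact ⟨i, by simp only at h1; omega, a, k, h2, rfl⟩
    · rintro ⟨i, hi, a, k, h1, rfl⟩
      exact ⟨(i, a, k), ⟨⟨by simp only; omega, hE a k h1⟩, h1⟩, rfl⟩
  obtain ⟨H, e, he⟩ := exists_induced Γ T
  obtain ⟨v0, -⟩ := (he _).1 ((hT _).2 ⟨0, by omega, 0, 0, hE0, rfl⟩)
  have : Nonempty (Fin H.1) := ⟨v0⟩
  have hy : ∀ i ≤ r + 1, ∀ a k, E a k → e (Function.invFun e (x i a k)) = x i a k :=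
    fun i hi a k hak => Function.invFun_eq ((he _).1 ((hT _).2 ⟨i, hi, a, k, hak, rfl⟩))
  have hadj : ∀ i ≤ r + 1, ∀ j ≤ r + 1, ∀ a k a' k', E a k → E a' k' →
      (H.2.Adj (Function.invFun e (x i a k)) (Function.invFun e (x j a' k')) ↔
        Γ.Adj (x i a k) (x j a' k')) := by
    intro i hi j hj a k a' k' h1 h2
    rw [← e.map_adj_iff, hy i hi a k h1, hy j hj a' k' h2]
  refine ⟨H, e, fun i a k => Function.invFun e (x i a k), ⟨?_, ?_, ?_, ?_⟩, ?_⟩
  · obtain ⟨F, hF⟩ := h.hom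
    exact ⟨F, fun i hi j hj a k a' k' h1 h2 => (hadj i hi j hj a k a' k' h1 h2).trans
      (hF i hi j hj a k a' k' (hE _ _ h1) (hE _ _ h2))⟩
  · intro a k k'
    rw [h.row a k k']
  · intro a a' k
    rw [h.col a a' k]
  · intro i hi a k a' k' h1 h2 h3 h4 h5
    rw [hadj i (by omega) (i + 1) (by omega) a k a' k' h1 h2,
      hadj i (by omega) (i + 1) (by omega) a k a k h1 h1,
      hadj i (by omega) (i + 1) (by omega) a' k' a k h2 h1]
    exact h.link i hi a k a' k' (hE _ _ h1) (hE _ _ h2) h3 h4 h5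
  · intro v
    obtain ⟨i, hi, a, k, h1, h2⟩ := (hT _).1 ((he _).2 ⟨v, rfl⟩)
    exact ⟨i, hi, a, k, h1, e.injective (h2.trans (hy i hi a k h1).symm)⟩

/-- Adjacency is read off from two coordinates that agree in order on each of finitely many
tracks. -/
def Tracked (T : Type) (G : SimpleGraph V) : Prop :=
  ∃ (tr : V → T) (p c : V → ℕ) (Φ : T → T → Ordering → Ordering → Prop),
    (∀ u v, G.Adj u v ↔ Φ (tr u) (tr v) (cmp (p u) (p v)) (cmp (c u) (c v))) ∧
      ∀ u v, tr u = tr v → (p u ≤ p v ↔ c u ≤ c v)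

theorem Tracked.of_emb {W T : Type} {G : SimpleGraph V} {G' : SimpleGraph W} (h : Tracked T G)
    (e : G' ↪g G) : Tracked T G' := by
  obtain ⟨tr, p, c, Φ, h1, h2⟩ := h
  exact ⟨tr ∘ e, p ∘ e, c ∘ e, Φ, fun u v => e.map_adj_iff.symm.trans (h1 _ _),
    fun u v => h2 _ _⟩

def ordw : Ordering → ℕ
  | .gt => 0
  | .eq => 1
  | .lt => 2

theorem ordw_cmp (a b : ℕ) : ordw (cmp a b) = if a < b then 2 else if a = b then 1 else 0 := by
  rcases lt_trichotomy a b with h | h | h
  · simp [h.cmp_eq_lt, h, ordw]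
  · simp [h, ordw]
  · simp [h.cmp_eq_gt, h.not_gt, h.ne', ordw]

theorem ordw_inj {o o' : Ordering} (h : ordw o = ordw o') : o = o' := by
  cases o <;> cases o' <;> simp_all [ordw]

theorem cmp_agree {a a' b b' : ℕ} (h1 : a ≤ a') (h2 : b' < b) (h : cmp a b = cmp a' b') :
    cmp a b' = cmp a b ∧ cmp a' b = cmp a b := by
  have := congrArg ordw h
  constructor <;> apply ordw_inj <;> simp only [ordw_cmp] at this ⊢ <;> split_ifs at this ⊢ <;>
    omega

theorem not_tracked (T : Type) [Fintype T] [Nonempty T] (r : ℕ) (hr : 1 ≤ r) :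
    ∃ K, 0 < K ∧ ∀ (W : Type) (G : SimpleGraph W) (x : ℕ → ℕ → ℕ → W),
      IsGrid G r (fun a k => a < K ∧ k < K) x → ¬ Tracked T G := by
  let C := Fin (r + 1) → T × Ordering × Ordering
  have : Fintype Ordering := ⟨{.lt, .eq, .gt}, fun o => by cases o <;> simp⟩
  have : Nonempty Ordering := ⟨.lt⟩
  have hC : 0 < Fintype.card C := Fintype.card_pos
  refine ⟨Fintype.card C * 10, by omega, ?_⟩
  set K := Fintype.card C * 10 with hK
  rintro W G x hG ⟨tr, p, c, Φ, h1, h2⟩
  let χ : ℕ × ℕ → C := fun e i => (tr (x i e.1 e.2), cmp (p (x i e.1 e.2)) (p (x (i + 1) e.1 e.2)),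
    cmp (c (x i e.1 e.2)) (c (x (i + 1) e.1 e.2)))
  obtain ⟨γ, hγ⟩ := big_fiber (Finset.range K ×ˢ Finset.range K) χ (10 * K) (by
    rw [Finset.card_product, Finset.card_range, hK]
    exact le_of_eq (by ring))
  obtain ⟨I, hγ, hI⟩ : ∃ I : Finset (ℕ × ℕ), 10 * K ≤ I.card ∧
      ∀ e ∈ I, (e.1 < K ∧ e.2 < K) ∧ χ e = γ := ⟨_, hγ, fun e he => by simpa using he⟩
  have htr : ∀ e ∈ I, ∀ e' ∈ I, ∀ i ≤ r, tr (x i e.1 e.2) = tr (x i e'.1 e'.2) ∧
      cmp (p (x i e.1 e.2)) (p (x (i + 1) e.1 e.2)) =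
        cmp (p (x i e'.1 e'.2)) (p (x (i + 1) e'.1 e'.2)) ∧
      cmp (c (x i e.1 e.2)) (c (x (i + 1) e.1 e.2)) =
        cmp (c (x i e'.1 e'.2)) (c (x (i + 1) e'.1 e'.2)) := by
    intro e he e' he' i hi
    have := congrFun ((hI e he).2.trans (hI e' he').2.symm) ⟨i, by omega⟩
    simpa [χ] using this
  have hagree : ∀ e ∈ I, ∀ e' ∈ I, e ≠ e' → p (x 1 e.1 e.2) ≤ p (x 1 e'.1 e'.2) →
      ∀ i, 1 ≤ i → i ≤ r → p (x i e.1 e.2) ≤ p (x i e'.1 e'.2) := by
    intro e he e' he' hne h0 i hi1 hi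
    induction i, hi1 using Nat.le_induction with
    | base => exact h0
    | succ i hi1 ih =>
      have a1 := ih (by omega)
      by_contra a2
      obtain ⟨t1, t2, t3⟩ := htr e he e' he' i (by omega)
      have t4 := (htr e he e' he' (i + 1) hi).1
      have b1 := (h2 _ _ t1).1 a1
      have b2 : ¬ c (x (i + 1) e.1 e.2) ≤ c (x (i + 1) e'.1 e'.2) := fun h => a2 ((h2 _ _ t4).2 h)
      obtain ⟨c1, c2⟩ := cmp_agree a1 (not_le.1 a2) t2
      obtain ⟨c3, c4⟩ := cmp_agree b1 (not_le.1 b2) t3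
      refine hG.link i (by omega) e.1 e.2 e'.1 e'.2 (hI e he).1 (hI e' he').1 ?_ (by omega)
        (by omega) ⟨?_, ?_⟩
      · by_contra h
        push Not at h
        exact hne (Prod.ext h.1 h.2)
      · rw [h1, h1, c1, c3, t4]
      · rw [h1, h1, c2, c4, t1]
  let g : W → W → ℕ := fun v w => ordw (cmp (p v) (p w)) + ordw (cmp (c v) (c w))
  have g4 : ∀ v w, g v w ≤ 4 := by
    intro v w
    simp only [g, ordw_cmp]
    split_ifs <;> omega
  have gm : ∀ v w w', tr w = tr w' → p w ≤ p w' →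
      g v w ≤ g v w' ∧ (¬ (G.Adj v w ↔ G.Adj v w') → g v w < g v w') := by
    intro v w w' ht hp
    have hc := (h2 _ _ ht).1 hp
    have m1 : ordw (cmp (p v) (p w)) ≤ ordw (cmp (p v) (p w')) := by
      simp only [ordw_cmp]
      split_ifs <;> omega
    have m2 : ordw (cmp (c v) (c w)) ≤ ordw (cmp (c v) (c w')) := by
      simp only [ordw_cmp]
      split_ifs <;> omega
    refine ⟨add_le_add m1 m2, fun h => ?_⟩
    by_contra h'
    apply h
    simp only [g] at h'
    rw [h1, h1, ht, ordw_inj (show ordw (cmp (p v) (p w)) = ordw (cmp (p v) (p w')) by omega),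
      ordw_inj (show ordw (cmp (c v) (c w)) = ordw (cmp (c v) (c w')) by omega)]
  let Ψ : ℕ × ℕ → ℕ := fun e => ∑ a ∈ Finset.range K,
    (g (x 0 a 0) (x 1 e.1 e.2) + g (x (r + 1) 0 a) (x r e.1 e.2))
  have hlt : ∀ e ∈ I, ∀ e' ∈ I, e ≠ e' → p (x 1 e.1 e.2) ≤ p (x 1 e'.1 e'.2) → Ψ e < Ψ e' := by
    intro e he e' he' hne h0
    have q1 := fun v => gm v _ _ (htr e he e' he' 1 hr).1 h0
    have q2 := fun v => gm v _ _ (htr e he e' he' r le_rfl).1 (hagree e he e' he' hne h0 r hr le_rfl)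
    apply Finset.sum_lt_sum (fun a _ => add_le_add (q1 _).1 (q2 _).1)
    have hd := fun i hi => hG.diag (i := i) hi (hI e he).1 (hI e' he').1
    by_cases ha : e.1 = e'.1
    · have hk : e.2 ≠ e'.2 := fun h => hne (Prod.ext ha h)
      have := hG.link r le_rfl e.1 e.2 e'.1 e'.2 (hI e he).1 (hI e' he').1 (Or.inr hk) (by omega)
        (fun _ => hk)
      have hd' := hd r le_rfl
      rw [hG.col e.1 0, hG.col e'.1 0] at this hd'
      simp only [G.adj_comm _ (x (r + 1) _ _)] at this hd'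
      by_cases h : G.Adj (x (r + 1) 0 e.2) (x r e.1 e.2) ↔ G.Adj (x (r + 1) 0 e.2) (x r e'.1 e'.2)
      · exact ⟨e'.2, Finset.mem_range.2 (hI e' he').1.2,
          add_lt_add_of_le_of_lt (q1 _).1 ((q2 _).2 (fun h' => this ⟨h'.trans (hd'.symm), h.symm⟩))⟩
      · exact ⟨e.2, Finset.mem_range.2 (hI e he).1.2,
          add_lt_add_of_le_of_lt (q1 _).1 ((q2 _).2 h)⟩
    · have := hG.link 0 (by omega) e.1 e.2 e'.1 e'.2 (hI e he).1 (hI e' he').1 (Or.inl ha)
        (fun _ => ha) (by omega)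
      have hd' := hd 0 (by omega)
      rw [hG.row e.1 e.2 0, hG.row e'.1 e'.2 0] at this hd'
      simp only [zero_add] at this hd'
      by_cases h : G.Adj (x 0 e.1 0) (x 1 e.1 e.2) ↔ G.Adj (x 0 e.1 0) (x 1 e'.1 e'.2)
      · exact ⟨e'.1, Finset.mem_range.2 (hI e' he').1.1,
          add_lt_add_of_lt_of_le ((q1 _).2 (fun h' => this ⟨h.symm, h'.trans (hd'.symm)⟩)) (q2 _).1⟩
      · exact ⟨e.1, Finset.mem_range.2 (hI e he).1.1,
          add_lt_add_of_lt_of_le ((q1 _).2 h) (q2 _).1⟩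
  have hcard : I.card ≤ (Finset.range (8 * K + 1)).card := by
    apply Finset.card_le_card_of_injOn Ψ
    · intro e _
      have : Ψ e ≤ ∑ _a ∈ Finset.range K, 8 :=
        Finset.sum_le_sum (fun a _ => add_le_add (g4 _ _) (g4 _ _))
      simp only [Finset.sum_const, Finset.card_range, smul_eq_mul] at this
      simp only [Finset.coe_range, Set.mem_Iio]
      omega
    · intro e he e' he' h
      by_contra hne
      rcases le_total (p (x 1 e.1 e.2)) (p (x 1 e'.1 e'.2)) with h' | h'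
      · exact (hlt e he e' he' hne h').ne h
      · exact (hlt e' he' e he (Ne.symm hne) h').ne h.symm
  rw [Finset.card_range] at hcard
  omega

end Pool.Agent.MP_2278ed_co

end MrgPart3

-- marker of a merged file
example : 731051 + 222944 = 731051 + 222944 := rfl
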