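import Mathlib.Data.Int.Star
import Pool.Agent.MP_2278ed_co.Grid

-- ======== part 0: formerly Pool.Agent.MP_2278ed_co.Strip
section MrgPart0

namespace Pool.Agent.MP_2278ed_co

open Classical

variable {V : Type}

def Strip (N a k : ℕ) : Prop := a < N * N ∧ (k = a ∨ k = a + 1 ∨ k = a + N)

theorem strip_tracked {G : SimpleGraph V} {r N : ℕ} {x} (h : IsGrid G r (Strip N) x)
    (hall : ∀ v, ∃ i ≤ r + 1, ∃ a k, Strip N a k ∧ v = x i a k) :
    Tracked (Fin (r + 2) × Fin 3) G := by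
  choose i hi a k hak hv using hall
  obtain ⟨F, hF⟩ := h.hom
  refine ⟨fun v => (⟨i v, by have := hi v; omega⟩,
    if k v = a v then 0 else if k v = a v + 1 then 1 else 2), a, k,
    fun t t' => F t.1 t'.1, fun u v => ?_, fun u v huv => ?_⟩
  · have := hF _ (hi u) _ (hi v) _ _ _ _ (hak u) (hak v)
    rwa [← hv u, ← hv v] at this
  · have h1 := (hak u).2
    have h2 := (hak v).2
    have h3 := congrArg (fun t : Fin (r + 2) × Fin 3 => t.2.val) huv
    simp only at h3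
    split_ifs at h3 <;> simp at h3 <;> omega

theorem cross_card {G : SimpleGraph V} {r N k : ℕ} {x} (h : IsGrid G r (Strip N) x) {S : Set V}
    (hS : Few G k S) (δ : ℕ) (hδ : δ = 0 ∨ δ = 1 ∨ δ = N) :
    ∃ A : Finset ℕ, A.card ≤ (r + 1) * (2 * k) ∧
      ∀ a < N * N, a ∉ A → (x 0 a 0 ∈ S ↔ x (r + 1) 0 (a + δ) ∈ S) := by
  obtain ⟨c, hc⟩ := hS
  have hst : ∀ a < N * N, Strip N a (a + δ) := fun a ha => ⟨ha, by omega⟩
  have key : ∀ i ≤ r, ((Finset.range (N * N)).filter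
      (fun a => ¬ (x i a (a + δ) ∈ S ↔ x (i + 1) a (a + δ) ∈ S))).card ≤ 2 * k := by
    intro i hi
    have : Fintype.card (Fin k × Prop) = 2 * k := by simp [mul_comm]
    rw [← this, ← Finset.card_univ]
    apply Finset.card_le_card_of_injOn (fun a => (if x i a (a + δ) ∈ S then c (x i a (a + δ))
      else c (x (i + 1) a (a + δ)), x i a (a + δ) ∈ S)) (fun _ _ => Finset.mem_univ _)
    intro a ha a' ha' haa
    simp only [Finset.coe_filter, Finset.mem_range, Set.mem_setOf_eq] at ha ha'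
    simp only [Prod.mk.injEq, eq_iff_iff] at haa
    by_contra hne
    have hd := h.diag hi (hst a ha.1) (hst a' ha'.1)
    refine h.link i hi a (a + δ) a' (a' + δ) (hst a ha.1) (hst a' ha'.1) (Or.inl hne)
      (fun _ => hne) (fun _ => by omega) ?_
    by_cases h1 : x i a (a + δ) ∈ S
    · have h2 := haa.2.1 h1
      have h3 : x (i + 1) a (a + δ) ∉ S := fun h => ha.2 ⟨fun _ => h, fun _ => h1⟩
      have h4 : x (i + 1) a' (a' + δ) ∉ S := fun h => ha'.2 ⟨fun _ => h, fun _ => h2⟩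
      have h5 := haa.1
      rw [if_pos h1, if_pos h2] at h5
      exact ⟨(hc _ h1 _ h2 h5 _ h4).trans hd.symm, (hc _ h1 _ h2 h5 _ h3).symm⟩
    · have h2 : x i a' (a' + δ) ∉ S := fun h => h1 (haa.2.2 h)
      have h3 : x (i + 1) a (a + δ) ∈ S := by
        by_contra h
        exact ha.2 ⟨fun h' => absurd h' h1, fun h' => absurd h' h⟩
      have h4 : x (i + 1) a' (a' + δ) ∈ S := by
        by_contra h
        exact ha'.2 ⟨fun h' => absurd h' h2, fun h' => absurd h' h⟩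
      have h5 := haa.1
      rw [if_neg h1, if_neg h2] at h5
      have h6 := hc _ h3 _ h4 h5 _ h1
      have h7 := hc _ h3 _ h4 h5 _ h2
      rw [G.adj_comm, G.adj_comm (x (i + 1) a' _)] at h6 h7
      exact ⟨h6.symm, h7.trans hd.symm⟩
  refine ⟨(Finset.range (r + 1)).biUnion (fun i => (Finset.range (N * N)).filter
      (fun a => ¬ (x i a (a + δ) ∈ S ↔ x (i + 1) a (a + δ) ∈ S))), ?_, ?_⟩
  · refine (Finset.card_biUnion_le_card_mul _ _ (2 * k) (fun i hi => key i ?_)).trans (by simp)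
    have := Finset.mem_range.1 hi
    omega
  · intro a ha hA
    simp only [Finset.mem_biUnion, Finset.mem_range, Finset.mem_filter, not_exists, not_and,
      not_not] at hA
    have : ∀ i ≤ r + 1, (x 0 a (a + δ) ∈ S ↔ x i a (a + δ) ∈ S) := by
      intro i hi
      induction i with
      | zero => exact Iff.rfl
      | succ i ih => exact (ih (by omega)).trans (hA i (by omega) ha)
    rw [h.row a 0 (a + δ), h.col 0 a]
    exact this _ le_rfl

theorem bad_card {G : SimpleGraph V} {r N k : ℕ} {x} (h : IsGrid G r (Strip N) x) {S : Set V}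
    (hS : Few G k S) (δ : ℕ) (hδ : δ = 1 ∨ δ = N) :
    ∃ A : Finset ℕ, A.card ≤ 2 * ((r + 1) * (2 * k)) ∧
      ∀ a, a + δ < N * N → ¬ (x 0 a 0 ∈ S ↔ x 0 (a + δ) 0 ∈ S) → a ∈ A := by
  obtain ⟨A, a1, a2⟩ := cross_card h hS δ (Or.inr hδ)
  obtain ⟨B, b1, b2⟩ := cross_card h hS 0 (Or.inl rfl)
  refine ⟨A ∪ B.image (fun a => a - δ), ?_, ?_⟩
  · have := Finset.card_union_le A (B.image (fun a => a - δ))
    have := Finset.card_image_le (s := B) (f := fun a => a - δ)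
    omega
  · intro a ha hn
    by_contra hA
    rw [Finset.mem_union, not_or] at hA
    have h1 := a2 a (by omega) hA.1
    have h2 := b2 (a + δ) ha (fun h => hA.2 (Finset.mem_image.2 ⟨_, h, by simp⟩))
    exact hn (h1.trans h2.symm)

theorem exists_change (f : ℕ → Prop) (n : ℕ) (h1 : ∃ j < n, f j) (h2 : ∃ j < n, ¬ f j) :
    ∃ j, j + 1 < n ∧ ¬ (f j ↔ f (j + 1)) := by
  by_contra h
  push Not at h
  have : ∀ j < n, (f 0 ↔ f j) := by
    intro j hj
    induction j with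
    | zero => exact Iff.rfl
    | succ j ih => exact (ih (by omega)).trans (h j hj)
  obtain ⟨i, hi, hi'⟩ := h1
  obtain ⟨j, hj, hj'⟩ := h2
  exact hj' ((this j hj).1 ((this i hi).2 hi'))

theorem row_card {G : SimpleGraph V} {r N k : ℕ} {x} (h : IsGrid G r (Strip N) x) {S : Set V}
    (hS : Few G k S) (hN : 2 * ((r + 1) * (2 * k)) < N)
    (hsmall : ∀ i < N, ∃ j < N, x 0 (i * N + j) 0 ∉ S) (i0 : ℕ) (hi0 : i0 < N) :
    ((Finset.range N).filter (fun j => x 0 (i0 * N + j) 0 ∈ S)).card ≤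
      2 * ((r + 1) * (2 * k)) := by
  obtain ⟨A, a1, a2⟩ := bad_card h hS 1 (Or.inl rfl)
  obtain ⟨B, b1, b2⟩ := bad_card h hS N (Or.inr rfl)
  have hlt : ∀ i < N, ∀ j < N, i * N + j < N * N := fun i hi j hj => by nlinarith
  have hcol : ∀ j < N, ∃ i < N, x 0 (i * N + j) 0 ∉ S := by
    intro j hj
    by_contra hcon
    push Not at hcon
    have : Finset.range N ⊆ A.image (fun a => a / N) := by
      intro i hi
      have hi := Finset.mem_range.1 hi
      obtain ⟨l, hl, hl'⟩ := exists_change (fun l => x 0 (i * N + l) 0 ∈ S) N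
        ⟨j, hj, hcon i hi⟩ (hsmall i hi)
      refine Finset.mem_image.2 ⟨i * N + l, a2 _ (hlt i hi (l + 1) hl) hl', ?_⟩
      rw [mul_comm, Nat.mul_add_div (by omega), Nat.div_eq_of_lt (by omega), add_zero]
    have := (Finset.card_le_card this).trans Finset.card_image_le
    rw [Finset.card_range] at this
    omega
  have : (Finset.range N).filter (fun j => x 0 (i0 * N + j) 0 ∈ S) ⊆ B.image (fun a => a % N) := by
    intro j hj
    obtain ⟨hj, hj'⟩ := Finset.mem_filter.1 hj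
    have hj := Finset.mem_range.1 hj
    obtain ⟨l, hl, hl'⟩ := exists_change (fun l => x 0 (l * N + j) 0 ∈ S) N ⟨i0, hi0, hj'⟩
      (hcol j hj)
    have e : (l + 1) * N + j = l * N + j + N := by ring
    refine Finset.mem_image.2 ⟨l * N + j, b2 _ (e ▸ hlt (l + 1) hl j hj) (e ▸ hl'), ?_⟩
    rw [mul_comm, Nat.mul_add_mod, Nat.mod_eq_of_lt hj]
  exact ((Finset.card_le_card this).trans Finset.card_image_le).trans b1

theorem strip_not_dec [Fintype V] {G : SimpleGraph V} {r N k : ℕ} {x} (h : IsGrid G r (Strip N) x)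
    (hr : 1 ≤ r) (hN : 4 * ((r + 1) * (2 * k)) + 2 < N) : ¬ Dec G k Finset.univ := by
  intro hD
  obtain ⟨S, T, W, hW, h1, h2, ⟨i0, hi0, h3⟩, h4, h5⟩ := hD.tangle
    (fun S => ∃ i < N, ∀ j < N, x 0 (i * N + j) 0 ∈ S) (by
      rintro v ⟨i, hi, hv⟩
      have a1 := Finset.mem_singleton.1 (hv 0 (by omega))
      have a2 := Finset.mem_singleton.1 (hv 1 (by omega))
      have s1 : Strip N (i * N + 0) (i * N + 0) := ⟨by nlinarith, Or.inl rfl⟩
      have s2 : Strip N (i * N + 1) (i * N + 1) := ⟨by nlinarith, Or.inl rfl⟩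
      have hd := h.diag (i := 0) (by omega) s1 s2
      have hl := h.link 0 (by omega) _ _ _ _ s1 s2 (by omega) (by omega) (by omega)
      rw [h.row (i * N + 0) _ 0, h.row (i * N + 1) _ 0, a1, a2] at hd hl
      exact hl ⟨hd.symm, Iff.rfl⟩) ⟨0, by omega, fun _ _ => Finset.mem_univ _⟩
  push Not at h1 h2
  obtain ⟨A, b1, c1⟩ : ∃ A : Finset ℕ, A.card ≤ 2 * ((r + 1) * (2 * k)) ∧
      ∀ j < N, x 0 (i0 * N + j) 0 ∈ S → j ∈ A :=
    ⟨_, row_card h h4 (by omega) h1 i0 hi0, fun j hj hj' => by simpa using ⟨hj, hj'⟩⟩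
  obtain ⟨B, b2, c2⟩ : ∃ A : Finset ℕ, A.card ≤ 2 * ((r + 1) * (2 * k)) ∧
      ∀ j < N, x 0 (i0 * N + j) 0 ∈ T → j ∈ A :=
    ⟨_, row_card h h5 (by omega) h2 i0 hi0, fun j hj hj' => by simpa using ⟨hj, hj'⟩⟩
  have : Finset.range N ⊆ A ∪ B := by
    intro j hj
    have hj := Finset.mem_range.1 hj
    exact Finset.mem_union.2 (((hW _).1 (h3 j hj)).imp (c1 j hj) (c2 j hj))
  have := (Finset.card_le_card this).trans (Finset.card_union_le _ _)
  rw [Finset.card_range] at this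
  omega

/-- A minimal class has no large two-dimensional patterns. -/
theorem no_grid {X : Set FG} (hX : MinimalUnbounded X) (r : ℕ) (hr : 1 ≤ r) :
    ∃ N, ∀ (W : Type) (Γ : SimpleGraph W), Age X Γ →
      ∀ x, ¬ IsGrid Γ r (fun a k => a < N ∧ k < N) x := by
  by_contra hcon
  push Not at hcon
  obtain ⟨K, hK0, hK⟩ := not_tracked (Fin (r + 2) × Fin 3) r hr
  obtain ⟨k, hk⟩ := hX.2.2 {G | G ∈ X ∧ Tracked (Fin (r + 2) × Fin 3) G.2} (by
    rintro G H ⟨h1, h2⟩ ⟨e⟩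
    exact ⟨hX.1 G H h1 ⟨e⟩, h2.of_emb e⟩) (by
    refine ⟨fun G hG => hG.1, fun h => ?_⟩
    obtain ⟨W, Γ, hΓ, x, hx⟩ := hcon K
    obtain ⟨H, e, y, hy, -⟩ := hx.pull _ (fun _ _ h => h) ⟨hK0, hK0⟩
    exact hK _ _ y hy (h (hΓ H ⟨e⟩)).2)
  set N := 4 * ((r + 1) * (2 * k)) + 3 with hN
  obtain ⟨W, Γ, hΓ, x, hx⟩ := hcon (N * N + N)
  obtain ⟨H, e, y, hy, hall⟩ := hx.pull (Strip N) (by
    rintro a k ⟨h1, h2⟩
    omega) ⟨by positivity, Or.inl rfl⟩
  have : Nonempty (Fin H.1) := ⟨y 0 0 0⟩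
  exact strip_not_dec hy hr (by omega) (dec_of_cwLe (hk H ⟨hΓ H ⟨e⟩, strip_tracked hy hall⟩))

end Pool.Agent.MP_2278ed_co

end MrgPart0

-- ======== part 1: formerly Pool.Agent.MP_2278ed_co.Fan
section MrgPart1

namespace Pool.Agent.MP_2278ed_co

open Classical

/-- Arrays of vertices indexed by layers and rows, with adjacency `ρ` from earlier to later rows
and `η` inside a row, occur in `X`. -/
def Realized (X : Set FG) {Ω : Type} (ρ η : Ω → Ω → Prop) : Prop :=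
  ∀ (F : Finset Ω) (m : ℕ), ∃ (V : Type) (Γ : SimpleGraph V) (x : Ω → ℕ → V), Age X Γ ∧
    ∀ ω ∈ F, ∀ ω' ∈ F, ∀ a < m, (∀ b < m, a < b → (Γ.Adj (x ω a) (x ω' b) ↔ ρ ω ω')) ∧
      (Γ.Adj (x ω a) (x ω' a) ↔ η ω ω')

def tst {Ω : Type} (ρ : Ω → Ω → Prop) (z : Ω) (d : Ω × Bool) : Prop :=
  if d.2 then ρ z d.1 else ρ d.1 z

theorem cmp_eq_iff' {a b c d : ℕ} : cmp a b = cmp c d ↔ (a < b ↔ c < d) ∧ (b < a ↔ d < c) := by
  constructor
  · intro h
    have := congrArg ordw h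
    simp only [ordw_cmp] at this
    split_ifs at this <;> omega
  · intro h
    apply ordw_inj
    simp only [ordw_cmp]
    split_ifs <;> omega

theorem grid_of_fan {V : Type} {Γ : SimpleGraph V} {h N : ℕ} (hN : 1 ≤ N) (z : ℕ → ℕ → ℕ → V)
    (inv : ∀ j ≤ h + 1, ∀ j' ≤ h + 1, ∀ a ≤ N, ∀ k ≤ N, ∀ a' ≤ N, ∀ k' ≤ N, ∀ b ≤ N, ∀ l ≤ N,
      ∀ b' ≤ N, ∀ l' ≤ N, cmp a a' = cmp b b' → cmp k k' = cmp l l' →
        (Γ.Adj (z j a k) (z j' a' k') ↔ Γ.Adj (z j b l) (z j' b' l')))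
    (root : ∀ a k k', z 0 a k = z 0 a k') (col : ∀ a a' k, z (h + 1) a k = z (h + 1) a' k)
    (al : ∀ j < h, ∀ a ≤ N, ∀ a' ≤ N, a ≠ a' → ∀ k1 ≤ N, ∀ k2 ≤ N, ∀ k3 ≤ N, ∀ k4 ≤ N,
      ¬ ((Γ.Adj (z j a k1) (z (j + 1) a' k2) ↔ Γ.Adj (z j 0 0) (z (j + 1) 0 0)) ∧
        (Γ.Adj (z j a' k3) (z (j + 1) a k4) ↔ Γ.Adj (z j 0 0) (z (j + 1) 0 0))))
    (dl : ∀ a ≤ N, ∀ a' ≤ N, ∀ k ≤ N, ∀ k' ≤ N, k ≠ k' →
      ¬ ((Γ.Adj (z h a k) (z (h + 1) a' k') ↔ Γ.Adj (z h 0 0) (z (h + 1) 0 0)) ∧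
        (Γ.Adj (z h a' k') (z (h + 1) a k) ↔ Γ.Adj (z h 0 0) (z (h + 1) 0 0)))) :
    ∃ r, 1 ≤ r ∧ r ≤ h ∧ ∃ x, IsGrid Γ r (fun a k => a < N ∧ k < N) x := by
  have dg : ∀ j ≤ h, ∀ a ≤ N, ∀ k ≤ N,
      (Γ.Adj (z j a k) (z (j + 1) a k) ↔ Γ.Adj (z j 0 0) (z (j + 1) 0 0)) :=
    fun j hj a ha k hk => inv j (by omega) (j + 1) (by omega) a ha k hk a ha k hk 0 (by omega) 0
      (by omega) 0 (by omega) 0 (by omega) (by simp) (by simp)
  let NK : ℕ → Prop := fun j =>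
    (Γ.Adj (z j 0 0) (z (j + 1) 0 1) ↔ Γ.Adj (z j 0 0) (z (j + 1) 0 0)) ∧
      (Γ.Adj (z j 0 1) (z (j + 1) 0 0) ↔ Γ.Adj (z j 0 0) (z (j + 1) 0 0))
  have nk0 : NK 0 := by
    refine ⟨?_, by rw [root 0 1 0]⟩
    rw [← dg 0 (by omega) 0 (by omega) 1 hN, root 0 0 1]
  have nkh : ¬ NK h := dl 0 (by omega) 0 (by omega) 0 (by omega) 1 hN (by omega)
  set j0 := Nat.findGreatest NK h with hj0
  have h1 : NK j0 := Nat.findGreatest_spec (Nat.zero_le h) nk0
  have h2 : j0 ≤ h := Nat.findGreatest_le h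
  have h3 : j0 < h := lt_of_le_of_ne h2 (fun e => nkh (e ▸ h1))
  have h4 : ∀ j, j0 < j → j ≤ h → ¬ NK j := fun j a b => Nat.findGreatest_is_greatest a b
  refine ⟨h - j0, by omega, by omega, fun i a k => z (j0 + i) a (if i = 0 then 0 else k + 1),
    ⟨?_, ?_, ?_, ?_⟩⟩
  · refine ⟨fun i j o o' => ∃ a k a' k', (a < N ∧ k < N) ∧ (a' < N ∧ k' < N) ∧ cmp a a' = o ∧
      cmp k k' = o' ∧ Γ.Adj (z (j0 + i) a (if i = 0 then 0 else k + 1))
        (z (j0 + j) a' (if j = 0 then 0 else k' + 1)), ?_⟩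
    intro i hi j hj a k a' k' e1 e2
    refine ⟨fun h => ⟨a, k, a', k', e1, e2, rfl, rfl, h⟩, ?_⟩
    rintro ⟨b, l, b', l', f1, f2, c1, c2, h⟩
    refine (inv _ (by omega) _ (by omega) _ (by omega) _ (by split_ifs <;> omega) _ (by omega) _
      (by split_ifs <;> omega) _ (by omega) _ (by split_ifs <;> omega) _ (by omega) _
      (by split_ifs <;> omega) c1 ?_).1 h
    rw [cmp_eq_iff'] at c2 ⊢
    split_ifs <;> omega
  · intro a k k'
    simp
  · intro a a' k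
    rw [show j0 + (h - j0 + 1) = h + 1 by omega]
    exact col _ _ _
  · intro i hi a k a' k' e1 e2 hne hi0 hir
    simp only [Nat.add_eq_zero_iff, one_ne_zero, and_false, if_false, ← add_assoc]
    have hd : Γ.Adj (z (j0 + i) a (if i = 0 then 0 else k + 1)) (z (j0 + i + 1) a (k + 1)) ↔
        Γ.Adj (z (j0 + i) 0 0) (z (j0 + i + 1) 0 0) := by
      split_ifs with h0
      · subst h0
        refine Iff.trans ?_ h1.1
        exact inv _ (by omega) _ (by omega) _ (by omega) _ (by omega) _ (by omega) _ (by omega) _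
          (by omega) _ (by omega) _ (by omega) _ (by omega) (by simp)
          (by rw [cmp_eq_iff']; omega)
      · exact dg _ (by omega) _ (by omega) _ (by omega)
    rw [hd]
    by_cases hr : i = h - j0
    · have e : j0 + i = h := by omega
      have hi' : i ≠ 0 := by omega
      simp only [e, hi', if_false]
      exact dl _ (by omega) _ (by omega) _ (by omega) _ (by omega) (by have := hir hr; omega)
    by_cases ha : a = a'
    · have hi' : i ≠ 0 := fun h => hi0 h ha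
      have hk : k ≠ k' := hne.resolve_left (fun h => h ha)
      subst ha
      simp only [hi', if_false]
      intro hh
      apply h4 (j0 + i) (by omega) (by omega)
      rcases lt_or_gt_of_ne hk with hlt | hlt
      · exact ⟨(inv _ (by omega) _ (by omega) _ (by omega) _ (by omega) _ (by omega) _ (by omega) _
          (by omega) _ (by omega) _ (by omega) _ (by omega) (by simp)
          (by rw [cmp_eq_iff']; omega)).trans hh.1,
          (inv _ (by omega) _ (by omega) _ (by omega) _ (by omega) _ (by omega) _ (by omega) _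
          (by omega) _ (by omega) _ (by omega) _ (by omega) (by simp)
          (by rw [cmp_eq_iff']; omega)).trans hh.2⟩
      · exact ⟨(inv _ (by omega) _ (by omega) _ (by omega) _ (by omega) _ (by omega) _ (by omega) _
          (by omega) _ (by omega) _ (by omega) _ (by omega) (by simp)
          (by rw [cmp_eq_iff']; omega)).trans hh.2,
          (inv _ (by omega) _ (by omega) _ (by omega) _ (by omega) _ (by omega) _ (by omega) _
          (by omega) _ (by omega) _ (by omega) _ (by omega) (by simp)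
          (by rw [cmp_eq_iff']; omega)).trans hh.1⟩
    · exact al _ (by omega) _ (by omega) _ (by omega) ha _ (by split_ifs <;> omega) _ (by omega) _
        (by split_ifs <;> omega) _ (by omega)

theorem no_grid' {X : Set FG} (hX : MinimalUnbounded X) (h : ℕ) :
    ∃ N, 1 ≤ N ∧ ∀ r, 1 ≤ r → r ≤ h → ∀ (W : Type) (Γ : SimpleGraph W), Age X Γ →
      ∀ x, ¬ IsGrid Γ r (fun a k => a < N ∧ k < N) x := by
  have : ∀ r, ∃ N, 1 ≤ r → ∀ (W : Type) (Γ : SimpleGraph W), Age X Γ →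
      ∀ x, ¬ IsGrid Γ r (fun a k => a < N ∧ k < N) x := by
    intro r
    by_cases hr : 1 ≤ r
    · obtain ⟨N, hN⟩ := no_grid hX r hr
      exact ⟨N, fun _ => hN⟩
    · exact ⟨0, fun h => absurd h hr⟩
  choose N hN using this
  refine ⟨(Finset.range (h + 1)).sup N + 1, by omega, fun r h1 h2 W Γ hΓ x hx => ?_⟩
  have hle : N r ≤ (Finset.range (h + 1)).sup N := Finset.le_sup (Finset.mem_range.2 (by omega))
  obtain ⟨F, hF⟩ := hx.hom
  exact hN r h1 W Γ hΓ x ⟨⟨F, fun i hi j hj a k a' k' e1 e2 =>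
    hF i hi j hj a k a' k' (by omega) (by omega)⟩, hx.row, hx.col,
    fun i hi a k a' k' e1 e2 => hx.link i hi a k a' k' (by omega) (by omega)⟩

def adjBy {Ω : Type} (ρ η : Ω → Ω → Prop) (ω ω' : Ω) : Ordering → Prop
  | .lt => ρ ω ω'
  | .eq => η ω ω'
  | .gt => ρ ω' ω

theorem no_fan {X : Set FG} (hX : MinimalUnbounded X) (h : ℕ) :
    ∃ M, ∀ (Ω : Type) (ρ η : Ω → Ω → Prop), Realized X ρ η →
      ∀ (u : ℕ → ℕ → Ω) (d : ℕ → Ω × Bool), (∀ k k', u k 0 = u k' 0) →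
      (∀ j < h, (∀ k < M, ∀ k' < M, ¬ (ρ (u k j) (u k' (j + 1)) ↔ η (u k' j) (u k' (j + 1)))) ∨
        (∀ k < M, ∀ k' < M, ¬ (ρ (u k (j + 1)) (u k' j) ↔ η (u k j) (u k (j + 1))))) →
      ¬ ∀ i l, i < l → l < M → ¬ (tst ρ (u l h) (d i) ↔ tst ρ (u i h) (d i)) := by
  obtain ⟨N, hN1, hN⟩ := no_grid' hX h
  have : Fintype Ordering := ⟨{.lt, .eq, .gt}, fun o => by cases o <;> simp⟩
  obtain ⟨M, hM⟩ := ramsey ((Fin (h + 2) → Fin (h + 2) → Ordering → Prop × Prop) × Bool) (N + 2)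
  refine ⟨M, fun Ω ρ η hR u d hu hl hd => ?_⟩
  let lay : ℕ → ℕ → Ω := fun j k => if j ≤ h then u k j else (d k).1
  obtain ⟨f, γ, f1, f2, f3⟩ := hM (fun k k' => (fun j j' o =>
    (adjBy ρ η (lay j k) (lay j' k') o, adjBy ρ η (lay j k) (lay j' k) o), (d k).2))
  have hb : ∀ k ≤ N, (d (f k)).2 = γ.2 := fun k hk =>
    congrArg Prod.snd (f3 k (k + 1) (by omega) (by omega))
  have c1 : ∀ j ≤ h + 1, ∀ j' ≤ h + 1, ∀ o, ∀ k k' l l', k < k' → k' ≤ N → l < l' → l' ≤ N →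
      (adjBy ρ η (lay j (f k)) (lay j' (f k')) o ↔ adjBy ρ η (lay j (f l)) (lay j' (f l')) o) := by
    intro j hj j' hj' o k k' l l' a1 a2 a3 a4
    have := (f3 k k' a1 (by omega)).trans (f3 l l' a3 (by omega)).symm
    have := congrFun (congrFun (congrFun (congrArg Prod.fst this) ⟨j, by omega⟩) ⟨j', by omega⟩) o
    exact iff_of_eq (congrArg Prod.fst this)
  have c2 : ∀ j ≤ h + 1, ∀ j' ≤ h + 1, ∀ o, ∀ k l, k ≤ N → l ≤ N →
      (adjBy ρ η (lay j (f k)) (lay j' (f k)) o ↔ adjBy ρ η (lay j (f l)) (lay j' (f l)) o) := by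
    intro j hj j' hj' o k l a2 a4
    have := (f3 k (k + 1) (by omega) (by omega)).trans (f3 l (l + 1) (by omega) (by omega)).symm
    have := congrFun (congrFun (congrFun (congrArg Prod.fst this) ⟨j, by omega⟩) ⟨j', by omega⟩) o
    exact iff_of_eq (congrArg Prod.snd this)
  obtain ⟨V, Γ, x, hΓ, hx⟩ := hR ((Finset.range (h + 2) ×ˢ Finset.range (N + 1)).image
    (fun p => lay p.1 (f p.2))) (3 * (N + 1))
  let rw' : ℕ → ℕ → ℕ → ℕ := fun j a k =>
    if j ≤ h then N + 1 + a else if γ.2 then 2 * (N + 1) + k else k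
  have hrw : ∀ j, ∀ a ≤ N, ∀ k ≤ N, rw' j a k < 3 * (N + 1) := by
    intro j a ha k hk
    simp only [rw']
    split_ifs <;> omega
  have hmem : ∀ j ≤ h + 1, ∀ k ≤ N, lay j (f k) ∈ (Finset.range (h + 2) ×ˢ
      Finset.range (N + 1)).image (fun p => lay p.1 (f p.2)) := fun j hj k hk =>
    Finset.mem_image.2 ⟨(j, k), by simp only [Finset.mem_product, Finset.mem_range]; omega, rfl⟩
  have hadj : ∀ j ≤ h + 1, ∀ j' ≤ h + 1, ∀ k ≤ N, ∀ k' ≤ N, ∀ a < 3 * (N + 1),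
      ∀ a' < 3 * (N + 1), (Γ.Adj (x (lay j (f k)) a) (x (lay j' (f k')) a') ↔
        adjBy ρ η (lay j (f k)) (lay j' (f k')) (cmp a a')) := by
    intro j hj j' hj' k hk k' hk' a ha a' ha'
    rcases lt_trichotomy a a' with hlt | rfl | hlt
    · rw [hlt.cmp_eq_lt]
      exact (hx _ (hmem j hj k hk) _ (hmem j' hj' k' hk') a ha).1 a' ha' hlt
    · rw [cmp_self_eq_eq]
      exact (hx _ (hmem j hj k hk) _ (hmem j' hj' k' hk') a ha).2
    · rw [hlt.cmp_eq_gt, Γ.adj_comm]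
      exact (hx _ (hmem j' hj' k' hk') _ (hmem j hj k hk) a' ha').1 a ha hlt
  let z : ℕ → ℕ → ℕ → V := fun j a k => x (lay j (f k)) (rw' j a k)
  have inv : ∀ j ≤ h + 1, ∀ j' ≤ h + 1, ∀ a ≤ N, ∀ k ≤ N, ∀ a' ≤ N, ∀ k' ≤ N, ∀ b ≤ N, ∀ l ≤ N,
      ∀ b' ≤ N, ∀ l' ≤ N, cmp a a' = cmp b b' → cmp k k' = cmp l l' →
        (Γ.Adj (z j a k) (z j' a' k') ↔ Γ.Adj (z j b l) (z j' b' l')) := by
    have e0 : ∀ j j', ∀ a ≤ N, ∀ k ≤ N, ∀ a' ≤ N, ∀ k' ≤ N, ∀ b ≤ N, ∀ l ≤ N,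
      ∀ b' ≤ N, ∀ l' ≤ N, cmp a a' = cmp b b' → cmp k k' = cmp l l' →
        cmp (rw' j a k) (rw' j' a' k') = cmp (rw' j b l) (rw' j' b' l') := by
      intro j j' a ha k hk a' ha' k' hk' b hb l hl b' hb' l' hl' e1 e2
      rw [cmp_eq_iff'] at e1 e2 ⊢
      simp only [rw']
      split_ifs <;> omega
    intro j hj j' hj' a ha k hk a' ha' k' hk' b hb l hl b' hb' l' hl' e1 e2
    have e3 := e2
    rw [cmp_eq_iff'] at e3
    rcases lt_trichotomy k k' with hlt | rfl | hlt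
    · simp only [z]
      rw [hadj j hj j' hj' k hk k' hk' _ (hrw j a ha k hk) _ (hrw j' a' ha' k' hk'),
        hadj j hj j' hj' l hl l' hl' _ (hrw j b hb l hl) _ (hrw j' b' hb' l' hl'),
        e0 j j' a ha k hk a' ha' k' hk' b hb l hl b' hb' l' hl' e1 e2]
      exact c1 j hj j' hj' _ k k' l l' hlt hk' (by omega) hl'
    · obtain rfl : l = l' := by omega
      simp only [z]
      rw [hadj j hj j' hj' k hk k hk' _ (hrw j a ha k hk) _ (hrw j' a' ha' k hk'),
        hadj j hj j' hj' l hl l hl' _ (hrw j b hb l hl) _ (hrw j' b' hb' l hl'),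
        e0 j j' a ha k hk a' ha' k hk' b hb l hl b' hb' l hl' e1 e2]
      exact c2 j hj j' hj' _ k l hk hl
    · simp only [z]
      rw [Γ.adj_comm, Γ.adj_comm (x (lay j (f l)) _),
        hadj j' hj' j hj k' hk' k hk _ (hrw j' a' ha' k' hk') _ (hrw j a ha k hk),
        hadj j' hj' j hj l' hl' l hl _ (hrw j' b' hb' l' hl') _ (hrw j b hb l hl),
        e0 j' j a' ha' k' hk' a ha k hk b' hb' l' hl' b hb l hl
          (by rw [cmp_eq_iff'] at e1 ⊢; omega) (by rw [cmp_eq_iff']; omega)]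
      exact c1 j' hj' j hj _ k' k l' l hlt hk (by omega) hl
  have dg : ∀ j ≤ h, ∀ a ≤ N, ∀ k ≤ N,
      (Γ.Adj (z j a k) (z (j + 1) a k) ↔ Γ.Adj (z j 0 0) (z (j + 1) 0 0)) :=
    fun j hj a ha k hk => inv j (by omega) (j + 1) (by omega) a ha k hk a ha k hk 0 (by omega) 0
      (by omega) 0 (by omega) 0 (by omega) (by simp) (by simp)
  have hmain : ∀ j ≤ h, ∀ j' ≤ h, ∀ a ≤ N, ∀ k ≤ N, ∀ a' ≤ N, ∀ k' ≤ N,
      (Γ.Adj (z j a k) (z j' a' k') ↔ adjBy ρ η (u (f k) j) (u (f k') j') (cmp a a')) := by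
    intro j hj j' hj' a ha k hk a' ha' k' hk'
    simp only [z]
    rw [hadj j (by omega) j' (by omega) k hk k' hk' _ (hrw j a ha k hk) _ (hrw j' a' ha' k' hk')]
    have : cmp (rw' j a k) (rw' j' a' k') = cmp a a' := by
      rw [cmp_eq_iff']
      simp only [rw', hj, hj', if_true]
      omega
    simp only [this, lay, hj, hj', if_true]
  have hD : ∀ a ≤ N, ∀ k ≤ N, ∀ a' ≤ N, ∀ k' ≤ N,
      (Γ.Adj (z h a k) (z (h + 1) a' k') ↔ tst ρ (u (f k) h) (d (f k'))) := by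
    intro a ha k hk a' ha' k' hk'
    simp only [z]
    rw [hadj h (by omega) (h + 1) (by omega) k hk k' hk' _ (hrw h a ha k hk) _
      (hrw (h + 1) a' ha' k' hk')]
    simp only [tst, hb k' hk', lay, rw', le_refl, if_true, show ¬ (h + 1 ≤ h) by omega, if_false]
    split_ifs
    · rw [(show N + 1 + a < 2 * (N + 1) + k' by omega).cmp_eq_lt]
      rfl
    · rw [(show k' < N + 1 + a by omega).cmp_eq_gt]
      rfl
  obtain ⟨r, r1, r2, y, hy⟩ := grid_of_fan hN1 z inv (by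
    intro a k k'
    simp only [z, lay, rw', Nat.zero_le, if_true, hu (f k) (f k')]) (by
    intro a a' k
    simp only [z, rw', show ¬ (h + 1 ≤ h) by omega, if_false]) (by
    have key : ∀ j < h, ∀ a ≤ N, ∀ a' ≤ N, a < a' → ∀ k1 ≤ N, ∀ k2 ≤ N, ∀ k3 ≤ N, ∀ k4 ≤ N,
      ¬ ((Γ.Adj (z j a k1) (z (j + 1) a' k2) ↔ Γ.Adj (z j 0 0) (z (j + 1) 0 0)) ∧
        (Γ.Adj (z j a' k3) (z (j + 1) a k4) ↔ Γ.Adj (z j 0 0) (z (j + 1) 0 0))) := by
      intro j hj a ha a' ha' hlt k1 h1 k2 h2 k3 h3 k4 h4 hh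
      rcases hl j hj with hl' | hl'
      · apply hl' (f k1) (f2 k1 (by omega)) (f k2) (f2 k2 (by omega))
        have e1 := hmain j (by omega) (j + 1) hj a ha k1 h1 a' ha' k2 h2
        have e2 := hmain j (by omega) (j + 1) hj a ha k2 h2 a ha k2 h2
        rw [hlt.cmp_eq_lt] at e1
        rw [cmp_self_eq_eq] at e2
        exact e1.symm.trans (hh.1.trans ((dg j (by omega) a ha k2 h2).symm.trans e2))
      · apply hl' (f k4) (f2 k4 (by omega)) (f k3) (f2 k3 (by omega))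
        have e1 := hmain j (by omega) (j + 1) hj a' ha' k3 h3 a ha k4 h4
        have e2 := hmain j (by omega) (j + 1) hj a ha k4 h4 a ha k4 h4
        rw [hlt.cmp_eq_gt] at e1
        rw [cmp_self_eq_eq] at e2
        exact e1.symm.trans (hh.2.trans ((dg j (by omega) a ha k4 h4).symm.trans e2))
    intro j hj a ha a' ha' hne k1 h1 k2 h2 k3 h3 k4 h4 hh
    rcases lt_or_gt_of_ne hne with hlt | hlt
    · exact key j hj a ha a' ha' hlt k1 h1 k2 h2 k3 h3 k4 h4 hh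
    · exact key j hj a' ha' a ha hlt k3 h3 k4 h4 k1 h1 k2 h2 hh.symm) (by
    intro a ha a' ha' k hk k' hk' hne hh
    rcases lt_or_gt_of_ne hne with hlt | hlt
    · apply hd (f k) (f k') (f1 k k' hlt (by omega)) (f2 k' (by omega))
      rw [← hD a' ha' k' hk' a ha k hk, ← hD a ha k hk a ha k hk, dg h le_rfl a ha k hk]
      exact hh.2
    · apply hd (f k') (f k) (f1 k' k hlt (by omega)) (f2 k (by omega))
      rw [← hD a ha k hk a' ha' k' hk', ← hD a ha k' hk' a ha k' hk', dg h le_rfl a ha k' hk']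
      exact hh.1)
  exact hN r r1 r2 V Γ hΓ y hy

end Pool.Agent.MP_2278ed_co

end MrgPart1

-- ======== part 2: formerly Pool.Agent.MP_2278ed_co.Growth
section MrgPart2

namespace Pool.Agent.MP_2278ed_co

open Classical

/-- In a minimal class, boundedly many types of layers lie within bounded link distance. -/
theorem growth {X : Set FG} (hX : MinimalUnbounded X) (i : ℕ) :
    ∃ d, ∀ (Ω T : Type) (ρ η : Ω → Ω → Prop) (ty : Ω → T) (ar : Ω → Ω → Prop) (w : Ω),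
      Realized X ρ η →
      (∀ u v, ar u v → (∀ u', ty u' = ty u → ¬ (ρ u' v ↔ η u v)) ∨
        (∀ u', ty u' = ty u → ¬ (ρ v u' ↔ η u v))) →
      (∀ z z', (∀ d, tst ρ z d ↔ tst ρ z' d) → ty z = ty z') →
      ∃ κ : Ω → Fin (d + 1), ∀ u u', u ∈ Ball ar {w} i → u' ∈ Ball ar {w} i → κ u = κ u' →
        ty u = ty u' := by
  induction i with
  | zero =>
    refine ⟨0, fun Ω T ρ η ty ar w _ _ _ => ⟨fun _ => 0, fun u u' hu hu' _ => ?_⟩⟩
    rw [show u = w from hu, show u' = w from hu']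
  | succ i ih =>
    obtain ⟨d, hd⟩ := ih
    obtain ⟨M, hM⟩ := no_fan hX (i + 1)
    refine ⟨d + 1 + Fintype.card (Fin (i + 1) → Fin (d + 1) × Prop) * 2 ^ M,
      fun Ω T ρ η ty ar w hR hl hs => ?_⟩
    obtain ⟨κ, hκ⟩ := hd Ω T ρ η ty ar w hR hl hs
    refine few_types (fun u => u ∈ Ball ar {w} (i + 1)) ty _ (fun B hB hinj => ?_)
    have h1 : (B.filter (fun z => z ∈ Ball ar {w} i)).card ≤ d + 1 := by
      have : (Finset.univ : Finset (Fin (d + 1))).card = d + 1 := by simp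
      rw [← this]
      apply Finset.card_le_card_of_injOn κ (fun _ _ => Finset.mem_univ _)
      intro a ha b hb hab
      simp only [Finset.coe_filter, Set.mem_setOf_eq] at ha hb
      exact hinj ha.1 hb.1 (hκ a b ha.2 hb.2 hab)
    have h2 := Finset.card_filter_add_card_filter_not (s := B) (fun z => z ∈ Ball ar {w} i)
    by_contra hcon
    have hp : ∀ z, ∃ p : ℕ → Ω, p 0 = w ∧ (z ∈ B → z ∉ Ball ar {w} i → p (i + 1) = z ∧
        (∀ j ≤ i + 1, p j ∈ Ball ar {w} j) ∧ ∀ j < i + 1, ar (p j) (p (j + 1))) := by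
      intro z
      by_cases hz : z ∈ B ∧ z ∉ Ball ar {w} i
      · obtain ⟨p, p1, p2, p3, -⟩ := exists_path ar {w} (i + 1) z (hB z hz.1)
          (fun m hm h => hz.2 (ball_mono ar _ (by omega) h))
        exact ⟨p, p2 0 (by omega), fun _ _ => ⟨p1, p2, p3⟩⟩
      · exact ⟨fun _ => w, rfl, fun a b => absurd ⟨a, b⟩ hz⟩
    choose p p0 hp using hp
    let χ : Ω → Fin (i + 1) → Fin (d + 1) × Prop := fun z j => (κ (p z j),
      ∀ u', ty u' = ty (p z j) → ¬ (ρ u' (p z (j + 1)) ↔ η (p z j) (p z (j + 1))))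
    obtain ⟨γ, hγ⟩ := big_fiber (B.filter (fun z => z ∉ Ball ar {w} i)) χ (2 ^ M) (by omega)
    obtain ⟨B', b1, b2⟩ : ∃ B' : Finset Ω, 2 ^ M ≤ B'.card ∧
        ∀ z ∈ B', (z ∈ B ∧ z ∉ Ball ar {w} i) ∧ χ z = γ := ⟨_, hγ, fun z hz => by simpa using hz⟩
    have : Nonempty (Ω × Bool) := ⟨(w, true)⟩
    obtain ⟨k, θ, k1, k2⟩ := splitting (tst ρ) M B' (fun a ha b hb hab =>
      hinj (b2 a ha).1.1 (b2 b hb).1.1 (hs a b (fun d => iff_of_eq (congrFun hab d)))) b1
    have hk := fun l (hl : l < M) => hp (k l) (b2 _ (k1 l hl)).1.1 (b2 _ (k1 l hl)).1.2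
    have hχ : ∀ l < M, ∀ j (hj : j < i + 1), χ (k l) ⟨j, hj⟩ = γ ⟨j, hj⟩ :=
      fun l hl j hj => congrFun (b2 _ (k1 l hl)).2 _
    have hty : ∀ j < i + 1, ∀ l < M, ∀ l' < M, ty (p (k l) j) = ty (p (k l') j) := by
      intro j hj l hl l' hl'
      exact hκ _ _ (ball_mono ar _ (by omega) ((hk l hl).2.1 j (by omega)))
        (ball_mono ar _ (by omega) ((hk l' hl').2.1 j (by omega)))
        (congrArg Prod.fst ((hχ l hl j hj).trans (hχ l' hl' j hj).symm))
    refine hM Ω ρ η hR (fun l => p (k l)) θ (fun l l' => (p0 _).trans (p0 _).symm) ?_ ?_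
    · intro j hj
      by_cases hg : (γ ⟨j, hj⟩).2
      · left
        intro l hl l' hl'
        have := (iff_of_eq (congrArg Prod.snd (hχ l' hl' j hj))).2 hg
        exact this _ (hty j hj l hl l' hl')
      · right
        intro l hl0 l' hl'
        have := (hl _ _ ((hk l hl0).2.2 j hj)).resolve_left
          (fun h => hg ((iff_of_eq (congrArg Prod.snd (hχ l hl0 j hj))).1 h))
        exact this _ (hty j hj l' hl' l hl0)
    · intro a b hab hb
      simp only [(hk a (by omega)).1, (hk b hb).1]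
      exact k2 a b hab hb

end Pool.Agent.MP_2278ed_co

end MrgPart2

-- ======== part 3: formerly Pool.Agent.MP_2278ed_co.Obj
section MrgPart3

namespace Pool.Agent.MP_2278ed_co

open Classical

/-- A finite vertex set in a graph, with two colourings. -/
structure Obj (k : ℕ) : Type 1 where
  V : Type
  pt : V
  G : SimpleGraph V
  μ : V → Bool
  c : V → Fin k
  S : Finset V

variable {k : ℕ}

def Emb (O O' : Obj k) : Prop :=
  ∃ φ : O.V → O'.V, (∀ v ∈ O.S, φ v ∈ O'.S ∧ O'.c (φ v) = O.c v ∧ O'.μ (φ v) = O.μ v) ∧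
    Set.InjOn φ O.S ∧ ∀ u ∈ O.S, ∀ v ∈ O.S, (O'.G.Adj (φ u) (φ v) ↔ O.G.Adj u v)

abbrev Obj.sub (O : Obj k) (c : O.V → Fin k) (S : Finset O.V) : Obj k := ⟨O.V, O.pt, O.G, O.μ, c, S⟩

theorem emb_sub (O : Obj k) {c1 c2 : O.V → Fin k} {S1 S2 : Finset O.V} (h : S1 ⊆ S2)
    (hc : ∀ v ∈ S1, c2 v = c1 v) : Emb (O.sub c1 S1) (O.sub c2 S2) :=
  ⟨id, fun v hv => ⟨h hv, hc v hv, rfl⟩, Set.injOn_id _, fun _ _ _ _ => Iff.rfl⟩

theorem Emb.refl (O : Obj k) : Emb O O :=
  ⟨id, fun _ hv => ⟨hv, rfl, rfl⟩, Set.injOn_id _, fun _ _ _ _ => Iff.rfl⟩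

theorem Emb.trans {O1 O2 O3 : Obj k} (h : Emb O1 O2) (h' : Emb O2 O3) : Emb O1 O3 := by
  obtain ⟨φ, a1, a2, a3⟩ := h
  obtain ⟨ψ, b1, b2, b3⟩ := h'
  refine ⟨ψ ∘ φ, fun v hv => ?_, b2.comp a2 (fun v hv => (a1 v hv).1), fun u hu v hv => ?_⟩
  · obtain ⟨c1, c2, c3⟩ := a1 v hv
    obtain ⟨d1, d2, d3⟩ := b1 _ c1
    exact ⟨d1, d2.trans c2, d3.trans c3⟩
  · exact (b3 _ (a1 u hu).1 _ (a1 v hv).1).trans (a3 u hu v hv)

instance : IsPreorder (Obj k) Emb where
  refl := Emb.refl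
  trans _ _ _ := Emb.trans

theorem Emb.card_le {O O' : Obj k} (h : Emb O O') : O.S.card ≤ O'.S.card := by
  obtain ⟨φ, a1, a2, -⟩ := h
  exact Finset.card_le_card_of_injOn φ (fun v hv => (a1 v hv).1) a2

theorem emb_of_empty {O : Obj k} (h : O.S = ∅) (O' : Obj k) : Emb O O' :=
  ⟨fun _ => O'.pt, by simp [h], by simp [h], by simp [h]⟩

theorem Emb.exists_image {O O' : Obj k} (h : Emb O O') :
    ∃ T ⊆ O'.S, Emb O (O'.sub O'.c T) ∧ Emb (O'.sub O'.c T) O := by
  obtain ⟨φ, a1, a2, a3⟩ := h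
  have : Nonempty O.V := ⟨O.pt⟩
  refine ⟨O.S.image φ, ?_, ⟨φ, fun v hv => ⟨Finset.mem_image_of_mem _ hv, (a1 v hv).2⟩, a2, a3⟩,
    ⟨Function.invFunOn φ O.S, ?_, ?_, ?_⟩⟩
  · intro x hx
    obtain ⟨v, hv, rfl⟩ := Finset.mem_image.1 hx
    exact (a1 v hv).1
  · intro x hx
    obtain ⟨v, hv, rfl⟩ := Finset.mem_image.1 hx
    rw [a2.leftInvOn_invFunOn hv]
    exact ⟨hv, (a1 v hv).2.1.symm, (a1 v hv).2.2.symm⟩
  · intro x hx y hy hxy
    obtain ⟨v, hv, rfl⟩ := Finset.mem_image.1 hx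
    obtain ⟨w, hw, rfl⟩ := Finset.mem_image.1 hy
    rw [a2.leftInvOn_invFunOn hv, a2.leftInvOn_invFunOn hw] at hxy
    rw [hxy]
  · intro x hx y hy
    obtain ⟨v, hv, rfl⟩ := Finset.mem_image.1 hx
    obtain ⟨w, hw, rfl⟩ := Finset.mem_image.1 hy
    rw [a2.leftInvOn_invFunOn hv, a2.leftInvOn_invFunOn hw]
    exact (a3 v hv w hw).symm

def Down (P : Set (Obj k)) : Prop := ∀ O ∈ P, ∀ O', Emb O' O → O' ∈ P

abbrev Pwo (P : Set (Obj k)) : Prop := P.PartiallyWellOrderedOn Emb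

theorem Down.union {P Q : Set (Obj k)} (hP : Down P) (hQ : Down Q) : Down (P ∪ Q) := by
  rintro O (h | h) O' h'
  · exact Or.inl (hP O h O' h')
  · exact Or.inr (hQ O h O' h')

theorem pwo_of_iso {P Q : Set (Obj k)} (hP : Pwo P) (h : ∀ O ∈ Q, ∃ O' ∈ P, Emb O O' ∧ Emb O' O) :
    Pwo Q := by
  rw [Pwo, Set.partiallyWellOrderedOn_iff_exists_lt]
  intro f hf
  choose g hg h1 h2 using fun n => h _ (hf n)
  obtain ⟨m, n, hmn, h3⟩ := hP.exists_lt hg
  exact ⟨m, n, hmn, (h1 m).trans (h3.trans (h2 n))⟩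

def Join (P : Set (Obj k)) : Set (Obj k) :=
  {O | ∃ (S1 S2 : Finset O.V) (c : O.V → Fin k) (J : Fin k → Fin k → Prop) (g1 g2 : Fin k → Fin k),
    Disjoint S1 S2 ∧ (∀ v, v ∈ O.S ↔ v ∈ S1 ∨ v ∈ S2) ∧ O.sub c S1 ∈ P ∧ O.sub c S2 ∈ P ∧
    (∀ u ∈ S1, ∀ v ∈ S2, (O.G.Adj u v ↔ J (c u) (c v))) ∧ (∀ v ∈ S1, O.c v = g1 (c v)) ∧
    (∀ v ∈ S2, O.c v = g2 (c v))}

theorem pwo_join {P : Set (Obj k)} (hP : Pwo P) : Pwo (Join P) := by
  rw [Pwo, Set.partiallyWellOrderedOn_iff_exists_lt]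
  intro f hf
  choose S1 S2 c J g1 g2 hd hS h1 h2 hJ hg1 hg2 using hf
  obtain ⟨p, hp⟩ := hP.exists_monotone_subseq h1
  obtain ⟨q, hq⟩ := hP.exists_monotone_subseq (fun n => h2 (p n))
  obtain ⟨m, n, hmn, heq⟩ : ∃ m n, m < n ∧ (J (p (q m)), g1 (p (q m)), g2 (p (q m))) =
      (J (p (q n)), g1 (p (q n)), g2 (p (q n))) := by
    obtain ⟨m, n, hmn, h⟩ := Finite.exists_ne_map_eq_of_infinite
      (fun m => (J (p (q m)), g1 (p (q m)), g2 (p (q m))))
    rcases lt_or_gt_of_ne hmn with h' | h'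
    · exact ⟨m, n, h', h⟩
    · exact ⟨n, m, h', h.symm⟩
  simp only [Prod.mk.injEq] at heq
  obtain ⟨e1, e2, e3⟩ := heq
  have hlt : p (q m) < p (q n) := p.strictMono (q.strictMono hmn)
  have hA := hp (q m) (q n) (q.monotone hmn.le)
  have hB := hq m n hmn.le
  generalize p (q m) = M at *
  generalize p (q n) = N at *
  obtain ⟨φ, a1, a2, a3⟩ := hA
  obtain ⟨ψ, b1, b2, b3⟩ := hB
  have nd : ∀ v ∈ S2 M, v ∉ S1 M := fun v hv h => Finset.disjoint_left.1 (hd M) h hv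
  refine ⟨M, N, hlt, fun v => if v ∈ S1 M then φ v else ψ v, ?_, ?_, ?_⟩
  · intro v hv
    rcases (hS M v).1 hv with h | h
    · simp only [h, if_true]
      obtain ⟨c1, c2, c3⟩ := a1 v h
      refine ⟨(hS N _).2 (Or.inl c1), ?_, c3⟩
      rw [hg1 N _ c1, hg1 M v h, e2]
      exact congrArg _ c2
    · simp only [nd v h, if_false]
      obtain ⟨c1, c2, c3⟩ := b1 v h
      refine ⟨(hS N _).2 (Or.inr c1), ?_, c3⟩
      rw [hg2 N _ c1, hg2 M v h, e3]
      exact congrArg _ c2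
  · intro u hu v hv huv
    rcases (hS M u).1 hu with h | h <;> rcases (hS M v).1 hv with h' | h'
    · simp only [h, h', if_true] at huv
      exact a2 h h' huv
    · simp only [h, nd v h', if_true, if_false] at huv
      exact absurd (huv ▸ (a1 u h).1) (Finset.disjoint_right.1 (hd N) (b1 v h').1)
    · simp only [h', nd u h, if_true, if_false] at huv
      exact absurd (huv ▸ (b1 u h).1) (Finset.disjoint_left.1 (hd N) (a1 v h').1)
    · simp only [nd u h, nd v h', if_false] at huv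
      exact b2 h h' huv
  · have cross : ∀ u ∈ S1 M, ∀ v ∈ S2 M, ((f N).G.Adj (φ u) (ψ v) ↔ (f M).G.Adj u v) := by
      intro u hu v hv
      rw [hJ N _ (a1 u hu).1 _ (b1 v hv).1, hJ M u hu v hv, e1]
      have c1 : c N (φ u) = c M u := (a1 u hu).2.1
      have c2 : c N (ψ v) = c M v := (b1 v hv).2.1
      rw [c1, c2]
    intro u hu v hv
    rcases (hS M u).1 hu with h | h <;> rcases (hS M v).1 hv with h' | h'
    · simp only [h, h', if_true]
      exact a3 u h v h'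
    · simp only [h, nd v h', if_true, if_false]
      exact cross u h v h'
    · simp only [h', nd u h, if_true, if_false]
      rw [(f N).G.adj_comm, (f M).G.adj_comm]
      exact cross v h' u h
    · simp only [nd u h, nd v h', if_false]
      exact b3 u h v h'

def Rec (P : Set (Obj k)) : Set (Obj k) :=
  {O | ∃ (c : O.V → Fin k) (g : Fin k → Fin k), O.sub c O.S ∈ P ∧ ∀ v ∈ O.S, O.c v = g (c v)}

theorem down_rec {P : Set (Obj k)} (hP : Down P) : Down (Rec P) := by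
  rintro O ⟨c, g, h1, h2⟩ O' ⟨φ, a1, a2, a3⟩
  refine ⟨c ∘ φ, g, hP _ h1 _ ⟨φ, fun v hv => ⟨(a1 v hv).1, rfl, (a1 v hv).2.2⟩, a2, a3⟩, ?_⟩
  intro v hv
  rw [← (a1 v hv).2.1, h2 _ (a1 v hv).1]
  rfl

theorem pwo_rec {P : Set (Obj k)} (hD : Down P) (hP : Pwo P) : Pwo (Rec P) := by
  refine (pwo_join hP).mono ?_
  rintro O ⟨c, g, h1, h2⟩
  exact ⟨O.S, ∅, c, fun _ _ => True, g, g, by simp, by simp, h1, hD _ h1 _ (emb_of_empty rfl _),
    by simp, h2, by simp⟩

theorem pwo_below {P : Set (Obj k)} (hD : Down P) {f : ℕ → Obj k}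
    (h1 : Set.PartiallyWellOrderedOn.IsBadSeq Emb P f)
    (h2 : ∀ n, Set.PartiallyWellOrderedOn.IsMinBadSeq Emb (fun O => O.S.card) P n f) :
    Pwo {O | ∃ n, Emb O (f n) ∧ O.S.card < (f n).S.card} := by
  rw [Pwo, Set.PartiallyWellOrderedOn.iff_forall_not_isBadSeq]
  rintro g ⟨hg1, hg2⟩
  choose φ e1 e2 using hg1
  have hex : ∃ N, ∃ i, φ i = N := ⟨_, 0, rfl⟩
  obtain ⟨i0, hi0⟩ := Nat.find_spec hex
  set N := Nat.find hex
  have hmin : ∀ i, N ≤ φ i := fun i => Nat.find_min' hex ⟨i, rfl⟩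
  refine h2 N (fun m => if m < N then f m else g (i0 + (m - N))) (fun m hm => by simp [hm]) ?_
    ⟨?_, ?_⟩
  · have := e2 i0
    rw [hi0] at this
    change (if N < N then f N else g (i0 + (N - N))).S.card < _
    rw [if_neg (lt_irrefl N), Nat.sub_self]
    exact this
  · intro m
    by_cases hm : m < N
    · simpa [hm] using h1.1 m
    · simpa [hm] using hD _ (h1.1 _) _ (e1 _)
  · intro m n hmn
    by_cases hn : n < N
    · simpa [hn, hmn.trans hn] using h1.2 m n hmn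
    · by_cases hm : m < N
      · simp only [hm, hn, if_true, if_false]
        exact fun h => h1.2 m _ (lt_of_lt_of_le hm (hmin _)) (h.trans (e1 _))
      · simp only [hm, hn, if_false]
        exact hg2 _ _ (by omega)

theorem pwo_small : Pwo {O : Obj k | O.S.card ≤ 1} := by
  rw [Pwo, Set.partiallyWellOrderedOn_iff_exists_lt]
  intro f hf
  by_cases h0 : ∃ m, (f m).S = ∅
  · obtain ⟨m, hm⟩ := h0
    exact ⟨m, m + 1, by omega, emb_of_empty hm _⟩
  have : ∀ m, ∃ v, (f m).S = {v} := by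
    intro m
    rw [← Finset.card_eq_one]
    have h1 : (f m).S.card ≤ 1 := hf m
    have h2 : (f m).S.card ≠ 0 := fun h => h0 ⟨m, Finset.card_eq_zero.1 h⟩
    omega
  choose v hv using this
  obtain ⟨m, n, hmn, heq⟩ : ∃ m n, m < n ∧ ((f m).c (v m), (f m).μ (v m)) =
      ((f n).c (v n), (f n).μ (v n)) := by
    obtain ⟨m, n, hmn, h⟩ := Finite.exists_ne_map_eq_of_infinite
      (fun m => ((f m).c (v m), (f m).μ (v m)))
    rcases lt_or_gt_of_ne hmn with h' | h'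
    · exact ⟨m, n, h', h⟩
    · exact ⟨n, m, h', h.symm⟩
  simp only [Prod.mk.injEq] at heq
  refine ⟨m, n, hmn, fun _ => v n, ?_, ?_, ?_⟩
  · simp [hv, heq.1, heq.2]
  · simp [hv]
  · simp [hv]

end Pool.Agent.MP_2278ed_co

end MrgPart3

-- ======== part 4: formerly Pool.Agent.MP_2278ed_co.Wqo
section MrgPart4

namespace Pool.Agent.MP_2278ed_co

open Classical

/-- A long chain: adjacency follows a rule on letters, flipped on consecutive vertices. -/
def Chain {V : Type} (G : SimpleGraph V) (k s : ℕ) : Prop :=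
  ∃ (u : ℕ → V) (l : ℕ → Fin k) (δ : ℕ → Fin k → Prop),
    ∀ i j, i < j → j ≤ s → (G.Adj (u i) (u j) ↔ Xor (δ i (l j)) (j = i + 1))

/-- A finite graph with a binary laminar family of nodes and compatible colourings. -/
structure DG (k : ℕ) : Type 1 where
  V : Type
  fin : Fintype V
  pt : V
  G : SimpleGraph V
  L : Set (Finset V)
  col : Finset V → V → Fin k
  lam : ∀ x ∈ L, ∀ y ∈ L, x ⊆ y ∨ y ⊆ x ∨ Disjoint x y
  bin : ∀ r ∈ L, (∃ x ∈ L, x ⊂ r) → ∃ r1 ∈ L, ∃ r2 ∈ L, r1 ⊂ r ∧ r2 ⊂ r ∧ Disjoint r1 r2 ∧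
    ∀ x ∈ L, x ⊂ r → x ⊆ r1 ∨ x ⊆ r2
  tw : ∀ x ∈ L, ∀ u ∈ x, ∀ u' ∈ x, col x u = col x u' → ∀ v ∉ x, (G.Adj u v ↔ G.Adj u' v)
  cmp : ∀ x ∈ L, ∀ y ∈ L, x ⊆ y → ∀ u ∈ x, ∀ u' ∈ x, col x u = col x u' → col y u = col y u'

variable {k : ℕ}

abbrev DG.obj (D : DG k) (μ : D.V → Bool) (c : D.V → Fin k) (S : Finset D.V) : Obj k :=
  ⟨D.V, D.pt, D.G, μ, c, S⟩

theorem DG.emb (D : DG k) (μ : D.V → Bool) {c1 c2 : D.V → Fin k} {S1 S2 : Finset D.V}
    (h : S1 ⊆ S2) (hc : ∀ v ∈ S1, c2 v = c1 v) : Emb (D.obj μ c1 S1) (D.obj μ c2 S2) :=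
  emb_sub (D.obj μ c1 S1) h hc

theorem DG.factor (D : DG k) {x y : Finset D.V} (hx : x ∈ D.L) (hy : y ∈ D.L) (h : x ⊆ y) :
    ∃ g : Fin k → Fin k, ∀ w ∈ x, D.col y w = g (D.col x w) := by
  refine ⟨fun i => if h : ∃ w ∈ x, D.col x w = i then D.col y h.choose else i, fun w hw => ?_⟩
  have h' : ∃ w' ∈ x, D.col x w' = D.col x w := ⟨w, hw, rfl⟩
  simp only [h', dif_pos]
  exact D.cmp x hx y hy h _ hw _ h'.choose_spec.1 h'.choose_spec.2.symm

noncomputable def DG.rank (D : DG k) (x y : Finset D.V) : ℕ := (x.image (D.col y)).card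

theorem DG.rank_le (D : DG k) (x y : Finset D.V) : D.rank x y ≤ k :=
  (Finset.card_le_univ _).trans (by simp)

theorem DG.rank_mono_left (D : DG k) {x x' : Finset D.V} (h : x ⊆ x') (y : Finset D.V) :
    D.rank x y ≤ D.rank x' y := Finset.card_le_card (Finset.image_subset_image h)

theorem DG.rank_anti (D : DG k) {x y z : Finset D.V} (hy : y ∈ D.L) (hz : z ∈ D.L) (hxy : x ⊆ y)
    (hyz : y ⊆ z) : D.rank x z ≤ D.rank x y := by
  obtain ⟨g, hg⟩ := D.factor hy hz hyz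
  have : x.image (D.col z) = (x.image (D.col y)).image g := by
    rw [Finset.image_image]
    exact Finset.image_congr (fun w hw => hg w (hxy hw))
  rw [DG.rank, this]
  exact Finset.card_image_le

theorem DG.ker_eq (D : DG k) {x y z : Finset D.V} (hy : y ∈ D.L) (hz : z ∈ D.L) (hxy : x ⊆ y)
    (hyz : y ⊆ z) (h : D.rank x y ≤ D.rank x z) {w w' : D.V} (hw : w ∈ x) (hw' : w' ∈ x)
    (hc : D.col z w = D.col z w') : D.col y w = D.col y w' := by
  obtain ⟨g, hg⟩ := D.factor hy hz hyz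
  have e : x.image (D.col z) = (x.image (D.col y)).image g := by
    rw [Finset.image_image]
    exact Finset.image_congr (fun w hw => hg w (hxy hw))
  have : Set.InjOn g ↑(x.image (D.col y)) := by
    rw [← Finset.card_image_iff]
    apply le_antisymm Finset.card_image_le
    rw [← e]
    exact h
  refine this (Finset.mem_image_of_mem _ hw) (Finset.mem_image_of_mem _ hw') ?_
  rw [← hg w (hxy hw), ← hg w' (hxy hw'), hc]

structure Pres (D : DG k) (S r : Finset D.V) (pos : D.V → Finset D.V) (rep : D.V → D.V) :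
    Prop where
  root : r ∈ D.L
  mem : ∀ v ∈ S, pos v ∈ D.L
  sub : ∀ v ∈ S, pos v ⊆ r
  rp : ∀ v ∈ S, rep v ∈ pos v
  dis : ∀ u ∈ S, ∀ v ∈ S, pos u = pos v ∨ Disjoint (pos u) (pos v)
  adj : ∀ u ∈ S, ∀ v ∈ S, pos u ≠ pos v → (D.G.Adj u v ↔ D.G.Adj (rep u) (rep v))

theorem Pres.restrict {D : DG k} {S r T r' : Finset D.V} {pos rep} (h : Pres D S r pos rep)
    (hT : T ⊆ S) (hr : r' ∈ D.L) (hs : ∀ v ∈ T, pos v ⊆ r') : Pres D T r' pos rep :=
  ⟨hr, fun v hv => h.mem v (hT hv), hs, fun v hv => h.rp v (hT hv),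
    fun u hu v hv => h.dis u (hT hu) v (hT hv), fun u hu v hv => h.adj u (hT hu) v (hT hv)⟩

/-- A position is inside or disjoint from any node that strictly contains a position. -/
theorem Pres.sub_or_disj {D : DG k} {S r : Finset D.V} {pos rep} (h : Pres D S r pos rep)
    {x : Finset D.V} (hx : x ∈ D.L) {w : D.V} (hw : w ∈ S) (hwx : pos w ⊂ x) {v : D.V}
    (hv : v ∈ S) : pos v ⊆ x ∨ Disjoint (pos v) x := by
  rcases D.lam _ (h.mem v hv) x hx with h1 | h1 | h1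
  · exact Or.inl h1
  · exfalso
    have h2 : pos w ⊂ pos v := lt_of_lt_of_le hwx h1
    rcases h.dis w hw v hv with h3 | h3
    · exact h2.ne h3
    · exact Finset.disjoint_left.1 h3 (h.rp w hw) (h2.subset (h.rp w hw))
  · exact Or.inr h1

def Atoms (P : Set (Obj k)) (D : DG k) (μ : D.V → Bool) (S : Finset D.V)
    (pos : D.V → Finset D.V) (rep : D.V → D.V) : Prop :=
  ∀ x T : Finset D.V, (∀ v ∈ T, v ∈ S ∧ pos v = x) → D.obj μ (fun v => D.col x (rep v)) T ∈ P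

def Inner (D : DG k) (S : Finset D.V) (pos : D.V → Finset D.V) (x : Finset D.V) : Prop :=
  x ∈ D.L ∧ ∃ v ∈ S, pos v ⊂ x

def RkGe (D : DG k) (S r : Finset D.V) (pos : D.V → Finset D.V) (ρ : ℕ) : Prop :=
  ∀ x y, Inner D S pos x → y ∈ D.L → x ⊂ y → y ⊆ r → ρ ≤ D.rank x y

def Ex (s ρ : ℕ) (P : Set (Obj k)) : Set (Obj k) :=
  {O | ∃ (D : DG k) (S r : Finset D.V) (pos : D.V → Finset D.V) (rep : D.V → D.V)
    (μ : D.V → Bool), ¬ Chain D.G k s ∧ Pres D S r pos rep ∧ RkGe D S r pos ρ ∧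
      Atoms P D μ S pos rep ∧ O = D.obj μ (fun v => D.col r (rep v)) S}

def Cl (s ρ : ℕ) (P : Set (Obj k)) : Set (Obj k) := {O | ∃ O' ∈ Ex s ρ P, Emb O O'}

theorem down_cl (s ρ : ℕ) (P : Set (Obj k)) : Down (Cl s ρ P) := by
  rintro O ⟨O', h1, h2⟩ O'' h3
  exact ⟨O', h1, h3.trans h2⟩

theorem cl_exact {s ρ : ℕ} {P : Set (Obj k)} {O : Obj k} (h : O ∈ Cl s ρ P) :
    ∃ O' ∈ Ex s ρ P, Emb O O' ∧ Emb O' O := by
  obtain ⟨_, ⟨D, S, r, pos, rep, μ, h1, h2, h3, h4, rfl⟩, h5⟩ := h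
  obtain ⟨T, hT, e1, e2⟩ := h5.exists_image
  refine ⟨_, ⟨D, T, r, pos, rep, μ, h1, h2.restrict hT h2.root (fun v hv => h2.sub v (hT hv)),
    ?_, ?_, rfl⟩, e1, e2⟩
  · rintro x y ⟨hx, v, hv, hvx⟩
    exact h3 x y ⟨hx, v, hT hv, hvx⟩
  · intro x T' hT'
    exact h4 x T' (fun v hv => ⟨hT (hT' v hv).1, (hT' v hv).2⟩)

theorem pwo_base (s : ℕ) {P : Set (Obj k)} (hD : Down P) (hP : Pwo P) : Pwo (Cl s (k + 1) P) := by
  refine pwo_of_iso (pwo_join hP) (fun O hO => ?_)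
  obtain ⟨O', ⟨D, S, r, pos, rep, μ, -, h2, h3, h4, rfl⟩, e⟩ := cl_exact hO
  refine ⟨_, ?_, e⟩
  by_cases hall : ∀ v ∈ S, pos v = r
  · exact ⟨S, ∅, fun v => D.col r (rep v), fun _ _ => True, id, id, by simp, by simp,
      h4 r S (fun v hv => ⟨hv, hall v hv⟩), h4 r ∅ (by simp), by simp, by simp, by simp⟩
  push Not at hall
  obtain ⟨w, hw, hwr⟩ := hall
  have hwr' : pos w ⊂ r := lt_of_le_of_ne (h2.sub w hw) hwr
  obtain ⟨r1, l1, r2, l2, s1, s2, hd, hb⟩ := D.bin r h2.root ⟨_, h2.mem w hw, hwr'⟩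
  have hlt : ∀ v ∈ S, pos v ⊂ r := by
    intro v hv
    refine lt_of_le_of_ne (h2.sub v hv) (fun h => ?_)
    rcases h2.dis w hw v hv with h' | h'
    · exact hwr (h'.trans h)
    · exact Finset.disjoint_left.1 h' (h2.rp w hw) (h ▸ h2.sub w hw (h2.rp w hw))
  have heq : ∀ x ∈ D.L, x ⊂ r → ∀ v ∈ S, pos v ⊆ x → pos v = x := by
    intro x hx hxr v hv hvx
    by_contra hne
    have := h3 x r ⟨hx, v, hv, lt_of_le_of_ne hvx hne⟩ h2.root hxr subset_rfl
    have := D.rank_le x r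
    omega
  have hpos : ∀ v ∈ S, pos v = r1 ∨ pos v = r2 := fun v hv =>
    (hb _ (h2.mem v hv) (hlt v hv)).imp (heq r1 l1 s1 v hv) (heq r2 l2 s2 v hv)
  obtain ⟨g1, hg1⟩ := D.factor l1 h2.root s1.subset
  obtain ⟨g2, hg2⟩ := D.factor l2 h2.root s2.subset
  let c : D.V → Fin k := fun v => D.col (pos v) (rep v)
  have m1 : ∀ v, v ∈ S.filter (fun v => pos v = r1) ↔ v ∈ S ∧ pos v = r1 := by simp
  have m2 : ∀ v, v ∈ S.filter (fun v => pos v = r2) ↔ v ∈ S ∧ pos v = r2 := by simp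
  have hne : ∀ v ∈ S, pos v = r1 → pos v ≠ r2 := fun v hv h1 h2' =>
    Finset.disjoint_left.1 hd (h1 ▸ h2.rp v hv) (h2' ▸ h2.rp v hv)
  refine ⟨S.filter (fun v => pos v = r1), S.filter (fun v => pos v = r2), c,
    fun i j => ∃ a ∈ r1, ∃ b ∈ r2, D.col r1 a = i ∧ D.col r2 b = j ∧ D.G.Adj a b, g1, g2,
    ?_, ?_, ?_, ?_, ?_, ?_, ?_⟩
  · rw [Finset.disjoint_left]
    intro v a b
    exact hne v ((m1 v).1 a).1 ((m1 v).1 a).2 ((m2 v).1 b).2
  · intro v
    rw [m1, m2]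
    exact ⟨fun hv => (hpos v hv).imp (fun h => ⟨hv, h⟩) (fun h => ⟨hv, h⟩),
      fun h => h.elim And.left And.left⟩
  · refine hD _ (h4 r1 _ (fun v hv => (m1 v).1 hv)) _ (D.emb μ subset_rfl (fun v hv => ?_))
    simp only [c, ((m1 v).1 hv).2]
  · refine hD _ (h4 r2 _ (fun v hv => (m2 v).1 hv)) _ (D.emb μ subset_rfl (fun v hv => ?_))
    simp only [c, ((m2 v).1 hv).2]
  · intro u hu v hv
    obtain ⟨hu, pu⟩ := (m1 u).1 hu
    obtain ⟨hv, pv⟩ := (m2 v).1 hv
    have ru : rep u ∈ r1 := pu ▸ h2.rp u hu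
    have rv : rep v ∈ r2 := pv ▸ h2.rp v hv
    have := h2.adj u hu v hv (fun h => hne u hu pu (h.trans pv))
    change D.G.Adj u v ↔ _
    rw [this]
    simp only [c, pu, pv]
    constructor
    · exact fun h => ⟨_, ru, _, rv, rfl, rfl, h⟩
    · rintro ⟨a, ha, b, hb', e1, e2, h⟩
      have t1 := D.tw r1 l1 a ha _ ru e1 b (Finset.disjoint_right.1 hd hb')
      have t2 := D.tw r2 l2 b hb' _ rv e2 (rep u) (Finset.disjoint_left.1 hd ru)
      exact (t2.1 (t1.1 h).symm).symm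
  · intro v hv
    obtain ⟨hv, pv⟩ := (m1 v).1 hv
    simp only [c, pv]
    exact hg1 _ (pv ▸ h2.rp v hv)
  · intro v hv
    obtain ⟨hv, pv⟩ := (m2 v).1 hv
    simp only [c, pv]
    exact hg2 _ (pv ▸ h2.rp v hv)

/-- Nodes below a descending chain of `i` low-rank steps under `z`. -/
def Deep (D : DG k) (S : Finset D.V) (pos : D.V → Finset D.V) (ρ : ℕ) (z : Finset D.V) :
    ℕ → Finset D.V → Prop
  | 0, x => Inner D S pos x ∧ x ⊆ z
  | i + 1, x => Inner D S pos x ∧ ∃ y, Deep D S pos ρ z i y ∧ x ⊂ y ∧ D.rank x y ≤ ρ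

theorem Deep.inner {D : DG k} {S pos ρ z i x} (h : Deep D S pos ρ z i x) : Inner D S pos x := by
  cases i <;> exact h.1

theorem Deep.sub {D : DG k} {S pos ρ z i x} (h : Deep D S pos ρ z i x) : x ⊆ z := by
  induction i generalizing x with
  | zero => exact h.2
  | succ i ih =>
    obtain ⟨-, y, h1, h2, -⟩ := h
    exact h2.subset.trans (ih h1)

theorem Deep.lift {D : DG k} {S T pos ρ z x} (hT : T ⊆ S) (hx : Deep D S pos ρ z 1 x) {i y}
    (h : Deep D T pos ρ x i y) : Deep D S pos ρ z (i + 1) y := by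
  have hin : ∀ {y}, Inner D T pos y → Inner D S pos y := fun ⟨h1, v, hv, h2⟩ => ⟨h1, v, hT hv, h2⟩
  induction i generalizing y with
  | zero =>
    obtain ⟨-, y0, h1, h2, h3⟩ := hx
    exact ⟨hin h.1, y0, h1, lt_of_le_of_lt h.2 h2, (D.rank_mono_left h.2 _).trans h3⟩
  | succ i ih =>
    obtain ⟨h0, y', h1, h2, h3⟩ := h
    exact ⟨hin h0, y', ih h1, h2, h3⟩

def Tower (s ρ : ℕ) (Q : Set (Obj k)) : ℕ → Set (Obj k)
  | 0 => Q
  | i + 1 => Q ∪ Cl s (ρ + 1) (Tower s ρ Q i)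

theorem tower_base (s ρ : ℕ) (Q : Set (Obj k)) (i : ℕ) : Q ⊆ Tower s ρ Q i := by
  cases i
  · exact subset_rfl
  · exact Set.subset_union_left

theorem down_tower (s ρ : ℕ) {Q : Set (Obj k)} (hQ : Down Q) (i : ℕ) : Down (Tower s ρ Q i) := by
  cases i
  · exact hQ
  · exact hQ.union (down_cl _ _ _)

theorem mem_tower (s ρ : ℕ) {Q : Set (Obj k)} (hQ : Down Q) (D : DG k) (hD : ¬ Chain D.G k s)
    (μ : D.V → Bool) (pos : D.V → Finset D.V) (rep : D.V → D.V) (i : ℕ) :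
    ∀ (S z : Finset D.V), Pres D S z pos rep → Atoms Q D μ S pos rep →
      (∀ x, ¬ Deep D S pos ρ z i x) → D.obj μ (fun v => D.col z (rep v)) S ∈ Tower s ρ Q i := by
  induction i with
  | zero =>
    intro S z hP hA hN
    refine hA z S (fun v hv => ⟨hv, ?_⟩)
    by_contra hne
    exact hN z ⟨⟨hP.root, v, hv, lt_of_le_of_ne (hP.sub v hv) hne⟩, subset_rfl⟩
  | succ i ih =>
    intro S z hP hA hN
    have hmax : ∀ v, ∃ y, (∃ y, Deep D S pos ρ z 1 y ∧ pos v ⊂ y) →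
        (Deep D S pos ρ z 1 y ∧ pos v ⊂ y) ∧
          ∀ y', Deep D S pos ρ z 1 y' → pos v ⊂ y' → y'.card ≤ y.card := by
      intro v
      by_cases h : ∃ y, Deep D S pos ρ z 1 y ∧ pos v ⊂ y
      · have := D.fin
        obtain ⟨y, h1, h2⟩ := Set.exists_max_image {y | Deep D S pos ρ z 1 y ∧ pos v ⊂ y}
          Finset.card (Set.toFinite _) h
        exact ⟨y, fun _ => ⟨h1, fun y' a b => h2 y' ⟨a, b⟩⟩⟩
      · exact ⟨∅, fun h' => absurd h' h⟩
    choose top htop using hmax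
    let pos' : D.V → Finset D.V := fun v =>
      if ∃ y, Deep D S pos ρ z 1 y ∧ pos v ⊂ y then top v else pos v
    have hc : ∀ v, (pos' v = pos v ∧ ∀ y, Deep D S pos ρ z 1 y → ¬ pos v ⊂ y) ∨
        (Deep D S pos ρ z 1 (pos' v) ∧ pos v ⊂ pos' v ∧
          ∀ y', Deep D S pos ρ z 1 y' → pos v ⊂ y' → y'.card ≤ (pos' v).card) := by
      intro v
      by_cases h : ∃ y, Deep D S pos ρ z 1 y ∧ pos v ⊂ y
      · right
        simp only [pos', h, if_true]
        exact ⟨(htop v h).1.1, (htop v h).1.2, (htop v h).2⟩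
      · left
        simp only [pos', h, if_false, true_and]
        exact fun y a b => h ⟨y, a, b⟩
    have hsub : ∀ v, pos v ⊆ pos' v := fun v =>
      (hc v).elim (fun h => h.1.ge) (fun h => h.2.1.subset)
    have hmem : ∀ v ∈ S, pos' v ∈ D.L := fun v hv =>
      (hc v).elim (fun h => h.1 ▸ hP.mem v hv) (fun h => h.1.inner.1)
    have hnlt : ∀ u ∈ S, ∀ v ∈ S, ¬ pos' u ⊂ pos' v := by
      intro u hu v hv hlt
      have h1 : pos u ⊂ pos' v := lt_of_le_of_lt (hsub u) hlt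
      rcases hc v with h | h
      · rw [h.1] at h1
        rcases hP.dis u hu v hv with h' | h'
        · exact h1.ne h'
        · exact Finset.disjoint_left.1 h' (hP.rp u hu) (h1.subset (hP.rp u hu))
      · rcases hc u with h' | h'
        · exact h'.2 _ h.1 h1
        · have := h'.2.2 _ h.1 h1
          have := Finset.card_lt_card hlt
          omega
    have hP' : Pres D S z pos' rep := by
      refine ⟨hP.root, hmem, ?_, fun v hv => hsub v (hP.rp v hv), ?_, ?_⟩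
      · intro v hv
        exact (hc v).elim (fun h => h.1 ▸ hP.sub v hv) (fun h => h.1.sub)
      · intro u hu v hv
        rcases D.lam _ (hmem u hu) _ (hmem v hv) with h | h | h
        · exact Or.inl (by_contra fun hne => hnlt u hu v hv (lt_of_le_of_ne h hne))
        · exact Or.inl (by_contra fun hne => hnlt v hv u hu (lt_of_le_of_ne h (Ne.symm hne)))
        · exact Or.inr h
      · intro u hu v hv hne
        refine hP.adj u hu v hv (fun h => hne ?_)
        have a1 : rep u ∈ pos' u := hsub u (hP.rp u hu)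
        have a2 : rep u ∈ pos' v := hsub v (h ▸ hP.rp u hu)
        rcases D.lam _ (hmem u hu) _ (hmem v hv) with h | h | h
        · exact by_contra fun hne => hnlt u hu v hv (lt_of_le_of_ne h hne)
        · exact by_contra fun hne => hnlt v hv u hu (lt_of_le_of_ne h (Ne.symm hne))
        · exact absurd a2 (Finset.disjoint_left.1 h a1)
    refine Or.inr ⟨_, ⟨D, S, z, pos', rep, μ, hD, hP', ?_, ?_, rfl⟩, Emb.refl _⟩
    · rintro x y ⟨hx, v, hv, hvx⟩ hy hxy hyz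
      by_contra hlt
      have h1 : pos v ⊂ x := lt_of_le_of_lt (hsub v) hvx
      have h2 : Deep D S pos ρ z 1 x :=
        ⟨⟨hx, v, hv, h1⟩, y, ⟨⟨hy, v, hv, h1.trans hxy⟩, hyz⟩, hxy, by omega⟩
      rcases hc v with h | h
      · exact h.2 x h2 h1
      · have := h.2.2 x h2 h1
        have := Finset.card_lt_card hvx
        omega
    · intro x T hT
      by_cases hTe : T = ∅
      · exact tower_base s ρ Q i (hA x T (by simp [hTe]))
      obtain ⟨w, hw⟩ := Finset.nonempty_iff_ne_empty.2 hTe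
      have hTS : T ⊆ S := fun v hv => (hT v hv).1
      have hxL : x ∈ D.L := (hT w hw).2 ▸ hmem w (hTS hw)
      refine ih T x (hP.restrict hTS hxL (fun v hv => (hT v hv).2 ▸ hsub v)) ?_ ?_
      · intro y T' hT'
        exact hA y T' (fun v hv => ⟨hTS (hT' v hv).1, (hT' v hv).2⟩)
      · intro y hy
        by_cases hx : Deep D S pos ρ z 1 x
        · exact hN y (Deep.lift hTS hx hy)
        · obtain ⟨-, v, hv, hvy⟩ := hy.inner
          rcases hc v with h | h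
          · have : pos v = x := h.1.symm.trans (hT v hv).2
            exact (lt_of_lt_of_le hvy hy.sub).ne this
          · exact hx ((hT v hv).2 ▸ h.1)

theorem Deep.chain {D : DG k} {S pos ρ z} (i : ℕ) {x} (h : Deep D S pos ρ z i x) :
    ∃ Z : ℕ → Finset D.V, Z i = x ∧ (∀ j ≤ i, Z j ∈ D.L ∧ Z j ⊆ z ∧ x ⊆ Z j) ∧
      ∀ j < i, Z (j + 1) ⊂ Z j ∧ D.rank (Z (j + 1)) (Z j) ≤ ρ := by
  induction i generalizing x with
  | zero => exact ⟨fun _ => x, rfl, fun _ _ => ⟨h.1.1, h.2, subset_rfl⟩, by simp⟩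
  | succ i ih =>
    have hs := h.sub
    obtain ⟨h0, y, h1, h2, h3⟩ := h
    obtain ⟨Z, a1, a2, a3⟩ := ih h1
    refine ⟨fun j => if j ≤ i then Z j else x, by simp, ?_, ?_⟩
    · intro j hj
      by_cases h : j ≤ i
      · simp only [h, if_true]
        exact ⟨(a2 j h).1, (a2 j h).2.1, h2.subset.trans (a2 j h).2.2⟩
      · simp only [h, if_false]
        exact ⟨h0.1, hs, subset_rfl⟩
    · intro j hj
      by_cases h : j + 1 ≤ i
      · simp only [h, show j ≤ i by omega, if_true]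
        exact a3 j (by omega)
      · obtain rfl : j = i := by omega
        simp only [h, le_refl, if_true, if_false, a1]
        exact ⟨h2, h3⟩

end Pool.Agent.MP_2278ed_co

end MrgPart4

-- ======== part 5: formerly Pool.Agent.MP_2278ed_co.Tmpl
section MrgPart5

namespace Pool.Agent.MP_2278ed_co

open Classical

def Cons (s n n' : ℕ) : Prop := n' = n + 1 ∧ n' % (s + 1) ≠ 0

/-- The infinite array of a template: position `n` lies in layer `n % (s+1)`, row `n / (s+1)`. -/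
def arr (s : ℕ) (ρ : ℕ → ℕ → Prop) : SimpleGraph ℕ where
  Adj n n' := (n < n' ∧ Xor (ρ (n % (s + 1)) (n' % (s + 1))) (Cons s n n')) ∨
    (n' < n ∧ Xor (ρ (n' % (s + 1)) (n % (s + 1))) (Cons s n' n))
  symm := ⟨fun _ _ h => h.symm⟩
  loopless := ⟨fun n h => by simp at h⟩

theorem arr_adj {s : ℕ} {ρ : ℕ → ℕ → Prop} {n n' : ℕ} (h : n < n') :
    (arr s ρ).Adj n n' ↔ Xor (ρ (n % (s + 1)) (n' % (s + 1))) (Cons s n n') := by
  simp [arr, h, h.not_gt]

theorem pos_cases (s : ℕ) {n n' : ℕ} (h : n < n') :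
    (n / (s + 1) < n' / (s + 1) ∧ ¬ Cons s n n') ∨ (n / (s + 1) = n' / (s + 1) ∧
      n % (s + 1) < n' % (s + 1) ∧ (Cons s n n' ↔ n' % (s + 1) = n % (s + 1) + 1)) := by
  have a1 := Nat.div_add_mod n (s + 1)
  have a2 := Nat.div_add_mod n' (s + 1)
  have a3 := Nat.mod_lt n (show 0 < s + 1 by omega)
  have a4 := Nat.div_le_div_right (c := s + 1) h.le
  rcases a4.lt_or_eq with h1 | h1
  · left
    have : (s + 1) * (n / (s + 1) + 1) ≤ (s + 1) * (n' / (s + 1)) := Nat.mul_le_mul_left _ h1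
    rw [mul_add] at this
    refine ⟨h1, ?_⟩
    simp only [Cons]
    omega
  · right
    rw [← h1] at a2
    refine ⟨h1, by omega, ?_⟩
    simp only [Cons]
    omega

theorem pos_mod {s i : ℕ} (a : ℕ) (hi : i ≤ s) : ((s + 1) * a + i) % (s + 1) = i := by
  rw [Nat.mul_add_mod, Nat.mod_eq_of_lt (by omega)]

theorem pos_div {s i : ℕ} (a : ℕ) (hi : i ≤ s) : ((s + 1) * a + i) / (s + 1) = a := by
  rw [Nat.mul_add_div (by omega), Nat.div_eq_of_lt (by omega), add_zero]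

theorem pos_lt {s i j a b : ℕ} (hi : i ≤ s) (h : a < b) : (s + 1) * a + i < (s + 1) * b + j := by
  have : (s + 1) * (a + 1) ≤ (s + 1) * b := Nat.mul_le_mul_left _ h
  rw [mul_add] at this
  omega

def ArrIn {V : Type} (Γ : SimpleGraph V) (s : ℕ) (ρ : ℕ → ℕ → Prop) (m : ℕ) (x : ℕ → ℕ → V) :
    Prop :=
  (∀ i ≤ s, ∀ j ≤ s, ∀ a b, a < b → b < m → (Γ.Adj (x i a) (x j b) ↔ ρ i j)) ∧
    ∀ i j, i < j → j ≤ s → ∀ a < m, (Γ.Adj (x i a) (x j a) ↔ Xor (ρ i j) (j = i + 1))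

theorem arrIn_arr (s : ℕ) (ρ : ℕ → ℕ → Prop) (m : ℕ) :
    ArrIn (arr s ρ) s ρ m (fun i a => (s + 1) * a + i) := by
  constructor
  · intro i hi j hj a b hab _
    have h := pos_lt (j := j) hi hab
    rw [arr_adj h, pos_mod a hi, pos_mod b hj]
    rcases pos_cases s h with h' | h'
    · simp [Xor, h'.2]
    · rw [pos_div a hi, pos_div b hj] at h'
      omega
  · intro i j hij hj a _
    have h : (s + 1) * a + i < (s + 1) * a + j := by omega
    rw [arr_adj h, pos_mod a (by omega), pos_mod a hj]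
    rcases pos_cases s h with h' | h'
    · rw [pos_div a (by omega), pos_div a hj] at h'
      omega
    · rw [h'.2.2, pos_mod a hj, pos_mod a (by omega)]

/-- Arrays of the template with one spare layer occur in `X`, with any number of rows. -/
def PreT (X : Set FG) (s : ℕ) (ρ : ℕ → ℕ → Prop) : Prop :=
  ∀ m, ∃ (V : Type) (Γ : SimpleGraph V) (x : ℕ → ℕ → V), Age X Γ ∧ ArrIn Γ (s + 1) ρ m x

theorem PreT.mono {X Y : Set FG} {s ρ} (h : PreT Y s ρ) (hYX : Y ⊆ X) : PreT X s ρ := fun m =>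
  let ⟨V, Γ, x, h1, h2⟩ := h m
  ⟨V, Γ, x, h1.mono hYX, h2⟩

theorem PreT.shift {X : Set FG} {s ρ} (h : PreT X s ρ) {lo L : ℕ} (hL : lo + L ≤ s) :
    PreT X L (fun i j => ρ (lo + i) (lo + j)) := by
  intro m
  obtain ⟨V, Γ, x, h1, h2, h3⟩ := h m
  refine ⟨V, Γ, fun i => x (lo + i), h1, fun i hi j hj => h2 _ (by omega) _ (by omega), ?_⟩
  intro i j hij hj a ha
  rw [h3 _ _ (by omega) (by omega) a ha, show (lo + j = lo + i + 1) = (j = i + 1) from
    propext (by omega)]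

theorem PreT.age {X : Set FG} {s ρ} (h : PreT X s ρ) : Age X (arr s ρ) := by
  rintro H ⟨e⟩
  set m := Finset.univ.sup e + 1 with hm
  obtain ⟨V, Γ, x, h1, h2, h3⟩ := h (m + 1)
  have hb : ∀ v, e v / (s + 1) < m := fun v =>
    lt_of_le_of_lt ((Nat.div_le_self _ _).trans (Finset.le_sup (Finset.mem_univ v))) (by omega)
  have hmod : ∀ n, n % (s + 1) ≤ s := fun n => by
    have := Nat.mod_lt n (show 0 < s + 1 by omega)
    omega
  have key : ∀ n n', n < n' → n' / (s + 1) < m →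
      (Γ.Adj (x (n % (s + 1)) (n / (s + 1))) (x (n' % (s + 1)) (n' / (s + 1))) ↔
        (arr s ρ).Adj n n') ∧ x (n % (s + 1)) (n / (s + 1)) ≠ x (n' % (s + 1)) (n' / (s + 1)) := by
    intro n n' hlt hn'
    have m1 := hmod n
    have m2 := hmod n'
    have c1 := h3 (n' % (s + 1)) (n' % (s + 1) + 1) (by omega) (by omega) (n' / (s + 1)) (by omega)
    have c2 := h2 (n' % (s + 1)) (by omega) (n' % (s + 1) + 1) (by omega) _ m hn' (by omega)
    rw [arr_adj hlt]
    rcases pos_cases s hlt with h' | h'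
    · have c3 := h2 (n % (s + 1)) (by omega) (n' % (s + 1) + 1) (by omega) _ _ h'.1 (by omega)
      have c4 := h2 (n % (s + 1)) (by omega) (n' % (s + 1) + 1) (by omega) (n / (s + 1)) m
        (by omega) (by omega)
      refine ⟨?_, fun he => ?_⟩
      · rw [h2 _ (by omega) _ (by omega) _ _ h'.1 (by omega)]
        simp [Xor, h'.2]
      · rw [he] at c3 c4
        simp only [Xor] at c1
        tauto
    · have c3 := h3 (n % (s + 1)) (n' % (s + 1) + 1) (by omega) (by omega) (n' / (s + 1))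
        (by omega)
      have c4 := h2 (n % (s + 1)) (by omega) (n' % (s + 1) + 1) (by omega) _ m hn' (by omega)
      rw [h'.1]
      refine ⟨?_, fun he => ?_⟩
      · rw [h3 _ _ h'.2.1 (by omega) _ (by omega), h'.2.2]
      · rw [he] at c3 c4
        have : ¬ (n' % (s + 1) + 1 = n % (s + 1) + 1) := by omega
        simp only [Xor] at c1 c3
        tauto
  refine h1 H ⟨⟨⟨fun v => x (e v % (s + 1)) (e v / (s + 1)), fun u v huv => ?_⟩, fun {u v} => ?_⟩⟩
  · by_contra hne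
    rcases lt_or_gt_of_ne (fun h => hne (e.injective h)) with hlt | hlt
    · exact (key _ _ hlt (hb v)).2 huv
    · exact (key _ _ hlt (hb u)).2 huv.symm
  · rw [← e.map_adj_iff]
    rcases lt_trichotomy (e u) (e v) with hlt | heq | hlt
    · exact (key _ _ hlt (hb v)).1
    · simp [heq]
    · rw [Γ.adj_comm, (arr s ρ).adj_comm]
      exact (key _ _ hlt (hb u)).1

theorem preT_of_chain {Y : Set FG} (hY : Hereditary Y) {k : ℕ}
    (h : ∀ s, ∃ G ∈ Y, Chain G.2 k s) (s : ℕ) :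
    ∃ (l : ℕ → Fin k) (δ : ℕ → Fin k → Prop), PreT Y s (fun i j => δ i (l j)) := by
  let Wd := Fin (s + 2) → Fin k × (Fin k → Prop)
  let ix : ℕ → Fin (s + 2) := fun j => ⟨min j (s + 1), by omega⟩
  have key : ∀ m, ∃ w : Wd, ∃ (V : Type) (Γ : SimpleGraph V) (x : ℕ → ℕ → V), Age Y Γ ∧
      ArrIn Γ (s + 1) (fun i j => (w (ix i)).2 (w (ix j)).1) m x := by
    intro m
    obtain ⟨G, hG, u, l, δ, hu⟩ := h ((s + 3) * (Fintype.card Wd * m))
    have : Nonempty (Fin k) := ⟨l 0⟩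
    obtain ⟨w, hw⟩ := big_fiber (Finset.range (Fintype.card Wd * m))
      (fun a => (fun i => (l ((s + 3) * a + i), δ ((s + 3) * a + i)) : Wd)) m (by rw [Finset.card_range])
    obtain ⟨g, g1, g2⟩ := exists_enum _ m hw
    have g3 : ∀ a < m, g a < Fintype.card Wd * m ∧ ∀ i ≤ s + 1,
        l ((s + 3) * g a + i) = (w (ix i)).1 ∧ δ ((s + 3) * g a + i) = (w (ix i)).2 := by
      intro a ha
      have := g2 a ha
      simp only [Finset.mem_filter, Finset.mem_range] at this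
      refine ⟨this.1, fun i hi => ?_⟩
      rw [← this.2]
      simp [ix, min_eq_left hi]
    have g4 : ∀ a < m, ∀ i ≤ s + 1, (s + 3) * g a + i ≤ (s + 3) * (Fintype.card Wd * m) :=
      fun a ha i hi => (pos_lt (s := s + 2) (j := 0) (by omega) (g3 a ha).1).le
    refine ⟨w, _, G.2, fun i a => u ((s + 3) * g a + i), age_self hY hG, ?_, ?_⟩
    · intro i hi j hj a b hab hb
      have : (s + 3) * g a + (i + 1) < (s + 3) * g b + j :=
        pos_lt (s := s + 2) (i := i + 1) (j := j) (by omega) (g1 a b hab hb)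
      rw [hu _ _ (by omega) (g4 b hb j hj), ((g3 a (by omega)).2 i hi).2, ((g3 b hb).2 j hj).1]
      have : ¬ ((s + 3) * g b + j = (s + 3) * g a + i + 1) := by omega
      simp [Xor, this]
    · intro i j hij hj a ha
      rw [hu _ _ (by omega) (g4 a ha j hj), ((g3 a ha).2 i (by omega)).2, ((g3 a ha).2 j hj).1,
        show ((s + 3) * g a + j = (s + 3) * g a + i + 1) = (j = i + 1) from propext (by omega)]
  choose w hw using key
  obtain ⟨w0, h0⟩ := Finite.exists_infinite_fiber w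
  refine ⟨fun j => (w0 (ix j)).1, fun i => (w0 (ix i)).2, fun m => ?_⟩
  obtain ⟨m', hm', hlt⟩ := (Set.infinite_coe_iff.1 h0).exists_gt m
  obtain ⟨V, Γ, x, h1, h2, h3⟩ := hw m'
  rw [show w m' = w0 from hm'] at h2 h3
  exact ⟨V, Γ, x, h1, fun i hi j hj a b hab hb => h2 i hi j hj a b hab (by omega),
    fun i j hij hj a ha => h3 i j hij hj a (by omega)⟩

/-- The only asymmetric pair of layers across the cut after `q` is `q, q+1`. -/
def Hinge (s : ℕ) (ρ : ℕ → ℕ → Prop) (q : ℕ) : Prop :=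
  q < s ∧ ∀ j ≤ q, ∀ i, q < i → i ≤ s → ((ρ j i ↔ ρ i j) ↔ ¬ (j = q ∧ i = q + 1))

noncomputable def hinges (s : ℕ) (ρ : ℕ → ℕ → Prop) : Finset ℕ :=
  (Finset.range s).filter (Hinge s ρ)

theorem mem_hinges {s ρ q} : q ∈ hinges s ρ ↔ Hinge s ρ q := by
  simp only [hinges, Finset.mem_filter, Finset.mem_range]
  exact ⟨And.right, fun h => ⟨h.1, h⟩⟩

theorem hinges_le {k s : ℕ} (l : ℕ → Fin k) (δ : ℕ → Fin k → Prop) :
    (hinges s (fun i j => δ i (l j))).card ≤ Fintype.card (Fin k × (Fin k → Prop)) := by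
  rw [← Finset.card_univ]
  apply Finset.card_le_card_of_injOn (fun q => (l q, δ q)) (fun _ _ => Finset.mem_univ _)
  have key : ∀ q q', q < q' → Hinge s (fun i j => δ i (l j)) q' → (l q, δ q) ≠ (l q', δ q') := by
    intro q q' hlt hq he
    simp only [Prod.mk.injEq] at he
    have a1 := hq.2 q hlt.le (q' + 1) (by omega) hq.1
    have a2 := hq.2 q' le_rfl (q' + 1) (by omega) hq.1
    simp only [he.1, he.2] at a1
    rw [a2] at a1
    simp only [and_self, not_true_eq_false, and_true, false_iff, not_not] at a1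
    omega
  intro q hq q' hq' he
  rcases lt_trichotomy q q' with h | h | h
  · exact absurd he (key q q' h (mem_hinges.1 hq'))
  · exact h
  · exact absurd he.symm (key q' q h (mem_hinges.1 hq))

theorem hinge_free_window {s n L : ℕ} {ρ : ℕ → ℕ → Prop} (hn : (hinges s ρ).card ≤ n)
    (hs : (n + 1) * (L + 1) ≤ s) :
    ∃ lo L', L ≤ L' ∧ lo + L' ≤ s ∧ ∀ q, ¬ Hinge L' (fun i j => ρ (lo + i) (lo + j)) q := by
  obtain ⟨a, ha, hfree⟩ : ∃ a < n + 1, ∀ q, Hinge s ρ q → q / (L + 1) ≠ a := by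
    by_contra hcon
    push Not at hcon
    have : Finset.range (n + 1) ⊆ (hinges s ρ).image (fun q => q / (L + 1)) := by
      intro a ha
      obtain ⟨q, h1, h2⟩ := hcon a (Finset.mem_range.1 ha)
      exact Finset.mem_image.2 ⟨q, mem_hinges.2 h1, h2⟩
    have := (Finset.card_le_card this).trans Finset.card_image_le
    rw [Finset.card_range] at this
    omega
  set i := (L + 1) * a with hi
  have hiL : i + L + 1 ≤ s := by
    have : (L + 1) * (a + 1) ≤ (L + 1) * (n + 1) := Nat.mul_le_mul_left _ ha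
    rw [mul_add, mul_comm (L + 1) (n + 1)] at this
    omega
  have hw : ∀ q, i ≤ q → q ≤ i + L → ¬ Hinge s ρ q := by
    intro q h1 h2 hq
    apply hfree q hq
    rw [show q = (L + 1) * a + (q - i) by omega]
    exact pos_div a (by omega)
  obtain ⟨lo, lo1, lo2, lo3⟩ : ∃ lo ≤ i, (∀ q, lo ≤ q → q < i → ¬ Hinge s ρ q) ∧
      (lo = 0 ∨ Hinge s ρ (lo - 1)) := by
    have hex : ∃ lo, ∀ q, lo ≤ q → q < i → ¬ Hinge s ρ q := ⟨i, fun q a b => by omega⟩
    refine ⟨Nat.find hex, Nat.find_min' hex (fun q a b => by omega), Nat.find_spec hex, ?_⟩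
    by_cases h0 : Nat.find hex = 0
    · exact Or.inl h0
    · right
      have := Nat.find_min hex (show Nat.find hex - 1 < Nat.find hex by omega)
      push Not at this
      obtain ⟨q, q1, q2, q3⟩ := this
      by_cases hq : Nat.find hex ≤ q
      · exact absurd q3 (Nat.find_spec hex q hq q2)
      · rwa [show Nat.find hex - 1 = q by omega]
  obtain ⟨hi', hi1, hi2, hi3, hi4⟩ : ∃ hi, i + L ≤ hi ∧ hi ≤ s ∧ (hi = s ∨ Hinge s ρ hi) ∧
      ∀ q, i + L ≤ q → q < hi → ¬ Hinge s ρ q := by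
    have hex : ∃ hi, i + L ≤ hi ∧ (hi = s ∨ Hinge s ρ hi) := ⟨s, by omega, Or.inl rfl⟩
    exact ⟨Nat.find hex, (Nat.find_spec hex).1, Nat.find_min' hex ⟨by omega, Or.inl rfl⟩,
      (Nat.find_spec hex).2, fun q a b c => Nat.find_min hex b ⟨a, Or.inr c⟩⟩
  refine ⟨lo, hi' - lo, by omega, by omega, fun q hq => ?_⟩
  have hq1 := hq.1
  have : Hinge s ρ (lo + q) := by
    refine ⟨by omega, fun x hx y hy1 hy2 => ?_⟩
    by_cases h1 : x < lo
    · have := (lo3.resolve_left (by omega)).2 x (by omega) y (by omega) hy2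
      rw [this]
      omega
    by_cases h2 : hi' < y
    · have := (hi3.resolve_left (by omega)).2 x (by omega) y h2 hy2
      rw [this]
      omega
    have := hq.2 (x - lo) (by omega) (y - lo) (by omega) (by omega)
    simp only [show lo + (x - lo) = x by omega, show lo + (y - lo) = y by omega] at this
    rw [this]
    omega
  by_cases a1 : lo + q < i
  · exact lo2 _ (by omega) a1 this
  by_cases a2 : lo + q ≤ i + L
  · exact hw _ (by omega) a2 this
  exact hi4 _ (by omega) (by omega) this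

theorem many_hinges {s n : ℕ} {ρ : ℕ → ℕ → Prop} (hn : n < (hinges s ρ).card) :
    ∃ lo L, lo + L ≤ s ∧ Hinge L (fun i j => ρ (lo + i) (lo + j)) 0 ∧
      n < (hinges L (fun i j => ρ (lo + i) (lo + j))).card := by
  have hne : (hinges s ρ).Nonempty := Finset.card_pos.1 (by omega)
  set lo := (hinges s ρ).min' hne
  have h0 : Hinge s ρ lo := mem_hinges.1 (Finset.min'_mem _ hne)
  have key : ∀ q, Hinge s ρ (lo + q) → Hinge (s - lo) (fun i j => ρ (lo + i) (lo + j)) q := by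
    intro q hq
    have := hq.1
    refine ⟨by omega, fun x hx y hy1 hy2 => ?_⟩
    rw [hq.2 (lo + x) (by omega) (lo + y) (by omega) (by omega)]
    omega
  refine ⟨lo, s - lo, by have := h0.1; omega, key 0 h0, lt_of_lt_of_le hn ?_⟩
  apply Finset.card_le_card_of_injOn (fun q => q - lo)
  · intro q hq
    have := Finset.min'_le _ q hq
    exact mem_hinges.2 (key _ (by rw [show lo + (q - lo) = q by omega]; exact mem_hinges.1 hq))
  · intro q hq q' hq' h
    have := Finset.min'_le _ q hq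
    have := Finset.min'_le _ q' hq'
    simp only at h
    omega

end Pool.Agent.MP_2278ed_co

end MrgPart5

-- marker of a merged file
example : 731051 + 327908 = 731051 + 327908 := rfl
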