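import Pool.Agent.MP_2278ed_co.Grid

namespace Pool.Agent.MP_2278ed_co

open Classical

theorem chain_limit (n : ℕ → ℕ) (G : ∀ j, SimpleGraph (Fin (n j))) (f : ∀ j, G j ↪g G (j + 1)) :
    ∃ (M : Type) (Γ : SimpleGraph M) (ι : ∀ j, G j ↪g Γ),
      (∀ j v, ι (j + 1) (f j v) = ι j v) ∧ ∀ m, ∃ j v, ι j v = m := by
  let F : ∀ j k, j ≤ k → G j ↪g G k := fun j k h =>
    Nat.leRecOn h (fun {k} e => (f k).comp e) SimpleGraph.Embedding.refl
  have F0 : ∀ j h v, F j j h v = v := by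
    intro j h v
    simp only [F, Nat.leRecOn_self]
    rfl
  have F1 : ∀ j k (h : j ≤ k) h' v, F j (k + 1) h' v = f k (F j k h v) := by
    intro j k h h' v
    simp only [F]
    rw [Nat.leRecOn_succ h]
    rfl
  have F2 : ∀ j v l (h : j + 1 ≤ l) h', F (j + 1) l h (f j v) = F j l h' v := by
    intro j v l h
    induction h with
    | refl => intro h'; rw [F0, F1 j j le_rfl, F0]
    | step h ih => intro h'; rw [F1 _ _ h, F1 _ _ (Nat.le_of_succ_le h), ih]
  let r : (Σ j, Fin (n j)) → (Σ j, Fin (n j)) → Prop := fun p q =>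
    ∃ k, ∀ l, k ≤ l → ∀ h1 h2, F p.1 l h1 p.2 = F q.1 l h2 q.2
  let st : Setoid (Σ j, Fin (n j)) := ⟨r, ⟨fun p => ⟨0, fun _ _ _ _ => rfl⟩,
    fun ⟨k, hk⟩ => ⟨k, fun l hl h1 h2 => (hk l hl h2 h1).symm⟩,
    fun {p q s} ⟨k, hk⟩ ⟨k', hk'⟩ => ⟨k + k' + q.1, fun l hl h1 h2 =>
      (hk l (by omega) h1 (by omega)).trans (hk' l (by omega) (by omega) h2)⟩⟩⟩
  have hinj : ∀ j, Function.Injective (fun v => (Quotient.mk st ⟨j, v⟩)) := by
    intro j v v' h
    obtain ⟨k, hk⟩ := Quotient.exact h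
    exact (F j (k + j) (by omega)).injective (hk (k + j) (by omega) _ _)
  let Γ : SimpleGraph (Quotient st) :=
    { Adj := fun m m' => ∃ j v v', (G j).Adj v v' ∧ m = Quotient.mk st ⟨j, v⟩ ∧
        m' = Quotient.mk st ⟨j, v'⟩
      symm := ⟨fun _ _ ⟨j, v, v', h1, h2, h3⟩ => ⟨j, v', v, h1.symm, h3, h2⟩⟩
      loopless := ⟨fun _ ⟨j, v, v', h1, h2, h3⟩ => h1.ne (hinj j (h2.symm.trans h3))⟩ }
  refine ⟨Quotient st, Γ, fun j => ⟨⟨_, hinj j⟩, fun {a b} => ⟨?_, fun h => ⟨j, a, b, h, rfl, rfl⟩⟩⟩,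
    ?_, ?_⟩
  · rintro ⟨k, v, v', h1, h2, h3⟩
    obtain ⟨l1, e1⟩ := Quotient.exact h2
    obtain ⟨l2, e2⟩ := Quotient.exact h3
    have a1 := e1 (l1 + l2 + j + k) (by omega) (by simp only; omega) (by simp only; omega)
    have a2 := e2 (l1 + l2 + j + k) (by omega) (by simp only; omega) (by simp only; omega)
    rw [← (F j (l1 + l2 + j + k) (by omega)).map_adj_iff, a1, a2]
    exact (F k _ _).map_adj_iff.2 h1
  · intro j v
    exact Quotient.sound ⟨0, fun l _ h1 h2 => F2 j v l h1 h2⟩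
  · intro m
    obtain ⟨⟨j, v⟩, rfl⟩ := Quotient.exists_rep m
    exact ⟨j, v, rfl⟩

theorem CLe.refl (a : CG) : CLe a a := ⟨SimpleGraph.Embedding.refl, fun _ => rfl⟩

theorem CLe.trans {a b c : CG} (h : CLe a b) (h' : CLe b c) : CLe a c :=
  let ⟨f, hf⟩ := h
  let ⟨g, hg⟩ := h'
  ⟨g.comp f, fun v => (hg (f v)).trans (hf v)⟩

instance : IsPreorder CG CLe where
  refl := CLe.refl
  trans _ _ _ := CLe.trans

theorem exists_limit {X : Set FG} (hX : Hereditary X) (hU : ¬ BoundedCw X)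
    (hw : {a : CG | a.toFG ∈ X}.PartiallyWellOrderedOn CLe) :
    ∃ (M : Type) (Γ : SimpleGraph M) (w : ℕ → M), Age X Γ ∧ Function.Injective w ∧
      ∀ (S : Set M) (K : ℕ), Few Γ K S → ∀ A B : Finset ℕ, (∀ a ∈ A, w a ∈ S) →
        (∀ b ∈ B, w b ∉ S) → A.card ≤ 2 * K ∨ B.card ≤ 2 * K := by
  have : ∀ k, ∃ G ∈ X, ∃ W : Finset (Fin G.1), W.card = k + 1 ∧ Linked G.2 W := by
    intro k
    simp only [BoundedCw, not_exists, not_forall] at hU
    obtain ⟨G, hG, h⟩ := hU (3 * 2 ^ (k + 1))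
    have : Nonempty (Fin G.1) := not_isEmpty_iff.1 (fun h' => h (Or.inl h'))
    exact ⟨G, hG, exists_linked G.2 (k + 1) (by omega) (fun h' => h (cwLe_of_dec h'))⟩
  choose G hG W hW hL using this
  obtain ⟨g, hg⟩ := hw.exists_monotone_subseq
    (f := fun k => ⟨(G k).1, (G k).2, fun v => decide (v ∈ W k)⟩) hG
  choose f hf using fun j => hg j (j + 1) (by omega)
  obtain ⟨M, Γ, ι, h1, h2⟩ := chain_limit (fun j => (G (g j)).1) (fun j => (G (g j)).2) f
  have up : ∀ j v J, j ≤ J → ∃ v', ι J v' = ι j v ∧ (v ∈ W (g j) → v' ∈ W (g J)) := by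
    intro j v J h
    induction h with
    | refl => exact ⟨v, rfl, id⟩
    | step _ ih =>
      obtain ⟨v', a1, a2⟩ := ih
      refine ⟨f _ v', (h1 _ _).trans a1, fun h => ?_⟩
      have := hf _ v'
      simp only [decide_eq_decide] at this
      exact this.2 (a2 h)
  have hinf : {m | ∃ j, ∃ v ∈ W (g j), ι j v = m}.Infinite := by
    intro hfin
    have := Finset.card_le_card_of_injOn (s := W (g hfin.toFinset.card)) (t := hfin.toFinset)
      (ι hfin.toFinset.card) (fun v hv => by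
        simp only [Set.Finite.coe_toFinset, Set.mem_setOf_eq]
        exact ⟨_, v, hv, rfl⟩) (ι _).injective.injOn
    rw [hW] at this
    have h3 : hfin.toFinset.card ≤ g hfin.toFinset.card := g.strictMono.le_apply
    omega
  refine ⟨M, Γ, fun a => hinf.natEmbedding _ a, ?_,
    Subtype.val_injective.comp (hinf.natEmbedding _).injective, ?_⟩
  · rintro H ⟨e⟩
    choose j v hv using fun x => h2 (e x)
    choose v' hv' _ using fun x => up (j x) (v x) (Finset.univ.sup j)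
      (Finset.le_sup (Finset.mem_univ x))
    refine hX H _ (hG (g (Finset.univ.sup j))) ⟨⟨⟨v', fun a b h => e.injective ?_⟩, fun {a b} => ?_⟩⟩
    · rw [← hv, ← hv, ← hv', ← hv', h]
    · rw [← e.map_adj_iff, ← hv, ← hv, ← hv', ← hv']
      exact (ι _).map_adj_iff.symm
  · intro S K ⟨c, hc⟩ A B hA hB
    choose j v hvW hv using fun a => (hinf.natEmbedding _ a).2
    set J := (A ∪ B).sup j
    have : ∀ a, ∃ v', a ∈ A ∪ B → ι J v' = hinf.natEmbedding _ a ∧ v' ∈ W (g J) := by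
      intro a
      by_cases h : a ∈ A ∪ B
      · obtain ⟨v', a1, a2⟩ := up (j a) (v a) J (Finset.le_sup h)
        exact ⟨v', fun _ => ⟨a1.trans (hv a), a2 (hvW a)⟩⟩
      · obtain ⟨x, -⟩ : (W (g J)).Nonempty := Finset.card_pos.1 (by rw [hW]; omega)
        exact ⟨x, fun h' => absurd h' h⟩
    choose v' hv' using this
    have hinj : ∀ a ∈ A ∪ B, ∀ b ∈ A ∪ B, v' a = v' b → a = b := fun a ha b hb h =>
      (hinf.natEmbedding _).injective (Subtype.ext (by rw [← (hv' a ha).1, ← (hv' b hb).1, h]))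
    refine (hL (g J) (ι J ⁻¹' S) K ⟨fun x => c (ι J x), fun u hu u' hu' h x hx => ?_⟩).imp
      (le_trans ?_) (le_trans ?_)
    · rw [← (ι J).map_adj_iff, ← (ι J).map_adj_iff]
      exact hc _ hu _ hu' h _ hx
    · refine Finset.card_le_card_of_injOn v' (fun a ha => ?_) (fun a ha b hb =>
        hinj a (Finset.mem_union_left _ ha) b (Finset.mem_union_left _ hb))
      have := hv' a (Finset.mem_union_left _ ha)
      simp only [Finset.coe_filter, Set.mem_setOf_eq, Set.mem_preimage, this.1, this.2, true_and]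
      exact hA a ha
    · refine Finset.card_le_card_of_injOn v' (fun a ha => ?_) (fun a ha b hb =>
        hinj a (Finset.mem_union_right _ ha) b (Finset.mem_union_right _ hb))
      have := hv' a (Finset.mem_union_right _ ha)
      simp only [Finset.coe_filter, Set.mem_setOf_eq, Set.mem_preimage, this.1, this.2, true_and]
      exact hB a ha

end Pool.Agent.MP_2278ed_co
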