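import Mathlib.CategoryTheory.Countable
import Pool.Agent.MP_2278ed_co.Limit
import Pool.Agent.MP_2278ed_co.Tmpl
import Pool.Agent.MP_2278ed_co.Grid

-- ======== part 0: formerly Pool.Agent.MP_2278ed_co.Ultra
section MrgPart0

namespace Pool.Agent.MP_2278ed_co

open Classical Filter

variable {M : Type} (Γ : SimpleGraph M)

def uTy (u : ℕ → M) (m : M) : Prop := ∀ᶠ a in hyperfilter ℕ, Γ.Adj m (u a)

def uEta (u v : ℕ → M) : Prop := ∀ᶠ a in hyperfilter ℕ, Γ.Adj (u a) (v a)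

def uRho (v u : ℕ → M) : Prop := ∀ᶠ b in hyperfilter ℕ, uTy Γ u (v b)

def uAr (u v : ℕ → M) : Prop := ¬ (uRho Γ v u ↔ uEta Γ u v)

theorem ev_iff (p : ℕ → Prop) : ∀ᶠ a in hyperfilter ℕ, (p a ↔ ∀ᶠ b in hyperfilter ℕ, p b) := by
  by_cases h : ∀ᶠ b in hyperfilter ℕ, p b
  · exact h.mono (fun a ha => iff_of_true ha h)
  · exact (Ultrafilter.eventually_not.2 h).mono (fun a ha => iff_of_false ha h)

theorem u_realized {X : Set FG} (hΓ : Age X Γ) : Realized X (uRho Γ) (uEta Γ) := by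
  intro F m
  obtain ⟨r, r1, r2⟩ := exists_seq_of_forall_finset_exists
    (fun a : ℕ => ∀ u ∈ F, ∀ v ∈ F, (Γ.Adj (u a) (v a) ↔ uEta Γ u v) ∧ (uTy Γ v (u a) ↔ uRho Γ u v))
    (fun a b => ∀ u ∈ F, ∀ v ∈ F, (Γ.Adj (u a) (v b) ↔ uTy Γ v (u a))) (by
      intro s _
      have h1 : ∀ᶠ a in hyperfilter ℕ, ∀ u ∈ F, ∀ v ∈ F,
          (Γ.Adj (u a) (v a) ↔ uEta Γ u v) ∧ (uTy Γ v (u a) ↔ uRho Γ u v) := by
        simp only [eventually_all_finset]
        exact fun u _ v _ => (ev_iff _).and (ev_iff _)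
      have h2 : ∀ᶠ b in hyperfilter ℕ, ∀ a ∈ s, ∀ u ∈ F, ∀ v ∈ F,
          (Γ.Adj (u a) (v b) ↔ uTy Γ v (u a)) := by
        simp only [eventually_all_finset]
        exact fun a _ u _ v _ => ev_iff _
      exact (h1.and h2).exists)
  exact ⟨M, Γ, fun u a => u (r a), hΓ, fun u hu v hv a _ =>
    ⟨fun b _ hab => (r2 a b hab u hu v hv).trans (r1 a u hu v hv).2, (r1 a u hu v hv).1⟩⟩

theorem long_of_open {X : Set FG} (hΓ : Age X Γ) (w : ℕ → M)
    (h : ∀ n, ¬ Ball (uAr Γ) {w} (n + 1) ⊆ Ball (uAr Γ) {w} n) (s : ℕ) : ∃ ρ, PreT X s ρ := by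
  obtain ⟨v, hv, hv'⟩ := Set.not_subset.1 (h s)
  obtain ⟨u, -, -, u3, u4⟩ := exists_path _ _ (s + 1) v hv
    (fun m hm h' => hv' (ball_mono _ _ (by omega) h'))
  refine ⟨fun i j => uRho Γ (u (s + 1 - i)) (u (s + 1 - j)), fun m => ?_⟩
  obtain ⟨V, G, x, h1, h2⟩ := u_realized Γ hΓ ((Finset.range (s + 2)).image u) m
  have hm : ∀ i, u (s + 1 - i) ∈ (Finset.range (s + 2)).image u := fun i =>
    Finset.mem_image_of_mem _ (Finset.mem_range.2 (by omega))
  refine ⟨V, G, fun i => x (u (s + 1 - i)), h1, fun i _ j _ a b hab hb =>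
    (h2 _ (hm i) _ (hm j) a (by omega)).1 b hb hab, fun i j hij hj a ha => ?_⟩
  rw [G.adj_comm, (h2 _ (hm j) _ (hm i) a ha).2]
  by_cases hc : j = i + 1
  · have := u3 (s + 1 - j) (by omega)
    rw [show s + 1 - j + 1 = s + 1 - i by omega] at this
    simp only [uAr] at this
    simp only [Xor, eq_true hc]
    tauto
  · have := u4 (s + 1 - j) (s + 1 - i) (by omega) (by omega)
    simp only [uAr, not_not] at this
    simp only [Xor, eq_false hc]
    tauto

theorem few_of_closed (w : ℕ → M) (hw : Function.Injective w) (n : ℕ)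
    (h : Ball (uAr Γ) {w} (n + 1) ⊆ Ball (uAr Γ) {w} n) (K : ℕ) (κ : (ℕ → M) → Fin (K + 1))
    (hκ : ∀ u u', u ∈ Ball (uAr Γ) {w} n → u' ∈ Ball (uAr Γ) {w} n → κ u = κ u' →
      uTy Γ u = uTy Γ u') (L : ℕ) :
    ∃ (S : Set M) (A B : Finset ℕ), Few Γ (K + 1) S ∧ (∀ a ∈ A, w a ∈ S) ∧ (∀ b ∈ B, w b ∉ S) ∧
      A.card = L ∧ B.card = L := by
  set R := Ball (uAr Γ) {w} n with hR
  have hw0 : w ∈ R := ball_mono _ _ (Nat.zero_le n) rfl
  have ht : ∀ i : Fin (K + 1), ∃ t : M → Prop, ∀ u ∈ R, κ u = i → uTy Γ u = t := by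
    intro i
    by_cases hi : ∃ u ∈ R, κ u = i
    · obtain ⟨u, hu, hui⟩ := hi
      exact ⟨uTy Γ u, fun u' hu' e => hκ u' u hu' hu (e.trans hui.symm)⟩
    · exact ⟨fun _ => True, fun u hu e => absurd ⟨u, hu, e⟩ hi⟩
  choose t ht using ht
  have hd : ∀ i j : Fin (K + 1), ∃ d : M, (t i d ↔ t j d) → t i = t j := by
    intro i j
    by_cases e : t i = t j
    · exact ⟨w 0, fun _ => e⟩
    · obtain ⟨d, hd⟩ := Function.ne_iff.1 e
      exact ⟨d, fun h => absurd (propext h) hd⟩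
  choose d hd using hd
  have hc : ∀ m : M, ∃ c : Fin (K + 1), ∀ i, (∀ a b, t i (d a b) ↔ Γ.Adj (d a b) m) → t c = t i := by
    intro m
    by_cases e : ∃ i, ∀ a b, t i (d a b) ↔ Γ.Adj (d a b) m
    · obtain ⟨i, hi⟩ := e
      exact ⟨i, fun j hj => hd i j ((hi i j).trans (hj i j).symm)⟩
    · exact ⟨0, fun i hi => absurd ⟨i, hi⟩ e⟩
  choose c hc using hc
  have hcu : ∀ u ∈ R, ∀ᶠ a in hyperfilter ℕ, t (c (u a)) = uTy Γ u := by
    intro u hu
    have : ∀ᶠ a in hyperfilter ℕ, ∀ i j, (Γ.Adj (d i j) (u a) ↔ uTy Γ u (d i j)) := by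
      simp only [eventually_all]
      exact fun i j => ev_iff _
    refine this.mono (fun a ha => ?_)
    rw [ht _ u hu rfl] at ha ⊢
    exact hc _ _ (fun i j => (ha i j).symm)
  let ar : M → M → Prop := fun x y => ¬ (t (c x) y ↔ Γ.Adj x y)
  have har : ∀ u ∈ R, ∀ v, ∀ᶠ a in hyperfilter ℕ, (ar (u a) (v a) ↔ uAr Γ u v) := by
    intro u hu v
    filter_upwards [hcu u hu, ev_iff (fun a => Γ.Adj (u a) (v a)), ev_iff (fun a => uTy Γ u (v a))]
      with a a1 a2 a3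
    simp only [ar, uAr, a1, a2, a3, uRho, uEta]
  have l1 : ∀ j (v : ℕ → M), (∀ᶠ a in hyperfilter ℕ, v a ∈ Ball ar {w a} j) →
      ∃ v' ∈ Ball (uAr Γ) {w} j, ∀ᶠ a in hyperfilter ℕ, v a = v' a := by
    intro j
    induction j with
    | zero => exact fun v hv => ⟨w, rfl, hv⟩
    | succ j ih =>
      intro v hv
      rcases Ultrafilter.eventually_or.1 hv with hv | hv
      · obtain ⟨v', a1, a2⟩ := ih v hv
        exact ⟨v', Or.inl a1, a2⟩
      · have : ∀ a, ∃ u, (∃ u ∈ Ball ar {w a} j, ar u (v a)) → u ∈ Ball ar {w a} j ∧ ar u (v a) := by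
          intro a
          by_cases e : ∃ u ∈ Ball ar {w a} j, ar u (v a)
          · obtain ⟨u, hu⟩ := e
            exact ⟨u, fun _ => hu⟩
          · exact ⟨w 0, fun h => absurd h e⟩
        choose u hu using this
        obtain ⟨u', a1, a2⟩ := ih u (hv.mono (fun a ha => (hu a ha).1))
        refine ⟨v, ball_step a1 ?_, Eventually.of_forall (fun _ => rfl)⟩
        obtain ⟨a, b1, b2, b3⟩ := (hv.and (a2.and (har u' (ball_closed h j a1) v))).exists
        exact b3.1 (b2 ▸ (hu a b1).2)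
  have l2 : ∀ j v, v ∈ Ball (uAr Γ) {w} j → ∀ᶠ a in hyperfilter ℕ, v a ∈ Ball ar {w a} j := by
    intro j
    induction j with
    | zero =>
      rintro v rfl
      exact Eventually.of_forall (fun _ => rfl)
    | succ j ih =>
      rintro v (hv | ⟨u, hu, huv⟩)
      · exact (ih v hv).mono (fun a ha => Or.inl ha)
      · filter_upwards [ih u hu, har u (ball_closed h j hu) v] with a a1 a2
        exact ball_step a1 (a2.2 huv)
  have l3 : ∀ᶠ a in hyperfilter ℕ, Ball ar {w a} (n + 1) ⊆ Ball ar {w a} n := by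
    by_contra hcon
    have hcon := Ultrafilter.eventually_not.2 hcon
    have : ∀ a, ∃ v, ¬ Ball ar {w a} (n + 1) ⊆ Ball ar {w a} n →
        v ∈ Ball ar {w a} (n + 1) ∧ v ∉ Ball ar {w a} n := by
      intro a
      by_cases e : Ball ar {w a} (n + 1) ⊆ Ball ar {w a} n
      · exact ⟨w 0, fun h => absurd e h⟩
      · obtain ⟨v, hv⟩ := Set.not_subset.1 e
        exact ⟨v, fun _ => hv⟩
    choose v hv using this
    obtain ⟨v', a1, a2⟩ := l1 _ v (hcon.mono (fun a ha => (hv a ha).1))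
    obtain ⟨a, b1, b2, b3⟩ := (hcon.and (a2.and (l2 _ v' (h a1)))).exists
    exact (hv a b1).2 (b2 ▸ b3)
  have l4 : ∀ m, ∀ᶠ a in hyperfilter ℕ, m ∉ Ball ar {w a} n := by
    intro m
    by_contra hcon
    have hcon := (Ultrafilter.eventually_not.2 hcon).mono (fun a ha => not_not.1 ha)
    obtain ⟨v', a1, a2⟩ := l1 n (fun _ => m) hcon
    have : ∀ j, v' ∈ Ball (uAr Γ) {w} j → v' = w ∨ ∃ u, uAr Γ u v' := by
      intro j
      induction j with
      | zero => exact fun h => Or.inl h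
      | succ j ih =>
        rintro (h | ⟨u, -, h⟩)
        · exact ih h
        · exact Or.inr ⟨u, h⟩
    rcases this n a1 with rfl | ⟨u, hu⟩
    · have hfin : {a | m = v' a}.Finite :=
        (Set.subsingleton_singleton.preimage hw (s := {m})).finite.subset
          (fun a ha => Eq.symm ha)
      exact hfin.notMem_hyperfilter a2
    · apply hu
      have e1 : uRho Γ v' u ↔ uTy Γ u m := by
        refine (eventually_congr (a2.mono (fun a ha => by rw [← ha]))).trans ?_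
        exact eventually_const
      have e2 : uEta Γ u v' ↔ uTy Γ u m :=
        eventually_congr (a2.mono (fun a ha => by rw [← ha, Γ.adj_comm]))
      exact e1.trans e2.symm
  have l5 : ∀ᶠ a in hyperfilter ℕ, Ball ar {w a} (n + 1) ⊆ Ball ar {w a} n ∧
      ∀ b ∈ Finset.range L, w b ∉ Ball ar {w a} n :=
    l3.and ((eventually_all_finset _).2 (fun b _ => l4 (w b)))
  obtain ⟨A, hA, hAc⟩ := Set.Infinite.exists_subset_card_eq
    (fun hfin => Set.Finite.notMem_hyperfilter hfin l5) L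
  refine ⟨{x | ∃ a ∈ A, x ∈ Ball ar {w a} n}, A, Finset.range L, ⟨c, ?_⟩, ?_, ?_, hAc, by simp⟩
  · have key : ∀ x ∈ {x | ∃ a ∈ A, x ∈ Ball ar {w a} n}, ∀ y ∉ {x | ∃ a ∈ A, x ∈ Ball ar {w a} n},
        (t (c x) y ↔ Γ.Adj x y) := by
      rintro x ⟨a, ha, hx⟩ y hy
      by_contra hn
      exact hy ⟨a, ha, (hA ha).1 (ball_step hx hn)⟩
    intro u hu u' hu' e v hv
    rw [← key u hu v hv, ← key u' hu' v hv, e]
  · exact fun a ha => ⟨a, ha, ball_mono _ _ (Nat.zero_le n) rfl⟩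
  · rintro b hb ⟨a, ha, hx⟩
    exact (hA ha).2 b hb hx

/-- A minimal class without bad sequences would contain arbitrarily long templates. -/
theorem long_of_wqo {X : Set FG} (hX : MinimalUnbounded X)
    (hw : {a : CG | a.toFG ∈ X}.PartiallyWellOrderedOn CLe) (s : ℕ) : ∃ ρ, PreT X s ρ := by
  obtain ⟨M, Γ, w, h1, h2, h3⟩ := exists_limit hX.1 hX.2.1 hw
  refine long_of_open Γ h1 w (fun n hn => ?_) s
  obtain ⟨d, hd⟩ := growth hX n
  obtain ⟨κ, hκ⟩ := hd (ℕ → M) (M → Prop) (uRho Γ) (uEta Γ) (uTy Γ) (uAr Γ) w (u_realized Γ h1)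
    (fun u v huv => Or.inr (fun u' e => by
      simp only [uAr, uRho] at huv ⊢
      rwa [e])) (fun z z' h => by
      funext m
      have := h (fun _ => m, false)
      simpa [tst, uRho] using this)
  obtain ⟨S, A, B, a1, a2, a3, a4, a5⟩ := few_of_closed Γ w h2 n hn d κ hκ (2 * (d + 1) + 1)
  have := h3 S _ a1 A B a2 a3
  omega

end Pool.Agent.MP_2278ed_co

end MrgPart0

-- ======== part 1: formerly Pool.Agent.MP_2278ed_co.MainM
section MrgPart1

namespace Pool.Agent.MP_2278ed_co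

open Classical

def rowAdj (ρ : ℕ → ℕ → Prop) (i j : ℕ) : Prop :=
  (i < j ∧ Xor (ρ i j) (j = i + 1)) ∨ (j < i ∧ Xor (ρ j i) (i = j + 1))

theorem ArrIn.row {V : Type} {Γ : SimpleGraph V} {s ρ m x} (h : ArrIn Γ s ρ m x) {i j a : ℕ}
    (hi : i ≤ s) (hj : j ≤ s) (ha : a < m) : Γ.Adj (x i a) (x j a) ↔ rowAdj ρ i j := by
  rcases lt_trichotomy i j with hlt | rfl | hlt
  · simp [rowAdj, hlt, hlt.not_gt, h.2 i j hlt hj a ha]
  · simp [rowAdj]
  · rw [Γ.adj_comm]
    simp [rowAdj, hlt, hlt.not_gt, h.2 j i hlt hi a ha]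

def Lk (ρ : ℕ → ℕ → Prop) (j j' : ℕ) : Prop := j' = j + 1 ∨ j = j' + 1 ∨ ¬ (ρ j j' ↔ ρ j' j)

def Near (t : ℕ) (ρ : ℕ → ℕ → Prop) (i : ℕ) (j : Fin (t + 1)) : Prop :=
  j ∈ Ball (fun a b : Fin (t + 1) => Lk ρ a b) {0} i ∨
    j ∈ Ball (fun a b : Fin (t + 1) => Lk ρ a b) {Fin.last t} i

def SameL (t : ℕ) (ρ : ℕ → ℕ → Prop) (j j' : ℕ) : Prop :=
  ∀ x ≤ t, (ρ j x ↔ ρ j' x) ∧ (ρ x j ↔ ρ x j')

theorem letters_bound {X : Set FG} (hX : MinimalUnbounded X) (i : ℕ) :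
    ∃ d, ∀ t ρ, PreT X t ρ → ∃ κ : Fin (t + 1) → Fin (d + 1) × Bool,
      ∀ j j', Near t ρ i j → Near t ρ i j' → κ j = κ j' → SameL t ρ j j' := by
  obtain ⟨d, hd⟩ := growth hX i
  refine ⟨d, fun t ρ hρ => ?_⟩
  let ty : Fin (t + 1) → (Fin (t + 1) → Prop) × (Fin (t + 1) → Prop) :=
    fun j => (fun x => ρ j x, fun x => ρ x j)
  have hty : ∀ j j', ty j = ty j' → SameL t ρ j j' := fun j j' h x hx =>
    ⟨iff_of_eq (congrFun (congrArg Prod.fst h) ⟨x, by omega⟩),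
      iff_of_eq (congrFun (congrArg Prod.snd h) ⟨x, by omega⟩)⟩
  have key := fun w => hd (Fin (t + 1)) _ (fun a b => ρ a b) (fun a b => rowAdj ρ a b) ty
    (fun a b => Lk ρ a b) w (by
      intro F m
      have := arrIn_arr t ρ m
      exact ⟨ℕ, arr t ρ, fun i a => (t + 1) * a + i, hρ.age, fun ω _ ω' _ a ha =>
        ⟨fun b hb hab => this.1 _ (by omega) _ (by omega) a b hab hb,
          this.row (by omega) (by omega) ha⟩⟩) (by
      intro u v huv
      have a1 : ∀ u', ty u' = ty u → (ρ u' v ↔ ρ u v) := fun u' h => (hty _ _ h v (by omega)).1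
      have a2 : ∀ u', ty u' = ty u → (ρ v u' ↔ ρ v u) := fun u' h => (hty _ _ h v (by omega)).2
      suffices h : ¬ (ρ u v ↔ rowAdj ρ u v) ∨ ¬ (ρ v u ↔ rowAdj ρ u v) from
        h.imp (fun h u' e => by rw [a1 u' e]; exact h) (fun h u' e => by rw [a2 u' e]; exact h)
      rcases huv with h | h | h
      · left
        simp [rowAdj, h, Xor]
      · right
        simp [rowAdj, h, Xor]
      · tauto) (by
      intro z z' h
      refine Prod.ext (funext fun x => propext ?_) (funext fun x => propext ?_)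
      · simpa [tst] using h (x, true)
      · simpa [tst] using h (x, false))
  obtain ⟨κ0, h0⟩ := key 0
  obtain ⟨κ1, h1⟩ := key (Fin.last t)
  refine ⟨fun j => if j ∈ Ball (fun a b : Fin (t + 1) => Lk ρ a b) {0} i then (κ0 j, true)
    else (κ1 j, false), fun j j' hj hj' h => hty _ _ ?_⟩
  by_cases a : j ∈ Ball (fun a b : Fin (t + 1) => Lk ρ a b) {0} i <;>
    by_cases b : j' ∈ Ball (fun a b : Fin (t + 1) => Lk ρ a b) {0} i <;>
    simp only [a, b, if_true, if_false, Prod.mk.injEq] at h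
  · exact h0 j j' a b h.1
  · simp at h
  · simp at h
  · exact h1 j j' (hj.resolve_left a) (hj'.resolve_left b) h.1

def Cons2 (t n n' : ℕ) : Prop := Cons t n n' ∨ Cons t n' n

theorem arr_adj' {t : ℕ} {ρ : ℕ → ℕ → Prop} {n n' : ℕ} (h : n ≠ n') :
    (arr t ρ).Adj n n' ↔ Xor ((n < n' ∧ ρ (n % (t + 1)) (n' % (t + 1))) ∨
      (¬ n < n' ∧ ρ (n' % (t + 1)) (n % (t + 1)))) (Cons2 t n n') := by
  rcases lt_or_gt_of_ne h with hlt | hlt
  · have : ¬ Cons t n' n := fun h => by have := h.1; omega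
    simp [arr_adj hlt, hlt, Cons2, this]
  · have : ¬ Cons t n n' := fun h => by have := h.1; omega
    rw [(arr t ρ).adj_comm]
    simp [arr_adj hlt, hlt.not_gt, Cons2, this]

theorem Cons.mod {t n n' : ℕ} (h : Cons t n n') : n' % (t + 1) = n % (t + 1) + 1 := by
  rcases pos_cases t (show n < n' by have := h.1; omega) with h' | h'
  · exact absurd h h'.2
  · exact h'.2.2.1 h

theorem exists_cut {s t : ℕ} (hst : s < t) (q : ℕ → ℕ) {p p' : ℕ} (hp : p < p')
    (b1 : p % (t + 1) = 0 ∨ p % (t + 1) = t) (b2 : p' % (t + 1) = 0 ∨ p' % (t + 1) = t) :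
    ∃ γ, p ≤ γ ∧ γ < p' ∧ ∀ i ≤ s, ∀ j ≤ s, q i ≤ γ → γ < q j → ¬ Cons2 t (q i) (q j) := by
  by_contra hcon
  push Not at hcon
  have key : ∀ γ, p ≤ γ → γ < p' → (∃ i ≤ s, q i = γ) ∧ (∃ j ≤ s, q j = γ + 1) ∧
      Cons t γ (γ + 1) := by
    intro γ h1 h2
    obtain ⟨i, hi, j, hj, a1, a2, a3 | a3⟩ := hcon γ h1 h2
    · have := a3.1
      have e1 : q i = γ := by omega
      have e2 : q j = γ + 1 := by omega
      exact ⟨⟨i, hi, e1⟩, ⟨j, hj, e2⟩, by rwa [e1, e2] at a3⟩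
    · have := a3.1
      omega
  have hmod : ∀ l, p + l ≤ p' → (p + l) % (t + 1) = p % (t + 1) + l := by
    intro l hl
    induction l with
    | zero => rfl
    | succ l ih => rw [← add_assoc, (key (p + l) (by omega) (by omega)).2.2.mod, ih (by omega),
        add_assoc]
  have h1 := hmod (p' - p) (by omega)
  rw [show p + (p' - p) = p' by omega] at h1
  have hsub : Finset.Ico p (p' + 1) ⊆ (Finset.range (s + 1)).image q := by
    intro γ hγ
    rw [Finset.mem_Ico] at hγ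
    by_cases h : γ < p'
    · obtain ⟨i, hi, e⟩ := (key γ hγ.1 h).1
      exact Finset.mem_image.2 ⟨i, Finset.mem_range.2 (by omega), e⟩
    · obtain ⟨i, hi, e⟩ := (key (p' - 1) (by omega) (by omega)).2.1
      exact Finset.mem_image.2 ⟨i, Finset.mem_range.2 (by omega), by omega⟩
  have := (Finset.card_le_card hsub).trans Finset.card_image_le
  rw [Nat.card_Ico, Finset.card_range] at this
  omega

theorem hinge_of_cut {s : ℕ} {ρ : ℕ → ℕ → Prop} (E : ℕ → Prop) (h0 : ¬ (E 0 ↔ E s))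
    (h : ∀ i ≤ s, ∀ j ≤ s, E i → ¬ E j → (rowAdj ρ i j ↔ ρ i j)) : ∃ q, Hinge s ρ q := by
  have step : ∀ i < s, E i → E (i + 1) := by
    intro i hi he
    by_contra hn
    have := h i (by omega) (i + 1) hi he hn
    simp [rowAdj, Xor] at this
  have up : ∀ i j, i ≤ j → j ≤ s → E i → E j := by
    intro i j hij hj he
    induction hij with
    | refl => exact he
    | step _ ih => exact step _ hj (ih (by omega))
  have e0 : ¬ E 0 := fun h' => h0 ⟨fun _ => up 0 s (by omega) le_rfl h', fun _ => h'⟩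
  have es : E s := by tauto
  have hex : ∃ i, E i := ⟨s, es⟩
  have a1 := Nat.find_spec hex
  have a2 : Nat.find hex ≤ s := Nat.find_min' hex es
  have a3 : Nat.find hex ≠ 0 := fun h' => e0 (h' ▸ a1)
  refine ⟨Nat.find hex - 1, by omega, fun j hj i hi his => ?_⟩
  have := h i his j (by omega) (up _ _ (by omega) his a1) (Nat.find_min hex (by omega))
  have a4 : j < i := by omega
  simp only [rowAdj, a4, a4.not_gt, false_and, true_and, false_or, Xor] at this
  have a5 : (j = Nat.find hex - 1 ∧ i = Nat.find hex - 1 + 1) ↔ i = j + 1 := by omega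
  rw [a5]
  tauto

theorem homog_core {s t N : ℕ} {ρ ρ' : ℕ → ℕ → Prop} (Q : ℕ → ℕ → ℕ) (hs : 1 ≤ s) (hst : s < t)
    (hN : s + 2 ≤ N) (hA : ArrIn (arr t ρ') s ρ N Q)
    (hinj : ∀ i ≤ s, ∀ j ≤ s, ∀ a < N, ∀ b < N, Q i a = Q j b → i = j ∧ a = b)
    (b1 : Q 0 0 % (t + 1) = 0 ∨ Q 0 0 % (t + 1) = t) (b2 : Q s 0 % (t + 1) = 0 ∨ Q s 0 % (t + 1) = t)
    (O E D σ : ℕ → ℕ → Prop)
    (hO : ∀ i ≤ s, ∀ j ≤ s, ∀ a b, a < b → b < N → (Q i a < Q j b ↔ O i j))
    (hC : ∀ i ≤ s, ∀ j ≤ s, ∀ a b, a < b → b < N → ¬ Cons2 t (Q i a) (Q j b))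
    (hE : ∀ i ≤ s, ∀ j ≤ s, ∀ a < N, (Q i a < Q j a ↔ E i j))
    (hD : ∀ i ≤ s, ∀ j ≤ s, ∀ a < N, (Cons2 t (Q i a) (Q j a) ↔ D i j))
    (hσ : ∀ i ≤ s, ∀ j ≤ s, ∀ a < N, ∀ b < N,
      (ρ' (Q i a % (t + 1)) (Q j b % (t + 1)) ↔ σ i j)) :
    (∃ q, Hinge s ρ q) ∧ (∀ i < s, D i (i + 1) ∨ ¬ (σ i (i + 1) ↔ σ (i + 1) i)) ∧
      ((∀ i ≤ s, ∀ j ≤ s, (ρ i j ↔ σ i j)) ∨ ∀ i ≤ s, ∀ j ≤ s, (ρ i j ↔ σ j i)) := by
  have f1 : ∀ i ≤ s, ∀ j ≤ s, (ρ i j ↔ (O i j ∧ σ i j) ∨ (¬ O i j ∧ σ j i)) := by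
    intro i hi j hj
    rw [← hA.1 i hi j hj 0 1 (by omega) (by omega),
      arr_adj' (fun h => by have := hinj i hi j hj 0 (by omega) 1 (by omega) h; omega),
      hO i hi j hj 0 1 (by omega) (by omega), hσ i hi j hj 0 (by omega) 1 (by omega),
      hσ j hj i hi 1 (by omega) 0 (by omega)]
    simp [Xor, hC i hi j hj 0 1 (by omega) (by omega)]
  have f2 : ∀ i ≤ s, ∀ j ≤ s, i ≠ j →
      (rowAdj ρ i j ↔ Xor ((E i j ∧ σ i j) ∨ (¬ E i j ∧ σ j i)) (D i j)) := by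
    intro i hi j hj hij
    rw [← hA.row hi hj (show 0 < N by omega),
      arr_adj' (fun h => hij (hinj i hi j hj 0 (by omega) 0 (by omega) h).1),
      hE i hi j hj 0 (by omega), hσ i hi j hj 0 (by omega) 0 (by omega),
      hσ j hj i hi 0 (by omega) 0 (by omega), hD i hi j hj 0 (by omega)]
  have f3 : ∀ i < s, ¬ D i (i + 1) →
      ¬ (E i (i + 1) ↔ O i (i + 1)) ∧ ¬ (σ i (i + 1) ↔ σ (i + 1) i) := by
    intro i hi hd
    have a1 := f1 i (by omega) (i + 1) hi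
    have a2 := f2 i (by omega) (i + 1) hi (by omega)
    simp only [rowAdj, Xor, hd, lt_add_iff_pos_right, zero_lt_one, true_and, not_true_eq_false,
      and_false, false_or, add_lt_iff_neg_left, not_lt_zero, false_and, or_false,
      not_false_eq_true, and_true] at a2
    tauto
  have f4 : ∀ i < s, (O i (i + 1) ↔ O i i) ∧ (O (i + 1) i ↔ O i i) ∧
      (O (i + 1) (i + 1) ↔ O i i) := by
    intro i hi
    have n1 : Q i 0 ≠ Q i 1 := fun h => by
      have := hinj i (by omega) i (by omega) 0 (by omega) 1 (by omega) h; omega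
    have n2 : Q (i + 1) 0 ≠ Q (i + 1) 1 := fun h => by
      have := hinj (i + 1) hi (i + 1) hi 0 (by omega) 1 (by omega) h; omega
    have n3 : Q i 0 ≠ Q (i + 1) 1 := fun h => by
      have := hinj i (by omega) (i + 1) hi 0 (by omega) 1 (by omega) h; omega
    have n4 : Q (i + 1) 0 ≠ Q i 1 := fun h => by
      have := hinj (i + 1) hi i (by omega) 0 (by omega) 1 (by omega) h; omega
    have n5 : Q i 0 ≠ Q (i + 1) 0 := fun h => by
      have := hinj i (by omega) (i + 1) hi 0 (by omega) 0 (by omega) h; omega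
    have n6 : Q i 1 ≠ Q (i + 1) 1 := fun h => by
      have := hinj i (by omega) (i + 1) hi 1 (by omega) 1 (by omega) h; omega
    have e1 := hE i (by omega) (i + 1) hi 0 (by omega)
    have e2 := hE i (by omega) (i + 1) hi 1 (by omega)
    by_cases hd : D i (i + 1)
    · have d1 := (hD i (by omega) (i + 1) hi 0 (by omega)).2 hd
      have d2 := (hD i (by omega) (i + 1) hi 1 (by omega)).2 hd
      simp only [Cons2, Cons] at d1 d2
      rw [← hO i (by omega) (i + 1) hi 0 1 (by omega) (by omega),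
        ← hO i (by omega) i (by omega) 0 1 (by omega) (by omega),
        ← hO (i + 1) hi i (by omega) 0 1 (by omega) (by omega),
        ← hO (i + 1) hi (i + 1) hi 0 1 (by omega) (by omega)]
      omega
    · have d1 := (f3 i hi hd).1
      rw [← e1] at e2
      rw [← e1, ← hO i (by omega) (i + 1) hi 0 1 (by omega) (by omega)] at d1
      rw [← hO i (by omega) (i + 1) hi 0 1 (by omega) (by omega),
        ← hO i (by omega) i (by omega) 0 1 (by omega) (by omega),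
        ← hO (i + 1) hi i (by omega) 0 1 (by omega) (by omega),
        ← hO (i + 1) hi (i + 1) hi 0 1 (by omega) (by omega)]
      omega
  have f5 : ∀ i ≤ s, (O i i ↔ O 0 0) := by
    intro i hi
    induction i with
    | zero => exact Iff.rfl
    | succ i ih => exact (f4 i hi).2.2.trans (ih (by omega))
  have f6 : ∀ i l, i + l ≤ s → (Q i 0 < Q (i + l) (l + 1) ↔ O 0 0) := by
    intro i l hl
    induction l with
    | zero => exact (hO i hl i hl 0 1 (by omega) (by omega)).trans (f5 i hl)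
    | succ l ih =>
      have a1 := ih (by omega)
      have a2 := (hO (i + l) (by omega) (i + l + 1) hl (l + 1) (l + 1 + 1) (by omega)
        (by omega)).trans ((f4 (i + l) hl).1.trans (f5 _ (by omega)))
      rw [← add_assoc]
      by_cases h : O 0 0
      · simp only [h, iff_true] at a1 a2 ⊢
        omega
      · simp only [h, iff_false] at a1 a2 ⊢
        omega
  have f7 : ∀ j l a, j + l ≤ s → a + l + 1 < N → (Q (j + l) a < Q j (a + l + 1) ↔ O 0 0) := by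
    intro j l
    induction l with
    | zero => exact fun a hl ha => (hO j hl j hl a (a + 1) (by omega) ha).trans (f5 j hl)
    | succ l ih =>
      intro a hl ha
      have a1 := ih (a + 1) (by omega) (by omega)
      have a2 := (hO (j + l + 1) hl (j + l) (by omega) a (a + 1) (by omega)
        (by omega)).trans ((f4 (j + l) hl).2.1.trans (f5 _ (by omega)))
      rw [← add_assoc, show a + (l + 1) + 1 = a + 1 + l + 1 by omega]
      by_cases h : O 0 0
      · simp only [h, iff_true] at a1 a2 ⊢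
        omega
      · simp only [h, iff_false] at a1 a2 ⊢
        omega
  have f8 : ∀ i ≤ s, ∀ j ≤ s, (O i j ↔ O 0 0) := by
    intro i hi j hj
    rcases le_total i j with h | h
    · obtain ⟨l, rfl⟩ := Nat.exists_eq_add_of_le h
      exact (hO i hi _ hj 0 (l + 1) (by omega) (by omega)).symm.trans (f6 i l hj)
    · obtain ⟨l, rfl⟩ := Nat.exists_eq_add_of_le h
      exact (hO _ hi j hj 0 (0 + l + 1) (by omega) (by omega)).symm.trans
        (f7 j l 0 hi (by omega))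
  have f9 : ∀ i ≤ s, ∀ j ≤ s, (ρ i j ↔ (O 0 0 ∧ σ i j) ∨ (¬ O 0 0 ∧ σ j i)) := by
    intro i hi j hj
    rw [f1 i hi j hj, f8 i hi j hj]
  refine ⟨?_, fun i hi => ?_, ?_⟩
  · obtain ⟨γ, g1, g2⟩ : ∃ γ, ¬ (Q 0 0 ≤ γ ↔ Q s 0 ≤ γ) ∧
        ∀ i ≤ s, ∀ j ≤ s, Q i 0 ≤ γ → γ < Q j 0 → ¬ Cons2 t (Q i 0) (Q j 0) := by
      have hne : Q 0 0 ≠ Q s 0 := fun h => by
        have := hinj 0 (by omega) s le_rfl 0 (by omega) 0 (by omega) h; omega
      rcases lt_or_gt_of_ne hne with h | h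
      · obtain ⟨γ, a1, a2, a3⟩ := exists_cut hst (fun i => Q i 0) h b1 b2
        exact ⟨γ, by omega, a3⟩
      · obtain ⟨γ, a1, a2, a3⟩ := exists_cut hst (fun i => Q i 0) h b2 b1
        exact ⟨γ, by omega, a3⟩
    have g3 : ∀ i ≤ s, ∀ j ≤ s, Q i 0 ≤ γ → ¬ Q j 0 ≤ γ → (rowAdj ρ i j ↔ σ i j) := by
      intro i hi j hj a1 a2
      rw [f2 i hi j hj (fun h => a2 (h ▸ a1)), ← hE i hi j hj 0 (by omega),
        ← hD i hi j hj 0 (by omega)]
      simp [Xor, g2 i hi j hj a1 (by omega), show Q i 0 < Q j 0 by omega]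
    by_cases h : O 0 0
    · refine hinge_of_cut (fun i => Q i 0 ≤ γ) g1 (fun i hi j hj a1 a2 => ?_)
      rw [g3 i hi j hj a1 a2, f9 i hi j hj]
      simp [h]
    · refine hinge_of_cut (fun i => ¬ Q i 0 ≤ γ) (by tauto) (fun i hi j hj a1 a2 => ?_)
      have := g3 j hj i hi (not_not.1 a2) a1
      rw [f9 i hi j hj, show rowAdj ρ i j ↔ rowAdj ρ j i from or_comm, this]
      simp [h]
  · by_cases hd : D i (i + 1)
    · exact Or.inl hd
    · exact Or.inr (f3 i hi hd).2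
  · by_cases h : O 0 0
    · exact Or.inl fun i hi j hj => by simpa [h] using f9 i hi j hj
    · exact Or.inr fun i hi j hj => by simpa [h] using f9 i hi j hj

/-- The array with `m` rows and its two end layers black. -/
def mark (s : ℕ) (ρ : ℕ → ℕ → Prop) (m : ℕ) : CG :=
  ⟨(s + 1) * m, (arr s ρ).comap Fin.val,
    fun n => decide (n.val % (s + 1) = 0 ∨ n.val % (s + 1) = s)⟩

theorem main_M {X : Set FG} (hX : MinimalUnbounded X) (s : ℕ) (hs : 1 ≤ s) :
    ∃ m, 1 ≤ m ∧ ∀ ρ t ρ' m', PreT X t ρ' → s < t → CLe (mark s ρ m) (mark t ρ' m') →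
      (∃ q, Hinge s ρ q) ∧ ∃ j : ℕ → ℕ, (j 0 = 0 ∨ j 0 = t) ∧ (j s = 0 ∨ j s = t) ∧
        (∀ i ≤ s, j i ≤ t) ∧ (∀ i < s, Lk ρ' (j i) (j (i + 1))) ∧
        (j 0 = j s → ∀ i ≤ s, (ρ 0 i ↔ ρ s i) ∧ (ρ i 0 ↔ ρ i s)) := by
  obtain ⟨d, hd⟩ := letters_bound hX s
  set N := s + 2 * (d + 1) + 5 with hN
  obtain ⟨M, hM⟩ := ramsey (Fin (s + 1) → Fin (s + 1) → Prop × Prop × Prop × Prop × Prop) (N + 1)
  refine ⟨M + 1, by omega, fun ρ t ρ' m' hρ' hst ⟨φ, hφ⟩ => ?_⟩
  obtain ⟨κ, hκ⟩ := hd t ρ' hρ'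
  have hlt : ∀ i ≤ s, ∀ a < M + 1, (s + 1) * a + i < (s + 1) * (M + 1) := fun i hi a ha =>
    pos_lt (j := 0) hi ha
  let P : ℕ → ℕ → ℕ := fun i a =>
    if h : (s + 1) * a + i < (s + 1) * (M + 1) then (φ ⟨_, h⟩).val else 0
  have hP : ∀ i (hi : i ≤ s) a (ha : a < M + 1), P i a = (φ ⟨_, hlt i hi a ha⟩).val :=
    fun i hi a ha => dif_pos _
  have hPadj : ∀ i ≤ s, ∀ j ≤ s, ∀ a < M + 1, ∀ b < M + 1, (arr t ρ').Adj (P i a) (P j b) ↔
      (arr s ρ).Adj ((s + 1) * a + i) ((s + 1) * b + j) := by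
    intro i hi j hj a ha b hb
    rw [hP i hi a ha, hP j hj b hb]
    exact φ.map_adj_iff
  have hPinj : ∀ i ≤ s, ∀ j ≤ s, ∀ a < M + 1, ∀ b < M + 1, P i a = P j b → i = j ∧ a = b := by
    intro i hi j hj a ha b hb h
    rw [hP i hi a ha, hP j hj b hb] at h
    have := congrArg Fin.val (φ.injective (Fin.ext h))
    simp only at this
    exact ⟨by rw [← pos_mod a hi, this, pos_mod b hj], by rw [← pos_div a hi, this, pos_div b hj]⟩
  have hPb : ∀ i, i = 0 ∨ i = s → ∀ a < M + 1, P i a % (t + 1) = 0 ∨ P i a % (t + 1) = t := by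
    intro i hi a ha
    have hi' : i ≤ s := by omega
    have := hφ ⟨_, hlt i hi' a ha⟩
    simp only [mark, pos_mod a hi', hi, decide_true, decide_eq_true_eq] at this
    rw [hP i hi' a ha]
    exact this
  obtain ⟨f, γ, f1, f2, f3⟩ := hM (fun a b i j => (P i a < P j b, Cons2 t (P i a) (P j b),
    SameL t ρ' (P i a % (t + 1)) (P i b % (t + 1)), P i a < P j a, Cons2 t (P i a) (P j a)))
  let Q : ℕ → ℕ → ℕ := fun i n => P i (f n)
  let ix : ℕ → Fin (s + 1) := fun i => ⟨min i s, by omega⟩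
  have f4 : ∀ i ≤ s, ∀ j ≤ s, ∀ a b, a < b → b < N + 1 →
      (Q i a < Q j b ↔ (γ (ix i) (ix j)).1) ∧ (Cons2 t (Q i a) (Q j b) ↔ (γ (ix i) (ix j)).2.1) ∧
      (SameL t ρ' (Q i a % (t + 1)) (Q i b % (t + 1)) ↔ (γ (ix i) (ix j)).2.2.1) ∧
      (Q i a < Q j a ↔ (γ (ix i) (ix j)).2.2.2.1) ∧
      (Cons2 t (Q i a) (Q j a) ↔ (γ (ix i) (ix j)).2.2.2.2) := by
    intro i hi j hj a b hab hb
    rw [← f3 a b hab hb]
    simp [ix, Q, min_eq_left hi, min_eq_left hj]
  have f5 : ∀ a < N + 1, f a < M + 1 := fun a ha => by have := f2 a ha; omega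
  have hA : ArrIn (arr t ρ') s ρ N Q := by
    have := arrIn_arr s ρ (M + 1)
    constructor
    · intro i hi j hj a b hab hb
      rw [hPadj i hi j hj _ (f5 a (by omega)) _ (f5 b (by omega))]
      exact this.1 i hi j hj _ _ (f1 a b hab (by omega)) (f5 b (by omega))
    · intro i j hij hj a ha
      rw [hPadj i (by omega) j hj _ (f5 a (by omega)) _ (f5 a (by omega))]
      exact this.2 i j hij hj _ (f5 a (by omega))
  have hinj : ∀ i ≤ s, ∀ j ≤ s, ∀ a < N, ∀ b < N, Q i a = Q j b → i = j ∧ a = b := by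
    intro i hi j hj a ha b hb h
    obtain ⟨h1, h2⟩ := hPinj i hi j hj _ (f5 a (by omega)) _ (f5 b (by omega)) h
    refine ⟨h1, ?_⟩
    rcases lt_trichotomy a b with h' | h' | h'
    · exact absurd h2 (f1 a b h' (by omega)).ne
    · exact h'
    · exact absurd h2 (f1 b a h' (by omega)).ne'
  have hC : ∀ i ≤ s, ∀ j ≤ s, ∀ a b, a < b → b < N → ¬ Cons2 t (Q i a) (Q j b) := by
    intro i hi j hj a b hab hb h
    have h0 := (f4 i hi j hj a b hab (by omega)).2.1.1 h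
    have c1 := (f4 i hi j hj 0 1 (by omega) (by omega)).2.1.2 h0
    have c2 := (f4 i hi j hj 0 2 (by omega) (by omega)).2.1.2 h0
    have c3 := (f4 i hi j hj 0 3 (by omega) (by omega)).2.1.2 h0
    have d1 := hinj j hj j hj 1 (by omega) 2 (by omega)
    have d2 := hinj j hj j hj 1 (by omega) 3 (by omega)
    have d3 := hinj j hj j hj 2 (by omega) 3 (by omega)
    simp only [Cons2, Cons] at c1 c2 c3
    omega
  have hmod : ∀ n, n % (t + 1) ≤ t := fun n => by
    have := Nat.mod_lt n (show 0 < t + 1 by omega)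
    omega
  let ly : ℕ → Fin (t + 1) := fun n => ⟨n % (t + 1), Nat.mod_lt n (by omega)⟩
  have hsame : ∀ i ≤ s, (∀ n, 1 ≤ n → n < N → Near t ρ' i (ly (Q i n))) →
      ∀ a < N, ∀ b < N, SameL t ρ' (Q i a % (t + 1)) (Q i b % (t + 1)) := by
    intro i hi hnear
    have hnear' : ∀ n, 1 ≤ n → n < N → Near t ρ' s (ly (Q i n)) := fun n h1 h2 =>
      (hnear n h1 h2).imp (fun h => ball_mono _ _ hi h) (fun h => ball_mono _ _ hi h)
    obtain ⟨a, ha, b, hb, hab, he⟩ := Finset.exists_ne_map_eq_of_card_lt_of_maps_to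
      (s := Finset.Ico 1 N) (t := Finset.univ) (f := fun n => κ (ly (Q i n))) (by
        simp only [Finset.card_univ, Fintype.card_prod, Fintype.card_fin, Fintype.card_bool,
          Nat.card_Ico]
        omega) (fun _ _ => Finset.mem_univ _)
    rw [Finset.mem_Ico] at ha hb
    have h0 : (γ (ix i) (ix i)).2.2.1 := by
      rcases lt_or_gt_of_ne hab with h | h
      · exact (f4 i hi i hi a b h (by omega)).2.2.1.1
          (hκ _ _ (hnear' a ha.1 ha.2) (hnear' b hb.1 hb.2) he)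
      · exact (f4 i hi i hi b a h (by omega)).2.2.1.1
          (hκ _ _ (hnear' b hb.1 hb.2) (hnear' a ha.1 ha.2) he.symm)
    intro a ha b hb
    rcases lt_trichotomy a b with h | rfl | h
    · exact (f4 i hi i hi a b h (by omega)).2.2.1.2 h0
    · exact fun _ _ => ⟨Iff.rfl, Iff.rfl⟩
    · have := (f4 i hi i hi b a h (by omega)).2.2.1.2 h0
      exact fun x hx => ⟨(this x hx).1.symm, (this x hx).2.symm⟩
  have hcons : ∀ n n', Cons2 t n n' → Lk ρ' (n % (t + 1)) (n' % (t + 1)) := by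
    rintro n n' (h | h)
    · exact Or.inl h.mod
    · exact Or.inr (Or.inl h.mod)
  have hnear : ∀ i ≤ s, ∀ n, 1 ≤ n → n < N → Near t ρ' i (ly (Q i n)) := by
    intro i hi
    induction i with
    | zero =>
      intro n _ hn
      rcases hPb 0 (Or.inl rfl) _ (f5 n (by omega)) with h | h
      · exact Or.inl (Fin.ext h)
      · exact Or.inr (Fin.ext h)
    | succ i ih =>
      intro n h1 hn
      have a1 := ih (by omega) n h1 hn
      have a2 := hsame i (by omega) (ih (by omega)) 0 (by omega) n hn _ (hmod (Q (i + 1) n))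
      have a3 : Lk ρ' (Q i n % (t + 1)) (Q (i + 1) n % (t + 1)) := by
        by_cases hc : Cons2 t (Q i n) (Q (i + 1) n)
        · exact hcons _ _ hc
        refine Or.inr (Or.inr fun hs => ?_)
        have b1 := hA.1 i (by omega) (i + 1) hi 0 n h1 hn
        have b2 := hA.2 i (i + 1) (by omega) hi n hn
        rw [arr_adj' (fun h => by
          have := hinj i (by omega) (i + 1) hi 0 (by omega) n hn h; omega), a2.1, a2.2] at b1
        rw [arr_adj' (fun h => by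
          have := hinj i (by omega) (i + 1) hi n (by omega) n hn h; omega)] at b2
        have b3 := hC i (by omega) (i + 1) hi 0 n h1 hn
        simp only [Xor, b3, hc, ← hs, not_false_eq_true, and_true, false_and, or_false,
          not_true_eq_false, and_false, true_and, false_or] at b1 b2
        tauto
      exact a1.imp (fun h => ball_step h a3) (fun h => ball_step h a3)
  have hσ : ∀ i ≤ s, ∀ j ≤ s, ∀ a < N, ∀ b < N, (ρ' (Q i a % (t + 1)) (Q j b % (t + 1)) ↔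
      ρ' (Q i 0 % (t + 1)) (Q j 0 % (t + 1))) := fun i hi j hj a ha b hb =>
    (hsame i hi (hnear i hi) a ha 0 (by omega) _ (hmod _)).1.trans
      (hsame j hj (hnear j hj) b hb 0 (by omega) _ (hmod _)).2
  obtain ⟨r1, r2, r3⟩ := homog_core Q hs hst (by omega) hA hinj
    (hPb 0 (Or.inl rfl) _ (f5 0 (by omega))) (hPb s (Or.inr rfl) _ (f5 0 (by omega)))
    (fun i j => (γ (ix i) (ix j)).1) (fun i j => (γ (ix i) (ix j)).2.2.2.1)
    (fun i j => (γ (ix i) (ix j)).2.2.2.2) (fun i j => ρ' (Q i 0 % (t + 1)) (Q j 0 % (t + 1)))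
    (fun i hi j hj a b hab hb => (f4 i hi j hj a b hab (by omega)).1) hC
    (fun i hi j hj a ha => (f4 i hi j hj a (a + 1) (by omega) (by omega)).2.2.2.1)
    (fun i hi j hj a ha => (f4 i hi j hj a (a + 1) (by omega) (by omega)).2.2.2.2) hσ
  refine ⟨r1, fun i => Q i 0 % (t + 1), hPb 0 (Or.inl rfl) _ (f5 0 (by omega)),
    hPb s (Or.inr rfl) _ (f5 0 (by omega)), fun i _ => hmod _, fun i hi => ?_, fun h i hi => ?_⟩
  · rcases r2 i hi with h | h
    · exact hcons _ _ ((f4 i (by omega) (i + 1) hi 0 1 (by omega) (by omega)).2.2.2.2.2 h)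
    · exact Or.inr (Or.inr h)
  · simp only at h
    rcases r3 with r | r <;>
      rw [r 0 (by omega) i hi, r s le_rfl i hi, r i hi 0 (by omega), r i hi s le_rfl, h] <;>
      exact ⟨Iff.rfl, Iff.rfl⟩

theorem not_cle_hinged {s t : ℕ} {ρ ρ' : ℕ → ℕ → Prop} (hs : 2 < (hinges s ρ).card)
    (h0 : Hinge s ρ 0) (ht : s < (hinges t ρ').card) (j : ℕ → ℕ) (j0 : j 0 = 0 ∨ j 0 = t)
    (js : j s = 0 ∨ j s = t) (jt : ∀ i ≤ s, j i ≤ t) (jl : ∀ i < s, Lk ρ' (j i) (j (i + 1))) :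
    ¬ (j 0 = j s → ∀ i ≤ s, (ρ 0 i ↔ ρ s i) ∧ (ρ i 0 ↔ ρ i s)) := by
  let c : ℕ → ℕ := fun x => ((hinges t ρ').filter (fun q => q < x)).card
  have c1 : ∀ x y, x ≤ y → c x ≤ c y := fun x y h => Finset.card_le_card (fun q hq => by
    simp only [Finset.mem_filter] at hq ⊢
    exact ⟨hq.1, by omega⟩)
  have c2 : ∀ x, c (x + 1) ≤ c x + 1 := fun x =>
    (Finset.card_le_card (t := insert x ((hinges t ρ').filter (fun q => q < x))) (fun q hq => by
      simp only [Finset.mem_filter, Finset.mem_insert] at hq ⊢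
      by_cases h : q = x
      · exact Or.inl h
      · exact Or.inr ⟨hq.1, by omega⟩)).trans (Finset.card_insert_le _ _)
  have c3 : ∀ x y, x < y → y ≤ t → ¬ (ρ' x y ↔ ρ' y x) → c y ≤ c x + 1 := by
    intro x y hxy hy ha
    by_cases h : y = x + 1
    · exact h ▸ c2 x
    refine le_trans (Finset.card_le_card (fun q hq => ?_)) (Nat.le_succ _)
    simp only [Finset.mem_filter] at hq ⊢
    refine ⟨hq.1, by_contra fun hn => ha ?_⟩
    rw [(mem_hinges.1 hq.1).2 x (by omega) y hq.2 hy]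
    omega
  have c4 : ∀ i ≤ s, c (j i) ≤ c (j 0) + i ∧ c (j 0) ≤ c (j i) + i := by
    intro i hi
    induction i with
    | zero => omega
    | succ i ih =>
      have := ih (by omega)
      suffices c (j (i + 1)) ≤ c (j i) + 1 ∧ c (j i) ≤ c (j (i + 1)) + 1 by omega
      rcases jl i hi with h | h | h
      · rw [h]
        exact ⟨c2 _, (c1 _ _ (by omega)).trans (Nat.le_succ _)⟩
      · rw [h]
        exact ⟨(c1 _ _ (by omega)).trans (Nat.le_succ _), c2 _⟩
      · rcases lt_trichotomy (j i) (j (i + 1)) with h' | h' | h'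
        · exact ⟨c3 _ _ h' (jt _ hi) h, (c1 _ _ h'.le).trans (Nat.le_succ _)⟩
        · rw [h']
          omega
        · exact ⟨(c1 _ _ h'.le).trans (Nat.le_succ _),
            c3 _ _ h' (jt _ (by omega)) (fun e => h e.symm)⟩
  have c5 : c 0 = 0 := by simp [c]
  have c6 : c t = (hinges t ρ').card := by
    simp only [c]
    rw [Finset.filter_true_of_mem (fun q hq => (mem_hinges.1 hq).1)]
  have c7 := c4 s le_rfl
  have he : j 0 = j s := by
    rcases j0 with a | a <;> rcases js with b | b <;> rw [a, b] at c7 <;> omega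
  have s3 : 3 ≤ s := by
    have := Finset.card_filter_le (Finset.range s) (Hinge s ρ)
    rw [Finset.card_range] at this
    exact le_trans hs this
  obtain ⟨q, hq, hq0⟩ := Finset.exists_mem_ne (show 1 < (hinges s ρ).card by omega) 0
  have hq := mem_hinges.1 hq
  intro h
  have a1 := h he 1 (by omega)
  have a2 := h0.2 0 le_rfl 1 (by omega) (by omega)
  have a3 := (hq.2 1 (by omega) s hq.1 le_rfl).2 (by omega)
  tauto

end Pool.Agent.MP_2278ed_co

end MrgPart1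

-- ======== part 2: formerly Pool.Agent.MP_2278ed_co.Move
section MrgPart2

namespace Pool.Agent.MP_2278ed_co

open Classical

variable {k : ℕ}

theorem move_step {s ρ : ℕ} (hs : 1 ≤ s) {D : DG k} (hD : ¬ Chain D.G k s) {S r : Finset D.V}
    {pos : D.V → Finset D.V} {rep : D.V → D.V} (hP : Pres D S r pos rep) (hR : RkGe D S r pos ρ)
    {z : Finset D.V} (hzr : z ⊆ r) (hz : ∀ x ∈ D.L, x ⊂ z → ∃ v ∈ S, ¬ pos v ⊆ x)
    {y : Finset D.V} (hy : Deep D S pos ρ z s y) :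
    ∃ (W : Finset D.V) (σ : Fin k → D.V), W ⊂ S ∧ (∀ v ∈ S, pos v ⊆ y → v ∈ W) ∧
      (∀ v ∈ W, σ (D.col r (rep v)) ∈ y ∧ D.col r (σ (D.col r (rep v))) = D.col r (rep v)) ∧
      ∀ u ∈ S, u ∉ W → ∀ v ∈ W, (D.G.Adj u v ↔ D.G.Adj (rep u) (σ (D.col r (rep v)))) := by
  obtain ⟨Z, zs, hZ, hZ'⟩ := Deep.chain s hy
  obtain ⟨hyL, w0, hw0, hw0y⟩ := hy.inner
  have hin : ∀ j ≤ s, Inner D S pos (Z j) := fun j hj =>
    ⟨(hZ j hj).1, w0, hw0, lt_of_lt_of_le hw0y (hZ j hj).2.2⟩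
  have hanti : ∀ i j, i ≤ j → j ≤ s → Z j ⊆ Z i := by
    intro i j hij hj
    induction hij with
    | refl => exact subset_rfl
    | step _ ih => exact (hZ' _ (by omega)).1.subset.trans (ih (by omega))
  have hZr : ∀ j ≤ s, Z j ⊆ r := fun j hj => (hZ j hj).2.1.trans hzr
  have hlt : ∀ j, 1 ≤ j → j ≤ s → Z j ⊂ r := fun j h1 hj =>
    lt_of_le_of_lt (hanti 1 j h1 hj) (lt_of_lt_of_le (hZ' 0 (by omega)).1 (hZr 0 (by omega)))
  have himg : y.image (D.col r) = (Z 1).image (D.col r) := by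
    apply Finset.eq_of_subset_of_card_le (Finset.image_subset_image (hZ 1 hs).2.2)
    have a1 := D.rank_anti (x := Z 1) (hZ 0 (by omega)).1 hP.root (hZ' 0 (by omega)).1.subset
      (hZr 0 (by omega))
    have a2 := (hZ' 0 (by omega)).2
    have a3 := hR (Z s) r (hin s le_rfl) hP.root (hlt s hs le_rfl) subset_rfl
    rw [zs] at a3
    exact a1.trans (a2.trans a3)
  have hσ : ∀ a, ∃ w, a ∈ y.image (D.col r) → w ∈ y ∧ D.col r w = a := by
    intro a
    by_cases h : a ∈ y.image (D.col r)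
    · obtain ⟨w, h1, h2⟩ := Finset.mem_image.1 h
      exact ⟨w, fun _ => ⟨h1, h2⟩⟩
    · exact ⟨D.pt, fun h' => absurd h' h⟩
  choose σ hσ using hσ
  have hσ' : ∀ v ∈ S, pos v ⊆ Z 1 →
      σ (D.col r (rep v)) ∈ y ∧ D.col r (σ (D.col r (rep v))) = D.col r (rep v) := by
    intro v hv h
    apply hσ
    rw [himg]
    exact Finset.mem_image_of_mem _ (h (hP.rp v hv))
  let ar : D.V → D.V → Prop := fun u v => v ∈ S ∧ ¬ pos u ⊆ y ∧
    ¬ (D.G.Adj u v ↔ D.G.Adj (rep u) (σ (D.col r (rep v))))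
  let A : Set D.V := {v | v ∈ S ∧ ¬ pos v ⊆ Z 1}
  have hS : ∀ n v, v ∈ Ball ar A n → v ∈ S := by
    intro n
    induction n with
    | zero => exact fun v hv => hv.1
    | succ n ih =>
      rintro v (hv | ⟨u, -, huv⟩)
      · exact ih v hv
      · exact huv.1
  have hband : ∀ n v, v ∈ Ball ar A n → n + 1 ≤ s → ¬ pos v ⊆ Z (n + 1) := by
    intro n
    induction n with
    | zero => exact fun v hv _ => hv.2
    | succ n ih =>
      rintro v (hv | ⟨u, hu, huv⟩) hn hsub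
      · exact ih v hv (by omega) (hsub.trans (hanti _ _ (by omega) hn))
      · have hu1 := ih u hu (by omega)
        have huS := hS n u hu
        obtain ⟨hvS, -, h3⟩ := huv
        apply h3
        obtain ⟨hL, w, hw, hwz⟩ := hin (n + 1) (by omega)
        have hdis := (hP.sub_or_disj hL hw hwz huS).resolve_left hu1
        have hv1 : pos v ⊆ Z (n + 1) := hsub.trans (hanti _ _ (by omega) hn)
        have hru : rep u ∉ Z (n + 1) := Finset.disjoint_left.1 hdis (hP.rp u huS)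
        rw [hP.adj u huS v hvS (fun h => hu1 (h ▸ hv1))]
        obtain ⟨b1, b2⟩ := hσ' v hvS (hsub.trans (hanti _ _ (by omega) hn))
        have c1 : rep v ∈ Z (n + 2) := hsub (hP.rp v hvS)
        have c2 : σ (D.col r (rep v)) ∈ Z (n + 2) := (hZ _ hn).2.2 b1
        have hss := (hZ' (n + 1) (by omega)).1.subset
        have c3 := D.ker_eq (x := Z (n + 2)) hL hP.root hss (hZr _ (by omega))
          ((hZ' (n + 1) (by omega)).2.trans
            (hR _ r (hin _ hn) hP.root (hlt _ (by omega) hn) subset_rfl)) c1 c2 b2.symm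
        have := D.tw _ hL _ (hss c1) _ (hss c2) c3 _ hru
        rw [D.G.adj_comm (rep u), D.G.adj_comm (rep u)]
        exact this
  have hfar : ∀ n v, v ∈ Ball ar A n → ¬ pos v ⊆ y := by
    intro n v hv hvy
    obtain ⟨m, -, h1, h2⟩ := exists_dist ar A n v hv
    have hm : s ≤ m := by
      by_contra hlt'
      exact hband m v h1 (by omega) (hvy.trans (hZ _ (by omega)).2.2)
    obtain ⟨u, -, u2, u3, u4⟩ := exists_path ar A m v h1 h2
    refine hD ⟨u, fun j => D.col r (rep (u j)), fun i a => D.G.Adj (rep (u i)) (σ a), ?_⟩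
    intro i j hij hj
    by_cases h : j = i + 1
    · subst h
      have := (u3 i (by omega)).2.2
      simp only [Xor]
      tauto
    · have a1 := u4 i j (by omega) (by omega)
      have a2 := (u3 i (by omega)).2.1
      have a3 := hS j _ (u2 j (by omega))
      simp only [ar, a2, a3, not_false_eq_true, true_and, not_not] at a1
      simp only [Xor]
      tauto
  refine ⟨S.filter (fun v => ∀ n, v ∉ Ball ar A n), σ, ?_, ?_, ?_, ?_⟩
  · obtain ⟨v, hv, hv1⟩ := hz (Z 1) (hZ 1 hs).1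
      (lt_of_lt_of_le (hZ' 0 (by omega)).1 (hZ 0 (by omega)).2.1)
    refine Finset.filter_ssubset.2 ⟨v, hv, fun h => h 0 ⟨hv, hv1⟩⟩
  · intro v hv hvy
    exact Finset.mem_filter.2 ⟨hv, fun n hn => hfar n v hn hvy⟩
  · intro v hv
    obtain ⟨h1, h2⟩ := Finset.mem_filter.1 hv
    exact hσ' v h1 (by_contra fun h => h2 0 ⟨h1, h⟩)
  · intro u hu huW v hv
    obtain ⟨h1, h2⟩ := Finset.mem_filter.1 hv
    have : ∃ n, u ∈ Ball ar A n := by
      by_contra h
      exact huW (Finset.mem_filter.2 ⟨hu, fun n hn => h ⟨n, hn⟩⟩)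
    obtain ⟨n, hn⟩ := this
    by_contra h
    exact h2 (n + 1) (ball_step hn ⟨h1, hfar n u hn, h⟩)

theorem reduce {s ρ : ℕ} (hs : 1 ≤ s) {D : DG k} (hD : ¬ Chain D.G k s) {S r : Finset D.V}
    (μ : D.V → Bool) (l : D.V → Fin k) {Q P' : Set (Obj k)} (hQ : Down Q) (hQ' : Rec P' ⊆ Q)
    (hP' : ∀ W ⊂ S, D.obj μ l W ∈ P') (N : ℕ) :
    ∀ (pos : D.V → Finset D.V) (rep : D.V → D.V), {x | Inner D S pos x}.ncard = N →
      Pres D S r pos rep → RkGe D S r pos ρ → Atoms Q D μ S pos rep →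
      (∀ v ∈ S, D.col r (rep v) = l v) → D.obj μ l S ∈ Rec (Tower s ρ Q s) := by
  have := D.fin
  induction N using Nat.strong_induction_on with
  | _ N ih =>
  intro pos rep hN hP hR hA hl
  obtain ⟨z, ⟨z1, z2, z3⟩, z4⟩ := Set.exists_min_image {y | y ∈ D.L ∧ y ⊆ r ∧ ∀ v ∈ S, pos v ⊆ y}
    Finset.card (Set.toFinite _) ⟨r, hP.root, subset_rfl, hP.sub⟩
  by_cases hdeep : ∀ x, ¬ Deep D S pos ρ z s x
  · have h1 := mem_tower s ρ hQ D hD μ pos rep s S z (hP.restrict subset_rfl z1 z3) hA hdeep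
    obtain ⟨g, hg⟩ := D.factor z1 hP.root z2
    exact ⟨fun v => D.col z (rep v), g, h1, fun v hv =>
      (hl v hv).symm.trans (hg _ (z3 v hv (hP.rp v hv)))⟩
  push Not at hdeep
  obtain ⟨y, hy⟩ := hdeep
  obtain ⟨W, σ, w1, w2, w3, w4⟩ := move_step hs hD hP hR z2 (by
    intro x hx hxz
    by_contra h
    push Not at h
    have := z4 x ⟨hx, hxz.subset.trans z2, h⟩
    have := Finset.card_lt_card hxz
    omega) hy
  obtain ⟨hyL, w0, hw0, hw0y⟩ := hy.inner
  let pos' : D.V → Finset D.V := fun v => if v ∈ W then y else pos v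
  let rep' : D.V → D.V := fun v => if v ∈ W then σ (D.col r (rep v)) else rep v
  have hdis : ∀ v ∈ S, v ∉ W → Disjoint (pos v) y := fun v hv hvW =>
    (hP.sub_or_disj hyL hw0 hw0y hv).resolve_left (fun h => hvW (w2 v hv h))
  have hin : ∀ x, Inner D S pos' x → Inner D S pos x := by
    rintro x ⟨hx, v, hv, hvx⟩
    by_cases h : v ∈ W
    · simp only [pos', h, if_true] at hvx
      exact ⟨hx, w0, hw0, hw0y.trans hvx⟩
    · simp only [pos', h, if_false] at hvx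
      exact ⟨hx, v, hv, hvx⟩
  refine ih _ ?_ pos' rep' rfl ⟨hP.root, ?_, ?_, ?_, ?_, ?_⟩ ?_ ?_ ?_
  · rw [← hN]
    apply Set.ncard_lt_ncard _ (Set.toFinite _)
    refine ⟨hin, fun h => ?_⟩
    obtain ⟨-, v, hv, hvy⟩ := h hy.inner
    by_cases h : v ∈ W
    · simp only [pos', h, if_true] at hvy
      exact hvy.ne rfl
    · simp only [pos', h, if_false] at hvy
      exact h (w2 v hv hvy.subset)
  · intro v hv
    by_cases h : v ∈ W <;> simp [pos', h, hyL, hP.mem v hv]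
  · intro v hv
    by_cases h : v ∈ W <;> simp [pos', h, hy.sub.trans z2, hP.sub v hv]
  · intro v hv
    by_cases h : v ∈ W
    · simpa [pos', rep', h] using (w3 v h).1
    · simpa [pos', rep', h] using hP.rp v hv
  · intro u hu v hv
    by_cases h : u ∈ W <;> by_cases h' : v ∈ W <;> simp only [pos', h, h', if_true, if_false]
    · exact Or.inl trivial
    · exact Or.inr (hdis v hv h').symm
    · exact Or.inr (hdis u hu h)
    · exact hP.dis u hu v hv
  · intro u hu v hv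
    by_cases h : u ∈ W <;> by_cases h' : v ∈ W <;>
      simp only [pos', rep', h, h', if_true, if_false]
    · exact fun h => absurd rfl h
    · intro _
      rw [D.G.adj_comm, D.G.adj_comm (σ _)]
      exact w4 v hv h' u h
    · exact fun _ => w4 u hu h v h'
    · exact hP.adj u hu v hv
  · exact fun x y hx => hR x y (hin x hx)
  · intro x T hT
    by_cases hTW : ∃ v ∈ T, v ∈ W
    · obtain ⟨v0, hv0, hv0W⟩ := hTW
      have hx : x = y := by simpa [pos', hv0W] using (hT v0 hv0).2.symm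
      have hTW : T ⊆ W := by
        intro v hv
        by_contra h
        have h1 := (hT v hv).2
        simp only [pos', h, if_false] at h1
        exact h (w2 v (hT v hv).1 (h1.trans hx).le)
      refine hQ' ⟨l, fun a => D.col x (σ a), hP' T (lt_of_le_of_lt hTW w1), fun v hv => ?_⟩
      simp only [rep', hTW hv, if_true, hl v (hT v hv).1]
    · push Not at hTW
      refine hQ _ (hA x T (fun v hv => ?_)) _ (D.emb μ subset_rfl (fun v hv => ?_))
      · simpa [pos', hTW v hv] using hT v hv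
      · simp [rep', hTW v hv]
  · intro v hv
    by_cases h : v ∈ W
    · simp only [rep', h, if_true]
      exact (w3 v h).2.trans (hl v hv)
    · simpa [rep', h] using hl v hv

theorem pwo_step {s ρ : ℕ} (hs : 1 ≤ s)
    (ih : ∀ P : Set (Obj k), Down P → Pwo P → Pwo (Cl s (ρ + 1) P))
    (P : Set (Obj k)) (hD : Down P) (hP : Pwo P) : Pwo (Cl s ρ P) := by
  rw [Pwo, Set.PartiallyWellOrderedOn.iff_not_exists_isMinBadSeq (fun O => O.S.card)]
  rintro ⟨f, h1, h2⟩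
  have hP' := pwo_below (down_cl s ρ P) h1 h2
  set P' := {O : Obj k | ∃ n, Emb O (f n) ∧ O.S.card < (f n).S.card}
  have hD' : Down P' := by
    rintro O ⟨n, a, b⟩ O' h
    exact ⟨n, h.trans a, lt_of_le_of_lt h.card_le b⟩
  have hQ : Down (P ∪ Rec P') := hD.union (down_rec hD')
  have hT : ∀ i, Pwo (Tower s ρ (P ∪ Rec P') i) := by
    intro i
    induction i with
    | zero => exact hP.union (pwo_rec hD' hP')
    | succ i ih' => exact (hP.union (pwo_rec hD' hP')).union (ih _ (down_tower s ρ hQ i) ih')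
  have hR := pwo_rec (down_tower s ρ hQ s) (hT s)
  have hf : ∀ n, f n ∈ Rec (Tower s ρ (P ∪ Rec P') s) := by
    intro n
    obtain ⟨O', ⟨D, S, r, pos, rep, μ, a1, a2, a3, a4, rfl⟩, e1, e2⟩ := cl_exact (h1.1 n)
    refine down_rec (down_tower s ρ hQ s) _ ?_ _ e1
    refine reduce hs a1 μ _ hQ Set.subset_union_right ?_ _ pos rep rfl a2 a3
      (fun x T hT => Or.inl (a4 x T hT)) (fun _ _ => rfl)
    intro W hW
    exact ⟨n, (D.emb μ hW.subset (fun _ _ => rfl)).trans e2,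
      lt_of_lt_of_le (Finset.card_lt_card hW) e2.card_le⟩
  obtain ⟨m, n, hmn, h⟩ := hR.exists_lt hf
  exact h1.2 m n hmn h

theorem pwo_cl {s : ℕ} (hs : 1 ≤ s) (j : ℕ) (hj : j ≤ k + 1) :
    ∀ P : Set (Obj k), Down P → Pwo P → Pwo (Cl s j P) := by
  induction hj using Nat.decreasingInduction with
  | self => exact fun P hD hP => pwo_base s hD hP
  | of_succ j _ ih => exact pwo_step hs ih

theorem Dec.family {V : Type} {G : SimpleGraph V} {U : Finset V} (h : Dec G k U) :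
    ∃ L : Set (Finset V), U ∈ L ∧ (∀ x ∈ L, x ⊆ U ∧ x.Nonempty ∧ Few G k ↑x) ∧
      (∀ v ∈ U, {v} ∈ L) ∧ (∀ x ∈ L, ∀ y ∈ L, x ⊆ y ∨ y ⊆ x ∨ Disjoint x y) ∧
      ∀ r ∈ L, (∃ x ∈ L, x ⊂ r) → ∃ r1 ∈ L, ∃ r2 ∈ L, r1 ⊂ r ∧ r2 ⊂ r ∧ Disjoint r1 r2 ∧
        ∀ x ∈ L, x ⊂ r → x ⊆ r1 ∨ x ⊆ r2 := by
  induction h with
  | single v hk =>
    refine ⟨{{v}}, rfl, ?_, by simp, by simp, ?_⟩
    · rintro x rfl
      exact ⟨subset_rfl, by simp, (Dec.single v hk).few⟩
    · rintro r rfl ⟨x, rfl, h⟩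
      exact absurd rfl h.ne
  | union S T U hd hU hS hT hF ihS ihT =>
    obtain ⟨L1, a1, a2, a3, a4, a5⟩ := ihS
    obtain ⟨L2, b1, b2, b3, b4, b5⟩ := ihT
    have sU : S ⊆ U := fun v hv => (hU v).2 (Or.inl hv)
    have tU : T ⊆ U := fun v hv => (hU v).2 (Or.inr hv)
    have sU' : S ⊂ U := by
      obtain ⟨v, hv⟩ := hT.nonempty
      exact ⟨sU, fun h => Finset.disjoint_right.1 hd hv (h (tU hv))⟩
    have tU' : T ⊂ U := by
      obtain ⟨v, hv⟩ := hS.nonempty
      exact ⟨tU, fun h => Finset.disjoint_left.1 hd hv (h (sU hv))⟩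
    have cross : ∀ x ∈ L1, ∀ y ∈ L2, Disjoint x y := fun x hx y hy =>
      Finset.disjoint_of_subset_left (a2 x hx).1 (Finset.disjoint_of_subset_right (b2 y hy).1 hd)
    refine ⟨insert U (L1 ∪ L2), Or.inl rfl, ?_, ?_, ?_, ?_⟩
    · rintro x (rfl | hx | hx)
      · exact ⟨subset_rfl, hS.nonempty.mono sU, hF⟩
      · exact ⟨(a2 x hx).1.trans sU, (a2 x hx).2⟩
      · exact ⟨(b2 x hx).1.trans tU, (b2 x hx).2⟩
    · intro v hv
      rcases (hU v).1 hv with h | h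
      · exact Or.inr (Or.inl (a3 v h))
      · exact Or.inr (Or.inr (b3 v h))
    · rintro x (rfl | hx | hx) y (rfl | hy | hy)
      · exact Or.inl subset_rfl
      · exact Or.inr (Or.inl ((a2 y hy).1.trans sU))
      · exact Or.inr (Or.inl ((b2 y hy).1.trans tU))
      · exact Or.inl ((a2 x hx).1.trans sU)
      · exact a4 x hx y hy
      · exact Or.inr (Or.inr (cross x hx y hy))
      · exact Or.inl ((b2 x hx).1.trans tU)
      · exact Or.inr (Or.inr (cross y hy x hx).symm)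
      · exact b4 x hx y hy
    · have in1 : ∀ r ∈ L1, ∀ x ∈ insert U (L1 ∪ L2), x ⊂ r → x ∈ L1 := by
        rintro r hr x (rfl | hx | hx) hxr
        · exact absurd (lt_of_lt_of_le hxr ((a2 r hr).1.trans sU)) (lt_irrefl _)
        · exact hx
        · obtain ⟨v, hv⟩ := (b2 x hx).2.1
          exact absurd (hxr.subset hv) (Finset.disjoint_right.1 (cross r hr x hx) hv)
      have in2 : ∀ r ∈ L2, ∀ x ∈ insert U (L1 ∪ L2), x ⊂ r → x ∈ L2 := by
        rintro r hr x (rfl | hx | hx) hxr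
        · exact absurd (lt_of_lt_of_le hxr ((b2 r hr).1.trans tU)) (lt_irrefl _)
        · obtain ⟨v, hv⟩ := (a2 x hx).2.1
          exact absurd (hxr.subset hv) (Finset.disjoint_left.1 (cross x hx r hr) hv)
        · exact hx
      rintro r (rfl | hr | hr) ⟨x, hx, hxr⟩
      · refine ⟨S, Or.inr (Or.inl a1), T, Or.inr (Or.inr b1), sU', tU', hd, ?_⟩
        rintro y (rfl | hy | hy) hyr
        · exact absurd rfl hyr.ne
        · exact Or.inl (a2 y hy).1
        · exact Or.inr (b2 y hy).1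
      · obtain ⟨r1, c1, r2, c2, c3, c4, c5, c6⟩ := a5 r hr ⟨x, in1 r hr x hx hxr, hxr⟩
        exact ⟨r1, Or.inr (Or.inl c1), r2, Or.inr (Or.inl c2), c3, c4, c5,
          fun y hy hyr => c6 y (in1 r hr y hy hyr) hyr⟩
      · obtain ⟨r1, c1, r2, c2, c3, c4, c5, c6⟩ := b5 r hr ⟨x, in2 r hr x hx hxr, hxr⟩
        exact ⟨r1, Or.inr (Or.inr c1), r2, Or.inr (Or.inr c2), c3, c4, c5,
          fun y hy hyr => c6 y (in2 r hr y hy hyr) hyr⟩

theorem mem_cl_of_dec {V : Type} [Fintype V] (pt : V) {G : SimpleGraph V}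
    (h : Dec G k Finset.univ) {s : ℕ} (hs : ¬ Chain G k s) (μ : V → Bool) :
    ∃ c, (⟨V, pt, G, μ, c, Finset.univ⟩ : Obj k) ∈ Cl s 0 {O : Obj k | O.S.card ≤ 1} := by
  obtain ⟨L, a1, a2, a3, a4, a5⟩ := h.family
  have : ∀ x : Finset V, ∃ c : V → Fin k, x ∈ L →
      ∀ u ∈ x, ∀ u' ∈ x, (c u = c u' ↔ ∀ v ∉ x, (G.Adj u v ↔ G.Adj u' v)) := by
    intro x
    by_cases hx : x ∈ L
    · obtain ⟨c, hc⟩ := (a2 x hx).2.2.canon
      exact ⟨c, fun _ => hc⟩
    · exact ⟨fun _ => ⟨0, h.pos⟩, fun h' => absurd h' hx⟩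
  choose col hcol using this
  let D : DG k := ⟨V, inferInstance, pt, G, L, col, a4, a5,
    fun x hx u hu u' hu' h => (hcol x hx u hu u' hu').1 h,
    fun x hx y hy hxy u hu u' hu' h => (hcol y hy u (hxy hu) u' (hxy hu')).2
      (fun v hv => (hcol x hx u hu u' hu').1 h v (fun h' => hv (hxy h')))⟩
  refine ⟨col Finset.univ, _, ⟨D, Finset.univ, Finset.univ, fun v => {v}, id, μ, hs,
    ⟨a1, a3, fun _ _ => Finset.subset_univ _, fun v _ => Finset.mem_singleton_self v, ?_,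
      fun _ _ _ _ _ => Iff.rfl⟩, fun _ _ _ _ _ _ => Nat.zero_le _, ?_, rfl⟩, Emb.refl _⟩
  · intro u _ v _
    by_cases huv : u = v
    · exact Or.inl (by rw [huv])
    · exact Or.inr (Finset.disjoint_singleton.2 huv)
  · intro x T hT
    refine Finset.card_le_one.2 (fun a ha b hb => ?_)
    exact Finset.singleton_injective ((hT a ha).2.trans (hT b hb).2.symm)

/-- Bounded clique-width and no long chain give a good pair in every sequence. -/
theorem good_of_no_chain {s : ℕ} (hs : 1 ≤ s) (f : ℕ → CG) (hne : ∀ n, 0 < (f n).1)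
    (h1 : ∀ n, CwLe (f n).2.1 k) (h2 : ∀ n, ¬ Chain (f n).2.1 k s) :
    ∃ m n, m < n ∧ CLe (f m) (f n) := by
  have hd : ∀ n, Dec (f n).2.1 k Finset.univ := fun n =>
    have : Nonempty (Fin (f n).1) := ⟨⟨0, hne n⟩⟩
    dec_of_cwLe (h1 n)
  choose c hc using fun n => mem_cl_of_dec ⟨0, hne n⟩ (hd n) (h2 n) (f n).2.2
  have hp := pwo_cl (k := k) hs 0 (Nat.zero_le _) _ (fun O h O' h' => h'.card_le.trans h) pwo_small
  obtain ⟨m, n, hmn, φ, a1, a2, a3⟩ := hp.exists_lt hc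
  refine ⟨m, n, hmn, ⟨⟨φ, fun u v h => a2 (Finset.mem_univ u) (Finset.mem_univ v) h⟩,
    fun {u v} => a3 u (Finset.mem_univ u) v (Finset.mem_univ v)⟩,
    fun v => (a1 v (Finset.mem_univ v)).2.2⟩

end Pool.Agent.MP_2278ed_co

end MrgPart2

-- ======== part 3: formerly Pool.Agent.MP_2278ed_co.Final
section MrgPart3

namespace Pool.Agent.MP_2278ed_co

open Classical

theorem CLe.size_le {a b : CG} (h : CLe a b) : a.1 ≤ b.1 := by
  obtain ⟨f, -⟩ := h
  simpa using Fintype.card_le_of_injective f f.injective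

theorem CLe.symm_of_eq {a b : CG} (h : CLe a b) (e : a.1 = b.1) : CLe b a := by
  obtain ⟨f, hf⟩ := h
  have hb : Function.Bijective f := (Fintype.bijective_iff_injective_and_card f).2
    ⟨f.injective, by simpa using e⟩
  let φ : a.2.1 ≃g b.2.1 := ⟨Equiv.ofBijective f hb, f.map_adj_iff⟩
  refine ⟨φ.symm.toEmbedding, fun v => ?_⟩
  rw [← hf]
  exact congrArg _ (φ.apply_symm_apply v)

theorem CLe.mem {a b : CG} (h : CLe a b) {Y : Set FG} (hY : Hereditary Y) (hb : b.toFG ∈ Y) :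
    a.toFG ∈ Y :=
  let ⟨f, _⟩ := h
  hY _ _ hb ⟨f⟩

theorem exists_min_family (R : Set CG) :
    ∃ A ⊆ R, (∀ a ∈ A, ∀ b ∈ A, a ≠ b → ¬ CLe a b) ∧ ∀ x ∈ R, ∃ a ∈ A, CLe a x := by
  obtain ⟨enc, henc⟩ := exists_injective_nat CG
  refine ⟨{x | x ∈ R ∧ ∀ y ∈ R, CLe y x → x.1 ≤ y.1 ∧ (y.1 = x.1 → enc x ≤ enc y)},
    fun x hx => hx.1, ?_, ?_⟩
  · intro a ha b hb hab h
    have e : a.1 = b.1 := le_antisymm h.size_le (hb.2 a ha.1 h).1
    exact hab (henc (le_antisymm ((ha.2 b hb.1 (h.symm_of_eq e)).2 e.symm) ((hb.2 a ha.1 h).2 e)))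
  · intro x hx
    have h1 : ∃ n, ∃ y ∈ R, CLe y x ∧ y.1 = n := ⟨_, x, hx, CLe.refl x, rfl⟩
    have h2 : ∃ e, ∃ y ∈ R, CLe y x ∧ y.1 = Nat.find h1 ∧ enc y = e :=
      let ⟨y, a, b, c⟩ := Nat.find_spec h1
      ⟨_, y, a, b, c, rfl⟩
    obtain ⟨y, a, b, c, d⟩ := Nat.find_spec h2
    refine ⟨y, ⟨a, fun z hz hzy => ⟨?_, fun e => ?_⟩⟩, b⟩
    · rw [c]
      exact Nat.find_min' h1 ⟨z, hz, hzy.trans b, rfl⟩
    · rw [d]
      exact Nat.find_min' h2 ⟨z, hz, hzy.trans b, e.trans c, rfl⟩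

theorem infinite_of_seq {R A : Set CG} (hA : A ⊆ R) (hm : ∀ x ∈ R, ∃ a ∈ A, CLe a x) {Y : Set FG}
    (hY : Hereditary Y) (f : ℕ → CG) (h1 : ∀ n, f n ∈ R) (h2 : ∀ n, (f n).toFG ∈ Y)
    (h3 : ∀ b ∈ R, {n | CLe b (f n)}.Finite) : {a | a ∈ A ∧ a.toFG ∈ Y}.Infinite := by
  intro hfin
  apply Set.infinite_univ (α := ℕ)
  refine (hfin.biUnion (fun b hb => h3 b (hA hb.1))).subset (fun n _ => ?_)
  obtain ⟨a, ha, h⟩ := hm _ (h1 n)
  exact Set.mem_biUnion (x := a) ⟨ha, h.mem hY (h2 n)⟩ h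

theorem antichain_of_bad {X : Set FG} (hX : Hereditary X)
    (h : ¬ {a : CG | a.toFG ∈ X}.PartiallyWellOrderedOn CLe) : ∃ A, InfAntichainIn A X := by
  rw [Set.PartiallyWellOrderedOn.iff_forall_not_isBadSeq] at h
  push Not at h
  obtain ⟨f, h1, h2⟩ := h
  obtain ⟨A, a1, a2, a3⟩ := exists_min_family (Set.range f)
  refine ⟨A, (infinite_of_seq a1 a3 hX f (fun n => ⟨n, rfl⟩) h1 ?_).mono (fun a ha => ha.1), a2,
    fun a ha => ?_⟩
  · rintro _ ⟨i, rfl⟩
    exact (Set.finite_le_nat i).subset (fun n hn => not_lt.1 (fun h => h2 i n h hn))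
  · obtain ⟨n, rfl⟩ := a1 ha
    exact h1 n

theorem mark_mem {Y : Set FG} {s ρ} (h : PreT Y s ρ) (m : ℕ) : (mark s ρ m).toFG ∈ Y :=
  h.age _ ⟨SimpleGraph.Embedding.comap Fin.valEmbedding (arr s ρ)⟩

theorem long_of_antichain {Y : Set FG} (hY : Hereditary Y) (hb : BoundedCw Y) {B : Set CG}
    (hB : InfAntichainIn B Y) (n : ℕ) : ∃ s ρ, n ≤ s ∧ PreT Y s ρ ∧ ∀ q, ¬ Hinge s ρ q := by
  obtain ⟨k, hk⟩ := hb
  have h : ∀ s, ∃ G ∈ Y, Chain G.2 k s := by
    intro s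
    by_contra hcon
    push Not at hcon
    let f := hB.1.natEmbedding B
    have hf : ∀ m n, m < n → ¬ CLe (f m) (f n) := fun m n hmn =>
      hB.2.1 _ (f m).2 _ (f n).2 (fun e => hmn.ne (f.injective (Subtype.ext e)))
    obtain ⟨m, n, hmn, h⟩ := good_of_no_chain (k := k) (s := s + 1) (by omega) (fun n => f n)
      (fun n => by
        by_contra h0
        have : IsEmpty (Fin (f n).1.1) := ⟨fun x => h0 x.pos⟩
        exact hf n (n + 1) (by omega) ⟨⟨Function.Embedding.ofIsEmpty, fun {a} => isEmptyElim a⟩,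
          fun v => isEmptyElim v⟩)
      (fun n => hk _ (hB.2.2 _ (f n).2))
      (fun n ⟨u, l, δ, hu⟩ => hcon _ (hB.2.2 _ (f n).2)
        ⟨u, l, δ, fun i j hij hj => hu i j hij (by omega)⟩)
    exact hf m n hmn h
  obtain ⟨l, δ, hρ⟩ := preT_of_chain hY h
    ((Fintype.card (Fin k × (Fin k → Prop)) + 1) * (n + 1))
  obtain ⟨lo, L, a1, a2, a3⟩ := hinge_free_window (hinges_le l δ) le_rfl
  exact ⟨L, _, a1, hρ.shift a2, a3⟩

theorem not_wqo {X : Set FG} (hX : MinimalUnbounded X) :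
    ¬ {a : CG | a.toFG ∈ X}.PartiallyWellOrderedOn CLe := by
  intro hw
  have hM : ∀ s, ∃ m, 1 ≤ s → _ := fun s => by
    by_cases hs : 1 ≤ s
    · obtain ⟨m, -, hm⟩ := main_M hX s hs
      exact ⟨m, fun _ => hm⟩
    · exact ⟨0, fun h => absurd h hs⟩
  choose m hm using hM
  have hcard : ∀ s ρ, (hinges s ρ).card ≤ s := fun s ρ => by
    have := Finset.card_filter_le (Finset.range s) (Hinge s ρ)
    rwa [Finset.card_range] at this
  by_cases hc : ∀ n, ∃ p : ℕ × (ℕ → ℕ → Prop), n < p.1 ∧ PreT X p.1 p.2 ∧ ∀ q, ¬ Hinge p.1 p.2 q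
  · obtain ⟨f, f1, f2⟩ := exists_seq_of_forall_finset_exists
      (fun p : ℕ × (ℕ → ℕ → Prop) => 1 ≤ p.1 ∧ PreT X p.1 p.2 ∧ ∀ q, ¬ Hinge p.1 p.2 q)
      (fun p p' => p.1 < p'.1) (fun S _ => by
        obtain ⟨p, p1, p2⟩ := hc (S.sup Prod.fst)
        exact ⟨p, ⟨by omega, p2⟩, fun x hx => lt_of_le_of_lt (Finset.le_sup hx) p1⟩)
    obtain ⟨i, j, hij, h⟩ := hw.exists_lt (f := fun n => mark (f n).1 (f n).2 (m (f n).1))
      (fun n => mark_mem (f1 n).2.1 _)
    obtain ⟨⟨q, hq⟩, -⟩ := hm _ (f1 i).1 _ _ _ _ (f1 j).2.1 (f2 i j hij) h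
    exact (f1 i).2.2 q hq
  · push Not at hc
    obtain ⟨n0, hn0⟩ := hc
    have key : ∀ n, ∃ p : ℕ × (ℕ → ℕ → Prop), PreT X p.1 p.2 ∧ Hinge p.1 p.2 0 ∧
        n < (hinges p.1 p.2).card := by
      intro n
      obtain ⟨ρ, hρ⟩ := long_of_wqo hX hw ((n + 1) * (n0 + 1 + 1))
      by_cases h : (hinges ((n + 1) * (n0 + 1 + 1)) ρ).card ≤ n
      · obtain ⟨lo, L, a1, a2, a3⟩ := hinge_free_window h le_rfl
        obtain ⟨q, hq⟩ := hn0 (L, _) a1 (hρ.shift a2)
        exact absurd hq (a3 q)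
      · obtain ⟨lo, L, a1, a2, a3⟩ := many_hinges (not_le.1 h)
        exact ⟨(L, _), hρ.shift a1, a2, a3⟩
    obtain ⟨f, f1, f2⟩ := exists_seq_of_forall_finset_exists
      (fun p : ℕ × (ℕ → ℕ → Prop) => PreT X p.1 p.2 ∧ Hinge p.1 p.2 0 ∧ 2 < (hinges p.1 p.2).card)
      (fun p p' => p.1 + 1 < (hinges p'.1 p'.2).card) (fun S _ => by
        obtain ⟨p, p1, p2, p3⟩ := key (S.sup Prod.fst + 2)
        refine ⟨p, ⟨p1, p2, by omega⟩, fun x hx => ?_⟩
        have := Finset.le_sup (f := Prod.fst) hx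
        omega)
    obtain ⟨i, j, hij, h⟩ := hw.exists_lt (f := fun n => mark (f n).1 (f n).2 (m (f n).1))
      (fun n => mark_mem (f1 n).1 _)
    have a1 := f2 i j hij
    have a2 := hcard (f j).1 (f j).2
    obtain ⟨-, J, b1, b2, b3, b4, b5⟩ := hm _ (f1 i).2.1.1 _ _ _ _ (f1 j).1 (by omega) h
    exact not_cle_hinged (f1 i).2.2 (f1 i).2.1 (by omega) J b1 b2 b3 b4 b5

theorem canonical_exists {X : Set FG} (hX : MinimalUnbounded X) : ∃ A, Canonical A X := by
  by_cases h0 : ∃ Y, Hereditary Y ∧ Y ⊂ X ∧ ∃ B, InfAntichainIn B Y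
  swap
  · obtain ⟨A, hA⟩ := antichain_of_bad hX.1 (not_wqo hX)
    refine ⟨A, hA, fun Y hY hYX hfin hB => h0 ⟨Y, hY, ⟨hYX, fun h => hA.1 ?_⟩, hB⟩⟩
    exact hfin.subset (fun a ha => ⟨ha, h (hA.2.2 a ha)⟩)
  have hM : ∀ s, ∃ m, 1 ≤ s → _ := fun s => by
    by_cases hs : 1 ≤ s
    · obtain ⟨m, -, hm⟩ := main_M hX s hs
      exact ⟨m, fun _ => hm⟩
    · exact ⟨0, fun h => absurd h hs⟩
  choose m hm using hM
  obtain ⟨A, a1, a2, a3⟩ := exists_min_family
    {b | ∃ s ρ, 1 ≤ s ∧ PreT X s ρ ∧ (∀ q, ¬ Hinge s ρ q) ∧ b = mark s ρ (m s)}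
  have key : ∀ Y, Hereditary Y → Y ⊂ X → (∃ B, InfAntichainIn B Y) →
      {a | a ∈ A ∧ a.toFG ∈ Y}.Infinite := by
    rintro Y hY hYX ⟨B, hB⟩
    choose s ρ c1 c2 c3 using fun n => long_of_antichain hY (hX.2.2 Y hY hYX) hB (n + 1)
    refine infinite_of_seq a1 a3 hY (fun n => mark (s n) (ρ n) (m (s n)))
      (fun n => ⟨_, _, le_trans (by omega) (c1 n), (c2 n).mono hYX.1, c3 n, rfl⟩)
      (fun n => mark_mem (c2 n) _) ?_
    rintro _ ⟨s', ρ', d1, -, d3, rfl⟩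
    refine (Set.finite_le_nat s').subset (fun n hn => ?_)
    by_contra hlt
    have := c1 n
    simp only [Set.mem_setOf_eq, not_le] at hlt
    obtain ⟨⟨q, hq⟩, -⟩ := hm s' d1 _ _ _ _ ((c2 n).mono hYX.1) (by omega) hn
    exact d3 q hq
  obtain ⟨Y0, y1, y2, y3⟩ := h0
  refine ⟨A, ⟨(key Y0 y1 y2 y3).mono (fun a ha => ha.1), a2, fun a ha => ?_⟩,
    fun Y hY hYX hfin hB => ?_⟩
  · obtain ⟨s, ρ, -, d2, -, rfl⟩ := a1 ha
    exact mark_mem d2 _
  · by_cases e : X ⊆ Y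
    · exact key Y0 y1 y2 y3 (hfin.subset (fun a ha => ⟨ha.1, e (y2.1 ha.2)⟩))
    · exact key Y hY ⟨hYX, e⟩ hB hfin

end Pool.Agent.MP_2278ed_co

end MrgPart3

-- marker of a merged file
example : 731051 + 587422 = 731051 + 587422 := rfl
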